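import Mathlib
import Pool.Agent.H153R4.Nu
set_option autoImplicit false

/-! The dimension of a limsup set from an integral bound and local constancy. -/

namespace Pool.Agent.W777.DL

open MeasureTheory Set Metric Filter
open scoped ENNReal NNReal Topology

lemma grid {c w : ℝ} (hw : 0 < w) {N : ℕ} (hN : 0 < N) {L : ℝ} (hL : L ∈ Icc c (c + w)) :
    ∃ k < N, L ∈ Icc (c + k * (w / N)) (c + (k + 1) * (w / N)) := by
  have hN' : (0:ℝ) < N := by exact_mod_cast hN
  set h := w / N with hh
  have hpos : 0 < h := by positivity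
  have hNh : N * h = w := by rw [hh]; field_simp
  rcases eq_or_lt_of_le hL.2 with h1 | h1
  · refine ⟨N - 1, by omega, ?_, ?_⟩
    · have : ((N - 1 : ℕ) : ℝ) = N - 1 := by
        rw [Nat.cast_sub (by omega)]; norm_num
      rw [this, h1]
      nlinarith
    · have : ((N - 1 : ℕ) : ℝ) = N - 1 := by
        rw [Nat.cast_sub (by omega)]; norm_num
      rw [this, h1]
      nlinarith
  · have h0 : 0 ≤ (L - c) / h := div_nonneg (by linarith [hL.1]) hpos.le
    refine ⟨⌊(L - c) / h⌋₊, ?_, ?_, ?_⟩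
    · rw [Nat.floor_lt h0, div_lt_iff₀ hpos, hNh]
      linarith
    · have := Nat.floor_le h0
      rw [le_div_iff₀ hpos] at this
      linarith
    · have := (Nat.lt_floor_add_one ((L - c) / h)).le
      rw [div_le_iff₀ hpos] at this
      linarith

theorem dim_bound {c w : ℝ} (hw : 0 < w) (D Z : ℕ → ℝ → ℝ≥0∞) (C1 C2 : ℝ≥0∞) (hC1 : C1 ≠ ⊤)
    (hC2 : C2 ≠ ⊤) (γ e : ℝ) (hge : 0 ≤ γ + e)
    (h1 : ∀ j k : ℕ, k < 2 ^ j → ∀ L ∈ Icc (c + k * (w / (2 ^ j : ℕ)))
      (c + (k + 1) * (w / (2 ^ j : ℕ))), ENNReal.ofReal (w / (2 ^ j : ℕ)) * D j L ≤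
      C1 * ∫⁻ s in Icc (c + k * (w / (2 ^ j : ℕ))) (c + (k + 1) * (w / (2 ^ j : ℕ))), Z j s)
    (h2 : ∀ j : ℕ, ∫⁻ s in Icc c (c + w), Z j s ≤
      C2 * ENNReal.ofReal (((2 ^ j : ℕ) : ℝ) ^ (e - 1))) :
    dimH {L ∈ Icc c (c + w) | ∃ᶠ j in atTop,
      ENNReal.ofReal (((2 ^ j : ℕ) : ℝ) ^ (-γ)) < D j L} ≤ ENNReal.ofReal (γ + e) := by
  refine ENNReal.le_of_forall_pos_le_add fun ε hε _ => ?_
  set s : ℝ≥0 := Real.toNNReal (γ + e) + ε with hs
  have hsR : (s : ℝ) = γ + e + ε := by
    rw [hs, NNReal.coe_add, Real.coe_toNNReal _ hge]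
  have hs0 : 0 < (s : ℝ) := by
    rw [hsR]
    have : (0:ℝ) < ε := hε
    linarith
  have e1 : ENNReal.ofReal (γ + e) + ε = (s : ℝ≥0∞) := by
    rw [hs, ENNReal.coe_add]
    rfl
  rw [e1]
  apply dimH_le_of_hausdorffMeasure_ne_top
  set N : ℕ → ℕ := fun j => 2 ^ j with hN
  have hNpos : ∀ j, 0 < N j := fun j => by rw [hN]; positivity
  have hNR : ∀ j, (0:ℝ) < N j := fun j => by exact_mod_cast hNpos j
  set I : ℕ → ℕ → Set ℝ := fun j k => Icc (c + k * (w / N j)) (c + (k + 1) * (w / N j)) with hI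
  set bad : ℕ → ℕ → Prop := fun j k => k < N j ∧ ∃ L ∈ I j k,
    ENNReal.ofReal ((N j : ℝ) ^ (-γ)) < D j L with hbad
  classical
  set S := {L ∈ Icc c (c + w) | ∃ᶠ j in atTop, ENNReal.ofReal ((N j : ℝ) ^ (-γ)) < D j L} with hS
  set t : ℕ → ℕ × ℕ → Set ℝ := fun n p => if n ≤ p.1 ∧ bad p.1 p.2 then I p.1 p.2 else ∅ with ht
  have hdiam : ∀ j k, ediam (I j k) = ENNReal.ofReal (w / N j) := by
    intro j k
    rw [hI]
    simp only
    rw [Real.ediam_Icc]
    congr 1
    ring
  have hcov : ∀ n, S ⊆ ⋃ p, t n p := by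
    intro n L hL
    obtain ⟨j, hj, hD⟩ := frequently_atTop.1 hL.2 n
    obtain ⟨k, hk, hLk⟩ := grid hw (hNpos j) hL.1
    refine mem_iUnion.2 ⟨(j, k), ?_⟩
    have hb : bad j k := ⟨hk, L, hLk, hD⟩
    rw [ht]
    simp only
    rw [if_pos ⟨hj, hb⟩]
    exact hLk
  -- the sum
  set term : ℕ × ℕ → ℝ≥0∞ := fun p => if bad p.1 p.2 then ENNReal.ofReal (w / N p.1) ^ (s : ℝ) else 0
    with hterm
  have hle : ∀ n p, ediam (t n p) ^ (s : ℝ) ≤ term p := by
    intro n p
    rw [ht, hterm]
    simp only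
    by_cases hb : bad p.1 p.2
    · rw [if_pos hb]
      by_cases hn : n ≤ p.1
      · rw [if_pos ⟨hn, hb⟩, hdiam]
      · rw [if_neg (fun h => hn h.1), Metric.ediam_empty, ENNReal.zero_rpow_of_pos hs0]
        exact zero_le
    · rw [if_neg hb, if_neg (fun h => hb h.2), Metric.ediam_empty, ENNReal.zero_rpow_of_pos hs0]
  have hH := Measure.hausdorffMeasure_le_liminf_tsum (s : ℝ) S (l := atTop)
    (fun n : ℕ => ENNReal.ofReal (w / N n)) ?_ t ?_ (Eventually.of_forall hcov)
  · have hK : ∑' p, term p < ⊤ := by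
      rw [ENNReal.tsum_prod']
      set A : ℝ≥0∞ := ENNReal.ofReal (w ^ ((s : ℝ) - 1)) * C1 * C2 with hA
      set ρ : ℝ := (2:ℝ) ^ (γ + e - s) with hρ
      have hrow : ∀ j, ∑' k, term (j, k) ≤ A * ENNReal.ofReal ρ ^ j := by
        intro j
        have hX : ENNReal.ofReal (w / N j * (N j : ℝ) ^ (-γ)) ≠ 0 := by
          apply (ENNReal.ofReal_pos.2 _).ne'
          have := hNR j
          positivity
        set X := ENNReal.ofReal (w / N j * (N j : ℝ) ^ (-γ)) with hXd
        have hsum : ∑' k, term (j, k) = ∑ k ∈ Finset.range (N j), term (j, k) := by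
          apply tsum_eq_sum
          intro k hk
          rw [Finset.mem_range] at hk
          rw [hterm]
          simp only
          rw [if_neg (fun h => hk h.1)]
        rw [hsum]
        have hk : ∀ k ∈ Finset.range (N j), term (j, k) ≤
            (ENNReal.ofReal (w / N j) ^ (s : ℝ) * X⁻¹ * C1) * ∫⁻ s in Ioc (c + k * (w / N j))
              (c + (k + 1) * (w / N j)), Z j s := by
          intro k hk
          rw [hterm]
          simp only
          by_cases hb : bad j k
          · rw [if_pos hb]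
            obtain ⟨hkN, L, hLk, hD⟩ := hb
            have h3 := h1 j k hkN L hLk
            have h4 : X ≤ C1 * ∫⁻ s in I j k, Z j s := by
              refine le_trans ?_ h3
              rw [hXd, ENNReal.ofReal_mul (by have := hNR j; positivity)]
              gcongr
            have h5 : ∫⁻ s in I j k, Z j s = ∫⁻ s in Ioc (c + k * (w / N j))
              (c + (k + 1) * (w / N j)), Z j s := setLIntegral_congr Ioc_ae_eq_Icc.symm
            rw [h5] at h4
            calc ENNReal.ofReal (w / N j) ^ (s : ℝ) =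
                  ENNReal.ofReal (w / N j) ^ (s : ℝ) * (X⁻¹ * X) := by
                  rw [ENNReal.inv_mul_cancel hX ENNReal.ofReal_ne_top, mul_one]
              _ ≤ ENNReal.ofReal (w / N j) ^ (s : ℝ) * (X⁻¹ * (C1 * ∫⁻ s in Ioc
                  (c + k * (w / N j)) (c + (k + 1) * (w / N j)), Z j s)) := by gcongr
              _ = _ := by ring
          · rw [if_neg hb]
            exact zero_le
        refine (Finset.sum_le_sum hk).trans ?_
        rw [← Finset.mul_sum, Pool.Agent.H153R4.sum_Ioc (Z j) c (w / N j)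
          (by have := hNR j; positivity) (N j)]
        have e2 : (N j : ℝ) * (w / N j) = w := by
          have := (hNR j).ne'
          field_simp
        rw [e2]
        have h6 : ∫⁻ s in Ioc c (c + w), Z j s ≤ C2 * ENNReal.ofReal ((N j : ℝ) ^ (e - 1)) :=
          (lintegral_mono_set Ioc_subset_Icc_self).trans (h2 j)
        have h7 : ENNReal.ofReal (w / N j) ^ (s : ℝ) * X⁻¹ * ENNReal.ofReal ((N j : ℝ) ^ (e - 1)) =
            ENNReal.ofReal (w ^ ((s : ℝ) - 1)) * ENNReal.ofReal ρ ^ j := by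
          have hn := hNR j
          have hwN : 0 < w / N j := by positivity
          rw [hXd, ENNReal.ofReal_rpow_of_pos hwN, ← ENNReal.ofReal_inv_of_pos (by positivity),
            ← ENNReal.ofReal_mul (by positivity), ← ENNReal.ofReal_mul (by positivity),
            ← ENNReal.ofReal_pow (by positivity), ← ENNReal.ofReal_mul (by positivity)]
          congr 1
          have hNj : ((N j : ℕ) : ℝ) = (2:ℝ) ^ (j : ℝ) := by
            rw [hN]
            push_cast
            rw [Real.rpow_natCast]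
          have hρj : ρ ^ j = (N j : ℝ) ^ (γ + e - s) := by
            rw [hρ, hNj, ← Real.rpow_natCast, ← Real.rpow_mul (by norm_num),
              ← Real.rpow_mul (by norm_num)]
            congr 1
            ring
          rw [hρj, Real.div_rpow hw.le hn.le, mul_inv, ← Real.rpow_neg hn.le, neg_neg]
          have a1 : w ^ (s : ℝ) = w ^ ((s : ℝ) - 1) * w := by
            rw [Real.rpow_sub hw, Real.rpow_one]
            field_simp
          have a2 : (N j : ℝ) ^ (γ + e - s) = (N j : ℝ) ^ γ * (N j : ℝ) ^ (e - 1) * N j /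
              (N j : ℝ) ^ (s : ℝ) := by
            rw [show γ + e - s = γ + (e - 1) + 1 - s by ring, Real.rpow_sub hn, Real.rpow_add hn,
              Real.rpow_add hn, Real.rpow_one]
          rw [a1, a2]
          field_simp
        calc (ENNReal.ofReal (w / N j) ^ (s : ℝ) * X⁻¹ * C1) * ∫⁻ s in Ioc c (c + w), Z j s
            ≤ (ENNReal.ofReal (w / N j) ^ (s : ℝ) * X⁻¹ * C1) *
              (C2 * ENNReal.ofReal ((N j : ℝ) ^ (e - 1))) := by gcongr
          _ = (ENNReal.ofReal (w / N j) ^ (s : ℝ) * X⁻¹ * ENNReal.ofReal ((N j : ℝ) ^ (e - 1))) *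
              (C1 * C2) := by ring
          _ = _ := by rw [h7, hA]; ring
      refine lt_of_le_of_lt (ENNReal.tsum_le_tsum hrow) ?_
      rw [ENNReal.tsum_mul_left, ENNReal.tsum_geometric]
      refine ENNReal.mul_lt_top ?_ ?_
      · rw [hA]
        exact ENNReal.mul_lt_top (ENNReal.mul_lt_top ENNReal.ofReal_lt_top hC1.lt_top) hC2.lt_top
      · rw [ENNReal.inv_lt_top, tsub_pos_iff_lt, ← ENNReal.ofReal_one]
        rw [ENNReal.ofReal_lt_ofReal_iff zero_lt_one, hρ]
        apply Real.rpow_lt_one_of_one_lt_of_neg (by norm_num)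
        rw [hsR]
        have : (0:ℝ) < ε := hε
        linarith
    refine ne_of_lt (lt_of_le_of_lt (hH.trans ?_) hK)
    calc liminf (fun n => ∑' i, ediam (t n i) ^ (s : ℝ)) atTop
        ≤ liminf (fun _ : ℕ => ∑' p, term p) atTop := by
          refine liminf_le_liminf (Eventually.of_forall fun n => ?_)
          exact ENNReal.tsum_le_tsum (hle n)
      _ = ∑' p, term p := liminf_const _
  · have h8 : Tendsto (fun n : ℕ => w / (N n : ℝ)) atTop (𝓝 0) := by
      have : Tendsto (fun n : ℕ => ((N n : ℕ) : ℝ)) atTop atTop := by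
        have h9 := tendsto_pow_atTop_atTop_of_one_lt (r := (2:ℝ)) (by norm_num)
        refine h9.congr fun n => ?_
        rw [hN]
        push_cast
        rfl
      exact this.const_div_atTop w
    have h9 := ENNReal.tendsto_ofReal h8
    rwa [ENNReal.ofReal_zero] at h9
  · refine Eventually.of_forall fun n p => ?_
    rw [ht]
    simp only
    by_cases hb : n ≤ p.1 ∧ bad p.1 p.2
    · rw [if_pos hb, hdiam]
      apply ENNReal.ofReal_le_ofReal
      have := hNR n
      have h10 : N n ≤ N p.1 := Nat.pow_le_pow_right (by norm_num) hb.1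
      have h11 : (N n : ℝ) ≤ N p.1 := by exact_mod_cast h10
      gcongr
    · rw [if_neg hb, Metric.ediam_empty]
      exact zero_le

end Pool.Agent.W777.DL
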