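import Mathlib
set_option autoImplicit false

/-! Algebra: symmetric functions of two pairs of numbers. -/

namespace Pool.Agent.W777.DL

/-- product difference -/
lemma prod_diff {k s1 s2 s3 s4 D : ℝ} (hk : 0 < k)
    (h1 : k ≤ s1) (h2 : k ≤ s2) (h3 : k ≤ s3) (h4 : k ≤ s4)
    (g1 : s1 ≤ 1) (g2 : s2 ≤ 1) (g3 : s3 ≤ 1) (g4 : s4 ≤ 1)
    (hG : |s1 + s2 - s3 - s4| ≤ D)
    (hH : |1 / s1 + 1 / s2 - 1 / s3 - 1 / s4| ≤ D) :
    |s1 * s2 - s3 * s4| ≤ D / k := by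
  have p1 : 0 < s1 := by linarith
  have p2 : 0 < s2 := by linarith
  have p3 : 0 < s3 := by linarith
  have p4 : 0 < s4 := by linarith
  have e : (s3 + s4) * (s1 * s2 - s3 * s4) =
      (s1 + s2 - s3 - s4) * (s3 * s4) -
        (1 / s1 + 1 / s2 - 1 / s3 - 1 / s4) * (s1 * s2) * (s3 * s4) := by
    field_simp
    ring
  have hD : 0 ≤ D := (abs_nonneg _).trans hG
  have e2 : |(s3 + s4) * (s1 * s2 - s3 * s4)| ≤ 2 * D := by
    rw [e]
    refine (abs_sub _ _).trans ?_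
    have a1 : |(s1 + s2 - s3 - s4) * (s3 * s4)| ≤ D * 1 := by
      rw [abs_mul]
      apply mul_le_mul hG _ (abs_nonneg _) hD
      rw [abs_of_pos (by positivity)]
      exact mul_le_one₀ g3 p4.le g4
    have a2 : |(1 / s1 + 1 / s2 - 1 / s3 - 1 / s4) * (s1 * s2) * (s3 * s4)| ≤ D * 1 * 1 := by
      rw [abs_mul, abs_mul]
      apply mul_le_mul _ _ (abs_nonneg _) (by positivity)
      · apply mul_le_mul hH _ (abs_nonneg _) hD
        rw [abs_of_pos (by positivity)]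
        exact mul_le_one₀ g1 p2.le g2
      · rw [abs_of_pos (by positivity)]
        exact mul_le_one₀ g3 p4.le g4
    linarith
  rw [abs_mul, abs_of_pos (by positivity : 0 < s3 + s4)] at e2
  rw [le_div_iff₀ hk]
  have := abs_nonneg (s1 * s2 - s3 * s4)
  nlinarith

/-- all symmetric quantities are controlled -/
lemma sym_bounds {k s1 s2 s3 s4 D : ℝ} (hk : 0 < k)
    (h1 : k ≤ s1) (h2 : k ≤ s2) (h3 : k ≤ s3) (h4 : k ≤ s4)
    (g1 : s1 ≤ 1) (g2 : s2 ≤ 1) (g3 : s3 ≤ 1) (g4 : s4 ≤ 1)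
    (hG : |s1 + s2 - s3 - s4| ≤ D)
    (hH : |1 / s1 + 1 / s2 - 1 / s3 - 1 / s4| ≤ D) :
    |s1 ^ 2 + s2 ^ 2 - s3 ^ 2 - s4 ^ 2| ≤ 6 * D / k ∧
    |s1 ^ 2 * s2 ^ 2 - s3 ^ 2 * s4 ^ 2| ≤ 2 * D / k ∧
    |1 / s1 ^ 3 + 1 / s2 ^ 3 - 1 / s3 ^ 3 - 1 / s4 ^ 3| ≤ 30 * D / k ^ 6 ∧
    |1 / s1 ^ 5 + 1 / s2 ^ 5 - 1 / s3 ^ 5 - 1 / s4 ^ 5| ≤ 300 * D / k ^ 8 := by
  have p1 : 0 < s1 := by linarith
  have p2 : 0 < s2 := by linarith
  have p3 : 0 < s3 := by linarith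
  have p4 : 0 < s4 := by linarith
  have hD : 0 ≤ D := (abs_nonneg _).trans hG
  have hk1 : k ≤ 1 := by linarith
  have hP := prod_diff hk h1 h2 h3 h4 g1 g2 g3 g4 hG hH
  have hDk : D ≤ D / k := by
    rw [le_div_iff₀ hk]
    nlinarith
  -- inverse variables
  set x1 := 1 / s1 with hx1
  set x2 := 1 / s2 with hx2
  set x3 := 1 / s3 with hx3
  set x4 := 1 / s4 with hx4
  set c := 1 / k with hc
  have hc1 : 1 ≤ c := by rw [hc, le_div_iff₀ hk]; linarith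
  have q1 : 0 < x1 := by positivity
  have q2 : 0 < x2 := by positivity
  have q3 : 0 < x3 := by positivity
  have q4 : 0 < x4 := by positivity
  have r1 : x1 ≤ c := one_div_le_one_div_of_le hk h1
  have r2 : x2 ≤ c := one_div_le_one_div_of_le hk h2
  have r3 : x3 ≤ c := one_div_le_one_div_of_le hk h3
  have r4 : x4 ≤ c := one_div_le_one_div_of_le hk h4
  have hY : |x1 * x2 - x3 * x4| ≤ D * c ^ 5 := by
    have e : x1 * x2 - x3 * x4 = -(s1 * s2 - s3 * s4) * (x1 * x2 * (x3 * x4)) := by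
      simp only [hx1, hx2, hx3, hx4]
      field_simp
      ring
    rw [e, abs_mul, abs_neg, abs_of_pos (by positivity : 0 < x1 * x2 * (x3 * x4))]
    have e3 : D / k = D * c := by rw [hc]; ring
    rw [e3] at hP
    calc |s1 * s2 - s3 * s4| * (x1 * x2 * (x3 * x4)) ≤ (D * c) * (c * c * (c * c)) := by
          gcongr
      _ = D * c ^ 5 := by ring
  have ec : ∀ n : ℕ, 1 / k ^ n = c ^ n := fun n => by rw [hc, one_div_pow]
  have hcn : ∀ m n : ℕ, m ≤ n → c ^ m ≤ c ^ n := fun m n h => pow_le_pow_right₀ hc1 h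
  refine ⟨?_, ?_, ?_, ?_⟩
  · have e : s1 ^ 2 + s2 ^ 2 - s3 ^ 2 - s4 ^ 2 =
        (s1 + s2 - s3 - s4) * (s1 + s2 + s3 + s4) - 2 * (s1 * s2 - s3 * s4) := by ring
    rw [e]
    refine (abs_sub _ _).trans ?_
    rw [abs_mul, abs_mul, abs_of_pos (by positivity : 0 < s1 + s2 + s3 + s4),
      abs_of_pos (by norm_num : (0:ℝ) < 2)]
    have a1 : |s1 + s2 - s3 - s4| * (s1 + s2 + s3 + s4) ≤ D * 4 := by
      gcongr
      linarith
    have a2 : 6 * D / k = 4 * (D / k) + 2 * (D / k) := by ring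
    rw [a2]
    linarith
  · have e : s1 ^ 2 * s2 ^ 2 - s3 ^ 2 * s4 ^ 2 = (s1 * s2 - s3 * s4) * (s1 * s2 + s3 * s4) := by
      ring
    rw [e, abs_mul, abs_of_pos (by positivity : 0 < s1 * s2 + s3 * s4)]
    have a1 : s1 * s2 + s3 * s4 ≤ 2 := by
      have := mul_le_one₀ g1 p2.le g2
      have := mul_le_one₀ g3 p4.le g4
      linarith
    calc |s1 * s2 - s3 * s4| * (s1 * s2 + s3 * s4) ≤ D / k * 2 := by gcongr
      _ = 2 * D / k := by ring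
  · have e0 : 1 / s1 ^ 3 + 1 / s2 ^ 3 - 1 / s3 ^ 3 - 1 / s4 ^ 3 =
        x1 ^ 3 + x2 ^ 3 - x3 ^ 3 - x4 ^ 3 := by
      simp only [hx1, hx2, hx3, hx4, one_div_pow]
    have e : x1 ^ 3 + x2 ^ 3 - x3 ^ 3 - x4 ^ 3 =
        (x1 + x2 - x3 - x4) * ((x1 + x2) ^ 2 + (x1 + x2) * (x3 + x4) + (x3 + x4) ^ 2
          - 3 * (x1 * x2)) - 3 * (x3 + x4) * (x1 * x2 - x3 * x4) := by ring
    rw [e0, e]
    refine (abs_sub _ _).trans ?_
    have a1 : |(x1 + x2 - x3 - x4) * ((x1 + x2) ^ 2 + (x1 + x2) * (x3 + x4) + (x3 + x4) ^ 2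
          - 3 * (x1 * x2))| ≤ D * (15 * c ^ 2) := by
      rw [abs_mul]
      apply mul_le_mul hH _ (abs_nonneg _) hD
      refine (abs_sub _ _).trans ?_
      rw [abs_of_pos (by positivity), abs_of_pos (by positivity)]
      have b1 : (x1 + x2) ^ 2 ≤ (c + c) ^ 2 := by gcongr
      have b2 : (x1 + x2) * (x3 + x4) ≤ (c + c) * (c + c) := by gcongr
      have b3 : (x3 + x4) ^ 2 ≤ (c + c) ^ 2 := by gcongr
      have b4 : x1 * x2 ≤ c * c := by gcongr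
      nlinarith
    have a2 : |3 * (x3 + x4) * (x1 * x2 - x3 * x4)| ≤ 3 * (c + c) * (D * c ^ 5) := by
      rw [abs_mul, abs_of_pos (by positivity : 0 < 3 * (x3 + x4))]
      gcongr
    have a3 : 30 * D / k ^ 6 = 30 * D * c ^ 6 := by rw [← ec]; ring
    rw [a3]
    have a4 := hcn 2 6 (by norm_num)
    have a5 : D * c ^ 2 ≤ D * c ^ 6 := mul_le_mul_of_nonneg_left a4 hD
    have a6 : (0:ℝ) ≤ D * c ^ 6 := by positivity
    nlinarith
  · have e0 : 1 / s1 ^ 5 + 1 / s2 ^ 5 - 1 / s3 ^ 5 - 1 / s4 ^ 5 =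
        x1 ^ 5 + x2 ^ 5 - x3 ^ 5 - x4 ^ 5 := by
      simp only [hx1, hx2, hx3, hx4, one_div_pow]
    have e : x1 ^ 5 + x2 ^ 5 - x3 ^ 5 - x4 ^ 5 =
        (x1 + x2 - x3 - x4) * ((x1 + x2) ^ 4 + (x1 + x2) ^ 3 * (x3 + x4)
          + (x1 + x2) ^ 2 * (x3 + x4) ^ 2 + (x1 + x2) * (x3 + x4) ^ 3 + (x3 + x4) ^ 4
          - 5 * (x1 * x2) * ((x1 + x2) ^ 2 + (x1 + x2) * (x3 + x4) + (x3 + x4) ^ 2)
          + 5 * (x1 * x2) ^ 2)
        + (x1 * x2 - x3 * x4) * (5 * (x3 + x4) * (x1 * x2 + x3 * x4) - 5 * (x3 + x4) ^ 3) := by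
      ring
    rw [e0, e]
    refine (abs_add_le _ _).trans ?_
    have a1 : |(x1 + x2 - x3 - x4) * ((x1 + x2) ^ 4 + (x1 + x2) ^ 3 * (x3 + x4)
          + (x1 + x2) ^ 2 * (x3 + x4) ^ 2 + (x1 + x2) * (x3 + x4) ^ 3 + (x3 + x4) ^ 4
          - 5 * (x1 * x2) * ((x1 + x2) ^ 2 + (x1 + x2) * (x3 + x4) + (x3 + x4) ^ 2)
          + 5 * (x1 * x2) ^ 2)| ≤ D * (145 * c ^ 4) := by
      rw [abs_mul]
      apply mul_le_mul hH _ (abs_nonneg _) hD
      refine (abs_add_le _ _).trans ?_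
      have b0 : |(x1 + x2) ^ 4 + (x1 + x2) ^ 3 * (x3 + x4)
          + (x1 + x2) ^ 2 * (x3 + x4) ^ 2 + (x1 + x2) * (x3 + x4) ^ 3 + (x3 + x4) ^ 4
          - 5 * (x1 * x2) * ((x1 + x2) ^ 2 + (x1 + x2) * (x3 + x4) + (x3 + x4) ^ 2)| ≤
          140 * c ^ 4 := by
        refine (abs_sub _ _).trans ?_
        rw [abs_of_pos (by positivity), abs_of_pos (by positivity)]
        have b1 : (x1 + x2) ^ 4 ≤ (c + c) ^ 4 := by gcongr
        have b2 : (x1 + x2) ^ 3 * (x3 + x4) ≤ (c + c) ^ 3 * (c + c) := by gcongr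
        have b3 : (x1 + x2) ^ 2 * (x3 + x4) ^ 2 ≤ (c + c) ^ 2 * (c + c) ^ 2 := by gcongr
        have b4 : (x1 + x2) * (x3 + x4) ^ 3 ≤ (c + c) * (c + c) ^ 3 := by gcongr
        have b5 : (x3 + x4) ^ 4 ≤ (c + c) ^ 4 := by gcongr
        have b6 : 5 * (x1 * x2) * ((x1 + x2) ^ 2 + (x1 + x2) * (x3 + x4) + (x3 + x4) ^ 2) ≤
          5 * (c * c) * ((c + c) ^ 2 + (c + c) * (c + c) + (c + c) ^ 2) := by gcongr
        nlinarith
      have b7 : |5 * (x1 * x2) ^ 2| ≤ 5 * c ^ 4 := by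
        rw [abs_of_pos (by positivity)]
        have : (x1 * x2) ^ 2 ≤ (c * c) ^ 2 := by gcongr
        nlinarith
      linarith
    have a2 : |(x1 * x2 - x3 * x4) * (5 * (x3 + x4) * (x1 * x2 + x3 * x4) - 5 * (x3 + x4) ^ 3)| ≤
        (D * c ^ 5) * (60 * c ^ 3) := by
      rw [abs_mul]
      apply mul_le_mul hY _ (abs_nonneg _) (by positivity)
      refine (abs_sub _ _).trans ?_
      rw [abs_of_pos (by positivity), abs_of_pos (by positivity)]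
      have b1 : 5 * (x3 + x4) * (x1 * x2 + x3 * x4) ≤ 5 * (c + c) * (c * c + c * c) := by gcongr
      have b2 : 5 * (x3 + x4) ^ 3 ≤ 5 * (c + c) ^ 3 := by gcongr
      nlinarith
    have a3 : 300 * D / k ^ 8 = 300 * D * c ^ 8 := by rw [← ec]; ring
    rw [a3]
    have a4 := hcn 4 8 (by norm_num)
    have a5 : D * c ^ 4 ≤ D * c ^ 8 := mul_le_mul_of_nonneg_left a4 hD
    have a6 : (0:ℝ) ≤ D * c ^ 8 := by positivity
    nlinarith

end Pool.Agent.W777.DL
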