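import Mathlib
set_option autoImplicit false

/-! Two integrations by parts for a Gaussian oscillatory kernel. -/

namespace Pool.Agent.W777.DL

open MeasureTheory Set intervalIntegral

/-- the Gaussian -/
noncomputable def Ps (y : ℝ) : ℝ := Real.exp (-(Real.pi * y ^ 2))

/-- its derivative -/
noncomputable def Ps1 (y : ℝ) : ℝ := -(2 * Real.pi * y) * Ps y

/-- its second derivative -/
noncomputable def Ps2 (y : ℝ) : ℝ := (4 * Real.pi ^ 2 * y ^ 2 - 2 * Real.pi) * Ps y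

lemma Ps_pos (y : ℝ) : 0 < Ps y := Real.exp_pos _

lemma Ps_le (y : ℝ) : Ps y ≤ 1 := by
  unfold Ps
  rw [Real.exp_le_one_iff]
  have := Real.pi_pos
  nlinarith [mul_nonneg this.le (sq_nonneg y)]

lemma Ps_deriv (y : ℝ) : HasDerivAt Ps (Ps1 y) y := by
  have h1 : HasDerivAt (fun y : ℝ => -(Real.pi * y ^ 2)) (-(Real.pi * (2 * y))) y :=
    ((hasDerivAt_pow 2 y).const_mul Real.pi).neg.congr_deriv (by push_cast; ring)
  have h2 : HasDerivAt Ps (Real.exp (-(Real.pi * y ^ 2)) * (-(Real.pi * (2 * y)))) y := h1.exp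
  exact h2.congr_deriv (by unfold Ps1 Ps; ring)

lemma Ps1_deriv (y : ℝ) : HasDerivAt Ps1 (Ps2 y) y := by
  have h1 : HasDerivAt (fun y : ℝ => -(2 * Real.pi * y)) (-(2 * Real.pi)) y :=
    ((hasDerivAt_id y).const_mul (2 * Real.pi)).neg.congr_deriv (by ring)
  have h2 : HasDerivAt Ps1 (-(2 * Real.pi) * Ps y + -(2 * Real.pi * y) * Ps1 y) y :=
    h1.mul (Ps_deriv y)
  exact h2.congr_deriv (by unfold Ps2 Ps1; ring)

lemma Ps_cont : Continuous Ps := by
  unfold Ps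
  fun_prop

lemma Ps1_cont : Continuous Ps1 := by
  unfold Ps1
  exact (by fun_prop : Continuous fun y : ℝ => -(2 * Real.pi * y)).mul Ps_cont

lemma Ps2_cont : Continuous Ps2 := by
  unfold Ps2
  exact (by fun_prop : Continuous fun y : ℝ => (4 * Real.pi ^ 2 * y ^ 2 - 2 * Real.pi)).mul Ps_cont

lemma exp_bd (z : ℝ) (hz : 0 ≤ z) : z * Real.exp (-z) ≤ 1 ∧ z ^ 2 * Real.exp (-z) ≤ 2 := by
  rw [Real.exp_neg, ← div_eq_mul_inv, ← div_eq_mul_inv, div_le_iff₀ (Real.exp_pos _),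
    div_le_iff₀ (Real.exp_pos _)]
  have h1 := Real.add_one_le_exp z
  have h2 := Real.quadratic_le_exp_of_nonneg hz
  constructor <;> nlinarith

lemma Ps1_bd (y : ℝ) : |y * Ps1 y| ≤ 2 := by
  have hpi := Real.pi_pos
  have hz : 0 ≤ Real.pi * y ^ 2 := by positivity
  have h := (exp_bd _ hz).1
  have e : y * Ps1 y = -(2 * (Real.pi * y ^ 2 * Real.exp (-(Real.pi * y ^ 2)))) := by
    unfold Ps1 Ps
    ring
  rw [e, abs_neg, abs_of_nonneg (by positivity)]
  linarith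

lemma Ps2_bd (y : ℝ) : |y ^ 2 * Ps2 y| ≤ 10 := by
  have hpi := Real.pi_pos
  have hz : 0 ≤ Real.pi * y ^ 2 := by positivity
  obtain ⟨h1, h2⟩ := exp_bd _ hz
  have e : y ^ 2 * Ps2 y = 4 * ((Real.pi * y ^ 2) ^ 2 * Real.exp (-(Real.pi * y ^ 2))) -
      2 * (Real.pi * y ^ 2 * Real.exp (-(Real.pi * y ^ 2))) := by
    unfold Ps2 Ps
    ring
  rw [e]
  have h3 : 0 ≤ (Real.pi * y ^ 2) ^ 2 * Real.exp (-(Real.pi * y ^ 2)) := by positivity
  have h4 : 0 ≤ Real.pi * y ^ 2 * Real.exp (-(Real.pi * y ^ 2)) := by positivity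
  rw [abs_le]
  constructor <;> linarith

/-- pointwise bounds -/
lemma pt_bounds {C n g g1 g2 g3 : ℝ} (hC : 1 ≤ C) (hn : 0 < n) (hN : n ^ 2 = g ^ 2 + g1 ^ 2)
    (h2 : |g2| ≤ C * (|g| + |g1|)) (h3 : |g3| ≤ C * (|g| + |g1|)) :
    |g1 / (g ^ 2 + g1 ^ 2)| * n ≤ 1 ∧
    |(g2 - g1 / (g ^ 2 + g1 ^ 2) * (2 * g1 * (g + g2))) / (g ^ 2 + g1 ^ 2)| * n ≤ 8 * C ∧
    |(g3 - 2 * ((g2 - g1 / (g ^ 2 + g1 ^ 2) * (2 * g1 * (g + g2))) / (g ^ 2 + g1 ^ 2)) *
        (2 * g1 * (g + g2)) - g1 / (g ^ 2 + g1 ^ 2) *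
        (2 * g2 * (g + g2) + 2 * g1 * (g1 + g3))) / (g ^ 2 + g1 ^ 2)| * n ≤ 116 * C ^ 2 := by
  have b0 : |g| ≤ n := by
    apply abs_le_of_sq_le_sq _ hn.le
    nlinarith [sq_nonneg g1]
  have b1 : |g1| ≤ n := by
    apply abs_le_of_sq_le_sq _ hn.le
    nlinarith [sq_nonneg g]
  have b2 : |g2| ≤ 2 * C * n := by nlinarith
  have b3 : |g3| ≤ 2 * C * n := by nlinarith
  rw [← hN]
  have hN0 : 0 < n ^ 2 := by positivity
  set V := g1 / n ^ 2 with hV
  have v0 : |V| * n ≤ 1 := by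
    rw [hV, abs_div, abs_of_pos hN0, div_mul_eq_mul_div, div_le_one hN0]
    nlinarith
  set N1 := 2 * g1 * (g + g2) with hN1
  have n1 : |N1| ≤ 6 * C * n ^ 2 := by
    rw [hN1, abs_mul, abs_mul, abs_of_pos (by norm_num : (0:ℝ) < 2)]
    have : |g + g2| ≤ 3 * C * n := by
      refine (abs_add_le _ _).trans ?_
      nlinarith
    calc 2 * |g1| * |g + g2| ≤ 2 * n * (3 * C * n) := by gcongr
      _ = 6 * C * n ^ 2 := by ring
  set V1 := (g2 - V * N1) / n ^ 2 with hV1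
  have v1 : |V1| * n ≤ 8 * C := by
    rw [hV1, abs_div, abs_of_pos hN0, div_mul_eq_mul_div, div_le_iff₀ hN0]
    have : |g2 - V * N1| ≤ 8 * C * n := by
      refine (abs_sub _ _).trans ?_
      rw [abs_mul]
      have h5 : |V| * |N1| ≤ |V| * (6 * C * n ^ 2) := by gcongr
      have h6 : |V| * (6 * C * n ^ 2) = (|V| * n) * (6 * C * n) := by ring
      have h7 : (|V| * n) * (6 * C * n) ≤ 1 * (6 * C * n) := by gcongr
      linarith
    calc |g2 - V * N1| * n ≤ 8 * C * n * n := by gcongr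
      _ = 8 * C * n ^ 2 := by ring
  set N2 := 2 * g2 * (g + g2) + 2 * g1 * (g1 + g3) with hN2
  have n2 : |N2| ≤ 18 * C ^ 2 * n ^ 2 := by
    rw [hN2]
    refine (abs_add_le _ _).trans ?_
    rw [abs_mul, abs_mul, abs_mul, abs_mul, abs_of_pos (by norm_num : (0:ℝ) < 2)]
    have t1 : |g + g2| ≤ 3 * C * n := by
      refine (abs_add_le _ _).trans ?_
      nlinarith
    have t2 : |g1 + g3| ≤ 3 * C * n := by
      refine (abs_add_le _ _).trans ?_
      nlinarith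
    have t3 : 2 * |g2| * |g + g2| ≤ 2 * (2 * C * n) * (3 * C * n) := by gcongr
    have t4 : 2 * |g1| * |g1 + g3| ≤ 2 * n * (3 * C * n) := by gcongr
    have t5 : C * n ^ 2 ≤ C ^ 2 * n ^ 2 := by
      have : C ≤ C ^ 2 := by nlinarith
      gcongr
    nlinarith
  refine ⟨v0, v1, ?_⟩
  rw [abs_div, abs_of_pos hN0, div_mul_eq_mul_div, div_le_iff₀ hN0]
  have h8 : |g3 - 2 * V1 * N1 - V * N2| ≤ 116 * C ^ 2 * n := by
    refine (abs_sub _ _).trans ?_
    have s1 : |g3 - 2 * V1 * N1| ≤ 98 * C ^ 2 * n := by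
      refine (abs_sub _ _).trans ?_
      rw [abs_mul, abs_mul, abs_of_pos (by norm_num : (0:ℝ) < 2)]
      have h5 : 2 * |V1| * |N1| ≤ 2 * |V1| * (6 * C * n ^ 2) := by gcongr
      have h6 : 2 * |V1| * (6 * C * n ^ 2) = (|V1| * n) * (12 * C * n) := by ring
      have h7 : (|V1| * n) * (12 * C * n) ≤ (8 * C) * (12 * C * n) := by gcongr
      have h9 : C * n ≤ C ^ 2 * n := by
        have : C ≤ C ^ 2 := by nlinarith
        gcongr
      nlinarith
    have s2 : |V * N2| ≤ 18 * C ^ 2 * n := by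
      rw [abs_mul]
      have h5 : |V| * |N2| ≤ |V| * (18 * C ^ 2 * n ^ 2) := by gcongr
      have h6 : |V| * (18 * C ^ 2 * n ^ 2) = (|V| * n) * (18 * C ^ 2 * n) := by ring
      have h7 : (|V| * n) * (18 * C ^ 2 * n) ≤ 1 * (18 * C ^ 2 * n) := by gcongr
      linarith
    linarith
  calc |g3 - 2 * V1 * N1 - V * N2| * n ≤ 116 * C ^ 2 * n * n := by gcongr
    _ = 116 * C ^ 2 * n ^ 2 := by ring

/-- final pointwise bound -/
lemma pt_final {C E0 n R m g e e1 e2 V V1 V2 N p p1 p2 : ℝ} (hC : 1 ≤ C) (hE : 0 ≤ E0)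
    (hn : 0 < n) (hR : 0 < R) (hm : 0 < m) (hmn : m ^ 2 ≤ 2 * n ^ 2) (hg : |g| ≤ n) (hN : N = n ^ 2)
    (he : |e| ≤ E0) (he1 : |e1| ≤ E0) (he2 : |e2| ≤ E0)
    (v0 : |V| * n ≤ 1) (v1 : |V1| * n ≤ 8 * C) (v2 : |V2| * n ≤ 116 * C ^ 2)
    (hp : |p| ≤ 1) (hp1 : |g * p1| ≤ 2 / R) (hp2 : |g ^ 2 * p2| ≤ 10 / R ^ 2) :
    |e * p2 * (g ^ 2 / N) - (e1 * V + e * V1) * p1 / R * (g ^ 2 / N) +
      ((e2 * V + 2 * (e1 * V1) + e * V2) * V + (e1 * V + e * V1) * V1) * p / R ^ 2| ≤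
      466 * C ^ 2 * E0 / (R * m) ^ 2 := by
  have hU : |e1 * V + e * V1| * n ≤ 9 * C * E0 := by
    calc |e1 * V + e * V1| * n ≤ (|e1| * |V| + |e| * |V1|) * n := by
          gcongr
          refine (abs_add_le _ _).trans ?_
          rw [abs_mul, abs_mul]
      _ = |e1| * (|V| * n) + |e| * (|V1| * n) := by ring
      _ ≤ E0 * 1 + E0 * (8 * C) := by gcongr
      _ ≤ 9 * C * E0 := by nlinarith
  have hW : |e2 * V + 2 * (e1 * V1) + e * V2| * n ≤ 133 * C ^ 2 * E0 := by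
    calc |e2 * V + 2 * (e1 * V1) + e * V2| * n ≤
          (|e2| * |V| + 2 * (|e1| * |V1|) + |e| * |V2|) * n := by
          gcongr
          refine (abs_add_le _ _).trans ?_
          rw [abs_mul e]
          gcongr
          refine (abs_add_le _ _).trans ?_
          rw [abs_mul, abs_mul 2, abs_mul e1, abs_of_pos (by norm_num : (0:ℝ) < 2)]
      _ = |e2| * (|V| * n) + 2 * |e1| * (|V1| * n) + |e| * (|V2| * n) := by ring
      _ ≤ E0 * 1 + 2 * E0 * (8 * C) + E0 * (116 * C ^ 2) := by gcongr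
      _ ≤ 133 * C ^ 2 * E0 := by
          have : 1 ≤ C ^ 2 := by nlinarith
          have : C ≤ C ^ 2 := by nlinarith
          nlinarith
  have t1 : |e * p2 * (g ^ 2 / N)| * (R ^ 2 * n ^ 2) ≤ 10 * E0 := by
    have h1 : |e * p2 * (g ^ 2 / N)| * (R ^ 2 * n ^ 2) = |e| * (|g ^ 2 * p2| * R ^ 2) := by
      rw [hN, abs_mul, abs_mul, abs_div, abs_mul (g ^ 2) p2, abs_of_pos (by positivity : 0 < n ^ 2)]
      field_simp
    rw [h1]
    rw [le_div_iff₀ (by positivity)] at hp2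
    calc |e| * (|g ^ 2 * p2| * R ^ 2) ≤ E0 * 10 := by gcongr
      _ = 10 * E0 := by ring
  have t2 : |(e1 * V + e * V1) * p1 / R * (g ^ 2 / N)| * (R ^ 2 * n ^ 2) ≤ 18 * C * E0 := by
    have h1 : |(e1 * V + e * V1) * p1 / R * (g ^ 2 / N)| * (R ^ 2 * n ^ 2) =
        |e1 * V + e * V1| * (|g * p1| * R) * |g| := by
      rw [hN, abs_mul, abs_div, abs_mul, abs_div, abs_mul g p1, abs_of_pos (by positivity : 0 < n ^ 2),
        abs_of_pos hR, abs_pow, sq |g|]
      field_simp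
    rw [h1]
    rw [le_div_iff₀ hR] at hp1
    calc |e1 * V + e * V1| * (|g * p1| * R) * |g| ≤ |e1 * V + e * V1| * 2 * n := by gcongr
      _ = (|e1 * V + e * V1| * n) * 2 := by ring
      _ ≤ 9 * C * E0 * 2 := by gcongr
      _ = 18 * C * E0 := by ring
  have t3 : |((e2 * V + 2 * (e1 * V1) + e * V2) * V + (e1 * V + e * V1) * V1) * p / R ^ 2| *
      (R ^ 2 * n ^ 2) ≤ 205 * C ^ 2 * E0 := by
    have h1 : |((e2 * V + 2 * (e1 * V1) + e * V2) * V + (e1 * V + e * V1) * V1) * p / R ^ 2| *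
      (R ^ 2 * n ^ 2) = |(e2 * V + 2 * (e1 * V1) + e * V2) * V + (e1 * V + e * V1) * V1| * |p| *
        n ^ 2 := by
      rw [abs_div, abs_mul, abs_of_pos (by positivity : 0 < R ^ 2)]
      field_simp
    rw [h1]
    calc |(e2 * V + 2 * (e1 * V1) + e * V2) * V + (e1 * V + e * V1) * V1| * |p| * n ^ 2 ≤
          (|e2 * V + 2 * (e1 * V1) + e * V2| * |V| + |e1 * V + e * V1| * |V1|) * 1 * n ^ 2 := by
          gcongr
          refine (abs_add_le _ _).trans ?_
          rw [abs_mul, abs_mul]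
      _ = (|e2 * V + 2 * (e1 * V1) + e * V2| * n) * (|V| * n) +
          (|e1 * V + e * V1| * n) * (|V1| * n) := by ring
      _ ≤ (133 * C ^ 2 * E0) * 1 + (9 * C * E0) * (8 * C) := by gcongr
      _ = 205 * C ^ 2 * E0 := by ring
  have hC2 : C ≤ C ^ 2 := by nlinarith
  have hC1 : 1 ≤ C ^ 2 := by nlinarith
  have t4 : |e * p2 * (g ^ 2 / N) - (e1 * V + e * V1) * p1 / R * (g ^ 2 / N) +
      ((e2 * V + 2 * (e1 * V1) + e * V2) * V + (e1 * V + e * V1) * V1) * p / R ^ 2| *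
      (R ^ 2 * n ^ 2) ≤ 233 * C ^ 2 * E0 := by
    calc _ ≤ (|e * p2 * (g ^ 2 / N)| + |(e1 * V + e * V1) * p1 / R * (g ^ 2 / N)| +
        |((e2 * V + 2 * (e1 * V1) + e * V2) * V + (e1 * V + e * V1) * V1) * p / R ^ 2|) *
        (R ^ 2 * n ^ 2) := by
          gcongr
          refine (abs_add_le _ _).trans ?_
          gcongr
          exact abs_sub _ _
      _ = _ := by rw [add_mul, add_mul]
      _ ≤ 10 * E0 + 18 * C * E0 + 205 * C ^ 2 * E0 := by gcongr
      _ ≤ 233 * C ^ 2 * E0 := by nlinarith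
  rw [le_div_iff₀ (by positivity)]
  set X := |e * p2 * (g ^ 2 / N) - (e1 * V + e * V1) * p1 / R * (g ^ 2 / N) +
      ((e2 * V + 2 * (e1 * V1) + e * V2) * V + (e1 * V + e * V1) * V1) * p / R ^ 2|
  have hX : 0 ≤ X := abs_nonneg _
  calc X * (R * m) ^ 2 = X * R ^ 2 * m ^ 2 := by ring
    _ ≤ X * R ^ 2 * (2 * n ^ 2) := by gcongr
    _ = 2 * (X * (R ^ 2 * n ^ 2)) := by ring
    _ ≤ 2 * (233 * C ^ 2 * E0) := by gcongr
    _ = 466 * C ^ 2 * E0 := by ring

theorem ibp {a b C E0 R m : ℝ} (hab : a ≤ b) (hC : 1 ≤ C) (hE : 0 ≤ E0) (hR : 0 < R) (hm : 0 < m)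
    {G G1 G2 G3 e e1 e2 : ℝ → ℝ}
    (hG : ∀ x ∈ Icc a b, HasDerivAt G (G1 x) x) (hG1 : ∀ x ∈ Icc a b, HasDerivAt G1 (G2 x) x)
    (hG2 : ∀ x ∈ Icc a b, HasDerivAt G2 (G3 x) x) (hG3 : ContinuousOn G3 (Icc a b))
    (he : ∀ x ∈ Icc a b, HasDerivAt e (e1 x) x) (he1 : ∀ x ∈ Icc a b, HasDerivAt e1 (e2 x) x)
    (he2 : ContinuousOn e2 (Icc a b)) (ea : e a = 0) (eb : e b = 0) (e1a : e1 a = 0)
    (e1b : e1 b = 0)
    (bG2 : ∀ x ∈ Icc a b, |G2 x| ≤ C * (|G x| + |G1 x|))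
    (bG3 : ∀ x ∈ Icc a b, |G3 x| ≤ C * (|G x| + |G1 x|))
    (be : ∀ x ∈ Icc a b, |e x| ≤ E0) (be1 : ∀ x ∈ Icc a b, |e1 x| ≤ E0)
    (be2 : ∀ x ∈ Icc a b, |e2 x| ≤ E0)
    (hlow : ∀ x ∈ Icc a b, m ≤ |G x| + |G1 x|) :
    |∫ x in a..b, e x * Ps2 (R * G x)| ≤ 466 * C ^ 2 * E0 / (R * m) ^ 2 * (b - a) := by
  have cG : ContinuousOn G (Icc a b) := fun x hx => (hG x hx).continuousAt.continuousWithinAt
  have cG1 : ContinuousOn G1 (Icc a b) := fun x hx => (hG1 x hx).continuousAt.continuousWithinAt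
  have cG2 : ContinuousOn G2 (Icc a b) := fun x hx => (hG2 x hx).continuousAt.continuousWithinAt
  have ce : ContinuousOn e (Icc a b) := fun x hx => (he x hx).continuousAt.continuousWithinAt
  have ce1 : ContinuousOn e1 (Icc a b) := fun x hx => (he1 x hx).continuousAt.continuousWithinAt
  set N : ℝ → ℝ := fun x => G x ^ 2 + G1 x ^ 2 with hN
  set N1 : ℝ → ℝ := fun x => 2 * G1 x * (G x + G2 x) with hN1
  set N2 : ℝ → ℝ := fun x => 2 * G2 x * (G x + G2 x) + 2 * G1 x * (G1 x + G3 x) with hN2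
  set V : ℝ → ℝ := fun x => G1 x / N x with hV
  set V1 : ℝ → ℝ := fun x => (G2 x - V x * N1 x) / N x with hV1
  set V2 : ℝ → ℝ := fun x => (G3 x - 2 * V1 x * N1 x - V x * N2 x) / N x with hV2
  have hNpos : ∀ x ∈ Icc a b, 0 < N x := by
    intro x hx
    have h1 := hlow x hx
    by_contra hc
    push Not at hc
    have h2 : G x ^ 2 + G1 x ^ 2 ≤ 0 := hc
    have h3 : G x = 0 := by nlinarith [sq_nonneg (G x), sq_nonneg (G1 x)]
    have h4 : G1 x = 0 := by nlinarith [sq_nonneg (G x), sq_nonneg (G1 x)]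
    rw [h3, h4] at h1
    simp at h1
    linarith
  have dN : ∀ x ∈ Icc a b, HasDerivAt N (N1 x) x := by
    intro x hx
    exact (((hG x hx).pow 2).add ((hG1 x hx).pow 2)).congr_deriv (by
      simp only [hN1]
      push_cast
      ring)
  have dN1 : ∀ x ∈ Icc a b, HasDerivAt N1 (N2 x) x := by
    intro x hx
    exact (((hG1 x hx).const_mul 2).mul ((hG x hx).add (hG2 x hx))).congr_deriv (by
      simp only [hN2, Pi.add_apply])
  have dV : ∀ x ∈ Icc a b, HasDerivAt V (V1 x) x := by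
    intro x hx
    have h0 := (hNpos x hx).ne'
    exact ((hG1 x hx).div (dN x hx) h0).congr_deriv (by
      simp only [hV1, hV]
      field_simp)
  have dV1 : ∀ x ∈ Icc a b, HasDerivAt V1 (V2 x) x := by
    intro x hx
    have h0 := (hNpos x hx).ne'
    have e1 : G2 x - V x * N1 x = V1 x * N x := by
      simp only [hV1]
      field_simp
    exact (((hG2 x hx).sub ((dV x hx).mul (dN1 x hx))).div (dN x hx) h0).congr_deriv (by
      simp only [Pi.sub_apply, Pi.mul_apply]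
      rw [e1]
      simp only [hV2]
      field_simp
      ring)
  have cN : ContinuousOn N (Icc a b) := (cG.pow 2).add (cG1.pow 2)
  have cV : ContinuousOn V (Icc a b) := fun x hx => (dV x hx).continuousAt.continuousWithinAt
  have cV1 : ContinuousOn V1 (Icc a b) := fun x hx => (dV1 x hx).continuousAt.continuousWithinAt
  have cN1 : ContinuousOn N1 (Icc a b) := fun x hx => (dN1 x hx).continuousAt.continuousWithinAt
  have cN2 : ContinuousOn N2 (Icc a b) :=
    ((continuousOn_const.mul cG2).mul (cG.add cG2)).add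
      ((continuousOn_const.mul cG1).mul (cG1.add hG3))
  have cV2 : ContinuousOn V2 (Icc a b) :=
    ((hG3.sub ((continuousOn_const.mul cV1).mul cN1)).sub (cV.mul cN2)).div cN
      fun x hx => (hNpos x hx).ne'
  -- compositions
  have dP : ∀ x ∈ Icc a b, HasDerivAt (fun x => Ps (R * G x)) (Ps1 (R * G x) * (R * G1 x)) x :=
    fun x hx => HasDerivAt.comp (h₂ := Ps) (h := fun x => R * G x) x (Ps_deriv (R * G x))
      ((hG x hx).const_mul R)
  have dP1 : ∀ x ∈ Icc a b, HasDerivAt (fun x => Ps1 (R * G x)) (Ps2 (R * G x) * (R * G1 x)) x :=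
    fun x hx => HasDerivAt.comp (h₂ := Ps1) (h := fun x => R * G x) x (Ps1_deriv (R * G x))
      ((hG x hx).const_mul R)
  have cRG : ContinuousOn (fun x => R * G x) (Icc a b) := continuousOn_const.mul cG
  have cP : ContinuousOn (fun x => Ps (R * G x)) (Icc a b) := Ps_cont.comp_continuousOn cRG
  have cP1 : ContinuousOn (fun x => Ps1 (R * G x)) (Icc a b) := Ps1_cont.comp_continuousOn cRG
  have cP2 : ContinuousOn (fun x => Ps2 (R * G x)) (Icc a b) := Ps2_cont.comp_continuousOn cRG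
  set U : ℝ → ℝ := fun x => e1 x * V x + e x * V1 x with hU
  set U1 : ℝ → ℝ := fun x => e2 x * V x + 2 * (e1 x * V1 x) + e x * V2 x with hU1
  have dU : ∀ x ∈ Icc a b, HasDerivAt U (U1 x) x := by
    intro x hx
    exact (((he1 x hx).mul (dV x hx)).add ((he x hx).mul (dV1 x hx))).congr_deriv (by
      simp only [hU1]
      ring)
  have cU : ContinuousOn U (Icc a b) := (ce1.mul cV).add (ce.mul cV1)
  have cU1 : ContinuousOn U1 (Icc a b) :=
    ((he2.mul cV).add (continuousOn_const.mul (ce1.mul cV1))).add (ce.mul cV2)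
  -- the two exact differentials
  have dA : ∀ x ∈ Icc a b, HasDerivAt (fun x => e x * V x * Ps1 (R * G x) / R)
      (U x * Ps1 (R * G x) / R + e x * V x * G1 x * Ps2 (R * G x)) x := by
    intro x hx
    exact ((((he x hx).mul (dV x hx)).mul (dP1 x hx)).div_const R).congr_deriv (by
      simp only [hU, Pi.mul_apply]
      field_simp)
  have dB : ∀ x ∈ Icc a b, HasDerivAt (fun x => U x * V x * Ps (R * G x) / R ^ 2)
      ((U1 x * V x + U x * V1 x) * Ps (R * G x) / R ^ 2 +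
        U x * V x * G1 x * Ps1 (R * G x) / R) x := by
    intro x hx
    exact ((((dU x hx).mul (dV x hx)).mul (dP x hx)).div_const (R ^ 2)).congr_deriv (by
      simp only [Pi.mul_apply]
      field_simp)
  have hIcc : Set.uIcc a b = Icc a b := uIcc_of_le hab
  have cA' : ContinuousOn (fun x => U x * Ps1 (R * G x) / R + e x * V x * G1 x * Ps2 (R * G x))
      (Icc a b) :=
    ((cU.mul cP1).div_const R).add (((ce.mul cV).mul cG1).mul cP2)
  have cB' : ContinuousOn (fun x => (U1 x * V x + U x * V1 x) * Ps (R * G x) / R ^ 2 +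
        U x * V x * G1 x * Ps1 (R * G x) / R) (Icc a b) :=
    ((((cU1.mul cV).add (cU.mul cV1)).mul cP).div_const (R ^ 2)).add
      ((((cU.mul cV).mul cG1).mul cP1).div_const R)
  have iA : ∫ x in a..b, (U x * Ps1 (R * G x) / R + e x * V x * G1 x * Ps2 (R * G x)) = 0 := by
    rw [integral_eq_sub_of_hasDerivAt (fun x hx => dA x (hIcc ▸ hx))
      ((hIcc.symm ▸ cA').intervalIntegrable)]
    simp [ea, eb]
  have iB : ∫ x in a..b, ((U1 x * V x + U x * V1 x) * Ps (R * G x) / R ^ 2 +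
        U x * V x * G1 x * Ps1 (R * G x) / R) = 0 := by
    rw [integral_eq_sub_of_hasDerivAt (fun x hx => dB x (hIcc ▸ hx))
      ((hIcc.symm ▸ cB').intervalIntegrable)]
    simp [hU, ea, eb, e1a, e1b]
  have iE : IntervalIntegrable (fun x => e x * Ps2 (R * G x)) volume a b :=
    (hIcc.symm ▸ (ce.mul cP2)).intervalIntegrable
  have iA2 : IntervalIntegrable (fun x => U x * Ps1 (R * G x) / R +
      e x * V x * G1 x * Ps2 (R * G x)) volume a b := (hIcc.symm ▸ cA').intervalIntegrable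
  have iB2 : IntervalIntegrable (fun x => (U1 x * V x + U x * V1 x) * Ps (R * G x) / R ^ 2 +
        U x * V x * G1 x * Ps1 (R * G x) / R) volume a b := (hIcc.symm ▸ cB').intervalIntegrable
  have key : ∫ x in a..b, e x * Ps2 (R * G x) =
      ∫ x in a..b, (e x * Ps2 (R * G x) * (G x ^ 2 / N x) -
        U x * Ps1 (R * G x) / R * (G x ^ 2 / N x) +
        (U1 x * V x + U x * V1 x) * Ps (R * G x) / R ^ 2) := by
    have h1 : ∫ x in a..b, e x * Ps2 (R * G x) =
        ∫ x in a..b, (e x * Ps2 (R * G x) -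
          (U x * Ps1 (R * G x) / R + e x * V x * G1 x * Ps2 (R * G x)) +
          ((U1 x * V x + U x * V1 x) * Ps (R * G x) / R ^ 2 +
            U x * V x * G1 x * Ps1 (R * G x) / R)) := by
      rw [integral_add (iE.sub iA2) iB2, integral_sub iE iA2, iA, iB]
      ring
    rw [h1]
    apply integral_congr
    intro x hx
    rw [hIcc] at hx
    have h0 := (hNpos x hx).ne'
    have h2 : G x ^ 2 / N x = 1 - V x * G1 x := by
      have h3 : G x ^ 2 = N x - G1 x * G1 x := by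
        simp only [hN]
        ring
      simp only [hV]
      rw [h3]
      field_simp
    simp only [h2]
    ring
  rw [key]
  have hbd : ∀ x ∈ Set.uIoc a b, ‖e x * Ps2 (R * G x) * (G x ^ 2 / N x) -
        U x * Ps1 (R * G x) / R * (G x ^ 2 / N x) +
        (U1 x * V x + U x * V1 x) * Ps (R * G x) / R ^ 2‖ ≤
        466 * C ^ 2 * E0 / (R * m) ^ 2 := by
    intro x hx
    rw [uIoc_of_le hab] at hx
    have hx' : x ∈ Icc a b := ⟨hx.1.le, hx.2⟩
    rw [Real.norm_eq_abs]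
    have hNx := hNpos x hx'
    set n := Real.sqrt (N x) with hn
    have hn0 : 0 < n := Real.sqrt_pos.2 hNx
    have hn2 : n ^ 2 = G x ^ 2 + G1 x ^ 2 := Real.sq_sqrt hNx.le
    obtain ⟨v0, v1, v2⟩ := pt_bounds hC hn0 hn2 (bG2 x hx') (bG3 x hx')
    have hmn : m ^ 2 ≤ 2 * n ^ 2 := by
      rw [hn2]
      have h1 := hlow x hx'
      have h2 : m ^ 2 ≤ (|G x| + |G1 x|) ^ 2 := by gcongr
      have h3 : (|G x| + |G1 x|) ^ 2 ≤ 2 * (|G x| ^ 2 + |G1 x| ^ 2) := by
        nlinarith [sq_nonneg (|G x| - |G1 x|)]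
      rw [sq_abs, sq_abs] at h3
      linarith
    have hg : |G x| ≤ n := by
      apply abs_le_of_sq_le_sq _ hn0.le
      nlinarith [sq_nonneg (G1 x)]
    apply pt_final hC hE hn0 hR hm hmn hg hn2.symm (be x hx') (be1 x hx') (be2 x hx') v0 v1 v2
    · rw [abs_of_pos (Ps_pos _)]
      exact Ps_le _
    · have h1 := Ps1_bd (R * G x)
      rw [le_div_iff₀ hR]
      have h2 : |G x * Ps1 (R * G x)| * R = |R * G x * Ps1 (R * G x)| := by
        rw [abs_mul, abs_mul, abs_mul, abs_of_pos hR]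
        ring
      rw [h2]
      exact h1
    · have h1 := Ps2_bd (R * G x)
      rw [le_div_iff₀ (by positivity)]
      have h2 : |G x ^ 2 * Ps2 (R * G x)| * R ^ 2 = |(R * G x) ^ 2 * Ps2 (R * G x)| := by
        rw [abs_mul, abs_mul, mul_pow, abs_mul, abs_of_pos (by positivity : 0 < R ^ 2)]
        ring
      rw [h2]
      exact h1
  have := norm_integral_le_of_norm_le_const hbd
  rw [Real.norm_eq_abs, abs_of_nonneg (by linarith : 0 ≤ b - a)] at this
  exact this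

end Pool.Agent.W777.DL
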