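import Mathlib
import Pool.Agent.W777.DL.Alg
import Pool.Agent.W777.DL.Ibp
set_option autoImplicit false

/-! The four-point phase function of the dilated sphere. -/

namespace Pool.Agent.W777.DL

open MeasureTheory Set

/-- height of the sphere -/
noncomputable def sh (r L : ℝ) : ℝ := Real.sqrt (1 - L * r)

/-- twice differentiable with bounds -/
structure C2b (S : Set ℝ) (B : ℝ) (f f1 f2 : ℝ → ℝ) : Prop where
  d1 : ∀ x ∈ S, HasDerivAt f (f1 x) x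
  d2 : ∀ x ∈ S, HasDerivAt f1 (f2 x) x
  c : ContinuousOn f2 S
  b0 : ∀ x ∈ S, |f x| ≤ B
  b1 : ∀ x ∈ S, |f1 x| ≤ B
  b2 : ∀ x ∈ S, |f2 x| ≤ B

lemma C2b.mul {S : Set ℝ} {B B' : ℝ} {f f1 f2 g g1 g2 : ℝ → ℝ} (hB : 0 ≤ B) (hB' : 0 ≤ B')
    (hf : C2b S B f f1 f2) (hg : C2b S B' g g1 g2) :
    C2b S (4 * B * B') (fun x => f x * g x) (fun x => f1 x * g x + f x * g1 x)
      (fun x => f2 x * g x + 2 * (f1 x * g1 x) + f x * g2 x) := by
  have cf : ContinuousOn f S := fun x hx => (hf.d1 x hx).continuousAt.continuousWithinAt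
  have cf1 : ContinuousOn f1 S := fun x hx => (hf.d2 x hx).continuousAt.continuousWithinAt
  have cg : ContinuousOn g S := fun x hx => (hg.d1 x hx).continuousAt.continuousWithinAt
  have cg1 : ContinuousOn g1 S := fun x hx => (hg.d2 x hx).continuousAt.continuousWithinAt
  refine ⟨fun x hx => (hf.d1 x hx).mul (hg.d1 x hx), fun x hx => ?_, ?_, fun x hx => ?_,
    fun x hx => ?_, fun x hx => ?_⟩
  · exact (((hf.d2 x hx).mul (hg.d1 x hx)).add ((hf.d1 x hx).mul (hg.d2 x hx))).congr_deriv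
      (by ring)
  · exact ((hf.c.mul cg).add (continuousOn_const.mul (cf1.mul cg1))).add (cf.mul hg.c)
  · have := hf.b0 x hx
    have := hg.b0 x hx
    rw [abs_mul]
    calc |f x| * |g x| ≤ B * B' := by gcongr
      _ ≤ 4 * B * B' := by nlinarith [mul_nonneg hB hB']
  · have h0 := hf.b0 x hx
    have h1 := hg.b0 x hx
    have h2 := hf.b1 x hx
    have h3 := hg.b1 x hx
    refine (abs_add_le _ _).trans ?_
    rw [abs_mul, abs_mul]
    calc |f1 x| * |g x| + |f x| * |g1 x| ≤ B * B' + B * B' := by gcongr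
      _ ≤ 4 * B * B' := by nlinarith [mul_nonneg hB hB']
  · have h0 := hf.b0 x hx
    have h1 := hg.b0 x hx
    have h2 := hf.b1 x hx
    have h3 := hg.b1 x hx
    have h4 := hf.b2 x hx
    have h5 := hg.b2 x hx
    refine (abs_add_le _ _).trans ?_
    have h6 : |f2 x * g x + 2 * (f1 x * g1 x)| ≤ |f2 x| * |g x| + 2 * (|f1 x| * |g1 x|) := by
      refine (abs_add_le _ _).trans ?_
      rw [abs_mul, abs_mul 2, abs_mul (f1 x), abs_of_pos (by norm_num : (0:ℝ) < 2)]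
    rw [abs_mul (f x)]
    calc |f2 x * g x + 2 * (f1 x * g1 x)| + |f x| * |g2 x|
        ≤ (|f2 x| * |g x| + 2 * (|f1 x| * |g1 x|)) + |f x| * |g2 x| := by gcongr
      _ ≤ (B * B' + 2 * (B * B')) + B * B' := by gcongr
      _ = 4 * B * B' := by ring

lemma C2b.mono {S : Set ℝ} {B B' : ℝ} {f f1 f2 : ℝ → ℝ} (h : C2b S B f f1 f2) (hB : B ≤ B') :
    C2b S B' f f1 f2 :=
  ⟨h.d1, h.d2, h.c, fun x hx => (h.b0 x hx).trans hB, fun x hx => (h.b1 x hx).trans hB,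
    fun x hx => (h.b2 x hx).trans hB⟩

variable {a b : ℝ}

section sh

lemma sh_arg {r L b : ℝ} (hb : b < 1) (hL0 : 0 ≤ L) (hLb : L ≤ b) (hr0 : 0 ≤ r) (hr1 : r ≤ 1) :
    1 - b ≤ 1 - L * r ∧ 1 - L * r ≤ 1 := by
  constructor
  · nlinarith
  · nlinarith [mul_nonneg hL0 hr0]

lemma sh_bds {r L b : ℝ} (hb : b < 1) (hL0 : 0 ≤ L) (hLb : L ≤ b) (hr0 : 0 ≤ r) (hr1 : r ≤ 1) :
    Real.sqrt (1 - b) ≤ sh r L ∧ sh r L ≤ 1 := by
  obtain ⟨h1, h2⟩ := sh_arg hb hL0 hLb hr0 hr1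
  exact ⟨Real.sqrt_le_sqrt h1, Real.sqrt_le_one.2 h2⟩

lemma sh_sq {r L b : ℝ} (hb : b < 1) (hL0 : 0 ≤ L) (hLb : L ≤ b) (hr0 : 0 ≤ r) (hr1 : r ≤ 1) :
    sh r L ^ 2 = 1 - L * r := by
  obtain ⟨h1, -⟩ := sh_arg hb hL0 hLb hr0 hr1
  exact Real.sq_sqrt (by linarith)

lemma sh_deriv {r L : ℝ} (h : 0 < 1 - L * r) :
    HasDerivAt (fun L => sh r L) (-r / (2 * sh r L)) L := by
  have h1 : HasDerivAt (fun L : ℝ => 1 - L * r) (-r) L := by
    have := ((hasDerivAt_id L).mul_const r).const_sub 1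
    exact this.congr_deriv (by ring)
  exact h1.sqrt h.ne'

lemma sh_pow_deriv (m : ℕ) {r L : ℝ} (h : 0 < 1 - L * r) :
    HasDerivAt (fun L => 1 / sh r L ^ m) (m * r / 2 * (1 / sh r L ^ (m + 2))) L := by
  have hs : 0 < sh r L := Real.sqrt_pos.2 h
  have h1 : HasDerivAt (fun L => sh r L ^ m) (m * sh r L ^ (m - 1) * (-r / (2 * sh r L))) L :=
    (sh_deriv h).pow m
  have h2 := h1.inv (by positivity)
  have h3 : HasDerivAt (fun L => 1 / sh r L ^ m)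
      (-(m * sh r L ^ (m - 1) * (-r / (2 * sh r L))) / (sh r L ^ m) ^ 2) L := by
    refine h2.congr_of_eventuallyEq (Filter.Eventually.of_forall fun x => ?_)
    simp [one_div]
  refine h3.congr_deriv ?_
  rcases m with _ | m
  · simp
  · simp only [Nat.add_sub_cancel]
    field_simp
    ring

lemma sh_C2b (m : ℕ) {r : ℝ} (ha : 0 ≤ a) (hb : b < 1) (hr0 : 0 ≤ r) (hr1 : r ≤ 1) :
    C2b (Icc a b) ((m + 2) ^ 2 / Real.sqrt (1 - b) ^ (m + 4)) (fun L => 1 / sh r L ^ m)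
      (fun L => m * r / 2 * (1 / sh r L ^ (m + 2)))
      (fun L => m * r / 2 * ((m + 2 : ℕ) * r / 2 * (1 / sh r L ^ (m + 4)))) := by
  set k := Real.sqrt (1 - b) with hk
  have hk0 : 0 < k := Real.sqrt_pos.2 (by linarith)
  have hk1 : ∀ L ∈ Icc a b, k ≤ sh r L ∧ sh r L ≤ 1 := fun L hL =>
    sh_bds hb (ha.trans hL.1) hL.2 hr0 hr1
  have hpos : ∀ L ∈ Icc a b, 0 < 1 - L * r := fun L hL => by
    have := (sh_arg hb (ha.trans hL.1) hL.2 hr0 hr1).1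
    linarith
  have hpw : ∀ L ∈ Icc a b, ∀ j : ℕ, j ≤ m + 4 → |1 / sh r L ^ j| ≤ 1 / k ^ (m + 4) := by
    intro L hL j hj
    obtain ⟨h1, h2⟩ := hk1 L hL
    have h3 : 0 < sh r L := lt_of_lt_of_le hk0 h1
    rw [abs_of_pos (by positivity)]
    apply one_div_le_one_div_of_le (by positivity)
    calc k ^ (m + 4) ≤ sh r L ^ (m + 4) := by gcongr
      _ ≤ sh r L ^ j := pow_le_pow_of_le_one h3.le h2 hj
  have hm0 : (0 : ℝ) ≤ m := Nat.cast_nonneg m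
  have hK : (0 : ℝ) ≤ 1 / k ^ (m + 4) := by positivity
  have hB : ((m : ℝ) + 2) ^ 2 / k ^ (m + 4) = (m + 2) ^ 2 * (1 / k ^ (m + 4)) := by ring
  have hsc : ContinuousOn (fun L => sh r L) (Icc a b) := fun L hL =>
    (sh_deriv (hpos L hL)).continuousAt.continuousWithinAt
  rw [hB]
  refine ⟨fun L hL => sh_pow_deriv m (hpos L hL), fun L hL => ?_, ?_, fun L hL => ?_,
    fun L hL => ?_, fun L hL => ?_⟩
  · exact (sh_pow_deriv (m + 2) (hpos L hL)).const_mul _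
  · refine continuousOn_const.mul (continuousOn_const.mul (continuousOn_const.div (hsc.pow _) ?_))
    intro L hL
    have := lt_of_lt_of_le hk0 (hk1 L hL).1
    positivity
  · refine (hpw L hL m (by omega)).trans ?_
    have h1 : (1 : ℝ) ≤ ((m : ℝ) + 2) ^ 2 := by nlinarith
    exact le_mul_of_one_le_left hK h1
  · rw [abs_mul, abs_of_nonneg (by positivity)]
    have h1 := hpw L hL (m + 2) (by omega)
    have h2 : (m : ℝ) * r / 2 ≤ (m + 2) ^ 2 := by nlinarith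
    calc (m : ℝ) * r / 2 * |1 / sh r L ^ (m + 2)| ≤ (m + 2) ^ 2 * (1 / k ^ (m + 4)) := by
          gcongr
      _ = _ := rfl
  · rw [← mul_assoc, abs_mul, abs_of_nonneg (by positivity)]
    have h1 := hpw L hL (m + 4) le_rfl
    have h2 : (m : ℝ) * r / 2 * ((m + 2 : ℕ) * r / 2) ≤ (m + 2) ^ 2 := by
      push_cast
      have h3 : (m : ℝ) * r / 2 ≤ m + 2 := by nlinarith
      have h4 : ((m : ℝ) + 2) * r / 2 ≤ m + 2 := by nlinarith
      calc (m : ℝ) * r / 2 * ((m + 2) * r / 2) ≤ (m + 2) * (m + 2) := by gcongr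
        _ = (m + 2) ^ 2 := by ring
    calc (m : ℝ) * r / 2 * ((m + 2 : ℕ) * r / 2) * |1 / sh r L ^ (m + 4)| ≤
        (m + 2) ^ 2 * (1 / k ^ (m + 4)) := by
          gcongr
      _ = _ := rfl

end sh

/-- the cut-off -/
noncomputable def chi (a b L : ℝ) : ℝ := ((L - a) * (b - L)) ^ 2

lemma chi_C2b (ha : 0 ≤ a) (hb : b < 1) :
    C2b (Icc a b) 6 (chi a b) (fun L => 2 * ((L - a) * (b - L)) * (a + b - 2 * L))
      (fun L => 2 * (a + b - 2 * L) ^ 2 - 4 * ((L - a) * (b - L))) := by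
  have hd : ∀ L : ℝ, HasDerivAt (fun L => (L - a) * (b - L)) (a + b - 2 * L) L := by
    intro L
    have h1 := ((hasDerivAt_id L).sub_const a).mul ((hasDerivAt_id L).const_sub b)
    exact h1.congr_deriv (by simp; ring)
  have hd2 : ∀ L : ℝ, HasDerivAt (fun L => a + b - 2 * L) (-2) L := by
    intro L
    exact (((hasDerivAt_id L).const_mul 2).const_sub (a + b)).congr_deriv (by ring)
  have hb1 : ∀ L ∈ Icc a b, 0 ≤ (L - a) * (b - L) ∧ (L - a) * (b - L) ≤ 1 := by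
    intro L hL
    have h1 : 0 ≤ L - a := by linarith [hL.1]
    have h2 : 0 ≤ b - L := by linarith [hL.2]
    have h3 : L - a ≤ 1 := by linarith [hL.2]
    have h4 : b - L ≤ 1 := by linarith [hL.1]
    exact ⟨mul_nonneg h1 h2, mul_le_one₀ h3 h2 h4⟩
  have hb2 : ∀ L ∈ Icc a b, |a + b - 2 * L| ≤ 1 := by
    intro L hL
    rw [abs_le]
    constructor <;> linarith [hL.1, hL.2]
  refine ⟨fun L hL => ?_, fun L hL => ?_, by fun_prop, fun L hL => ?_, fun L hL => ?_,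
    fun L hL => ?_⟩
  · have h : HasDerivAt (chi a b) (((2 : ℕ) : ℝ) * ((L - a) * (b - L)) ^ (2 - 1) *
      (a + b - 2 * L)) L := (hd L).pow 2
    exact h.congr_deriv (by push_cast; ring)
  · exact (((hd L).const_mul 2).mul (hd2 L)).congr_deriv (by ring)
  · obtain ⟨h1, h2⟩ := hb1 L hL
    unfold chi
    rw [abs_of_nonneg (by positivity)]
    nlinarith
  · obtain ⟨h1, h2⟩ := hb1 L hL
    have h3 := hb2 L hL
    rw [abs_mul, abs_of_nonneg (by positivity)]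
    calc 2 * ((L - a) * (b - L)) * |a + b - 2 * L| ≤ 2 * 1 * 1 := by gcongr
      _ ≤ 6 := by norm_num
  · obtain ⟨h1, h2⟩ := hb1 L hL
    have h3 := hb2 L hL
    have h4 : (a + b - 2 * L) ^ 2 ≤ 1 := by
      rw [← sq_abs]
      nlinarith [abs_nonneg (a + b - 2 * L)]
    rw [abs_le]
    constructor <;> nlinarith [sq_nonneg (a + b - 2 * L)]

/-- four-point phase -/
noncomputable def GG (r1 r2 r3 r4 L : ℝ) : ℝ := sh r1 L + sh r2 L - sh r3 L - sh r4 L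

/-- derivative -/
noncomputable def GG1 (r1 r2 r3 r4 L : ℝ) : ℝ :=
  -r1 / (2 * sh r1 L) + -r2 / (2 * sh r2 L) - -r3 / (2 * sh r3 L) - -r4 / (2 * sh r4 L)

/-- second derivative -/
noncomputable def GG2 (r1 r2 r3 r4 L : ℝ) : ℝ :=
  -r1 ^ 2 / (4 * sh r1 L ^ 3) + -r2 ^ 2 / (4 * sh r2 L ^ 3) - -r3 ^ 2 / (4 * sh r3 L ^ 3) -
    -r4 ^ 2 / (4 * sh r4 L ^ 3)

/-- third derivative -/
noncomputable def GG3 (r1 r2 r3 r4 L : ℝ) : ℝ :=
  -3 * r1 ^ 3 / (8 * sh r1 L ^ 5) + -3 * r2 ^ 3 / (8 * sh r2 L ^ 5) -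
    -3 * r3 ^ 3 / (8 * sh r3 L ^ 5) - -3 * r4 ^ 3 / (8 * sh r4 L ^ 5)

lemma sh_deriv2 {r L : ℝ} (h : 0 < 1 - L * r) :
    HasDerivAt (fun L => -r / (2 * sh r L)) (-r ^ 2 / (4 * sh r L ^ 3)) L := by
  have hs : 0 < sh r L := Real.sqrt_pos.2 h
  have h1 := (sh_pow_deriv 1 h).const_mul (-r / 2)
  have h2 : HasDerivAt (fun L => -r / (2 * sh r L))
      (-r / 2 * ((1 : ℕ) * r / 2 * (1 / sh r L ^ (1 + 2)))) L := by
    refine h1.congr_of_eventuallyEq (Filter.Eventually.of_forall fun x => ?_)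
    simp only [pow_one]
    by_cases h0 : sh r x = 0
    · simp [h0]
    · field_simp
  refine h2.congr_deriv ?_
  field_simp
  push_cast
  ring

lemma sh_deriv3 {r L : ℝ} (h : 0 < 1 - L * r) :
    HasDerivAt (fun L => -r ^ 2 / (4 * sh r L ^ 3)) (-3 * r ^ 3 / (8 * sh r L ^ 5)) L := by
  have hs : 0 < sh r L := Real.sqrt_pos.2 h
  have h1 := (sh_pow_deriv 3 h).const_mul (-r ^ 2 / 4)
  have h2 : HasDerivAt (fun L => -r ^ 2 / (4 * sh r L ^ 3))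
      (-r ^ 2 / 4 * ((3 : ℕ) * r / 2 * (1 / sh r L ^ (3 + 2)))) L := by
    refine h1.congr_of_eventuallyEq (Filter.Eventually.of_forall fun x => ?_)
    by_cases h0 : sh r x = 0
    · simp [h0]
    · simp only
      field_simp
  refine h2.congr_deriv ?_
  field_simp
  push_cast
  ring

/-- the controlled quantities -/
lemma GG_bounds {r1 r2 r3 r4 L : ℝ} (ha : 0 < a) (hb : b < 1) (hL : L ∈ Icc a b)
    (h1 : r1 ∈ Icc (0:ℝ) 1) (h2 : r2 ∈ Icc (0:ℝ) 1) (h3 : r3 ∈ Icc (0:ℝ) 1)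
    (h4 : r4 ∈ Icc (0:ℝ) 1) :
    |GG2 r1 r2 r3 r4 L| ≤ 300 / (a ^ 3 * Real.sqrt (1 - b) ^ 8) *
      (|GG r1 r2 r3 r4 L| + |GG1 r1 r2 r3 r4 L|) ∧
    |GG3 r1 r2 r3 r4 L| ≤ 300 / (a ^ 3 * Real.sqrt (1 - b) ^ 8) *
      (|GG r1 r2 r3 r4 L| + |GG1 r1 r2 r3 r4 L|) ∧
    |r1 + r2 - r3 - r4| ≤ 16 / (a ^ 2 * Real.sqrt (1 - b)) *
      (|GG r1 r2 r3 r4 L| + |GG1 r1 r2 r3 r4 L|) ∧
    |r1 * r2 - r3 * r4| ≤ 16 / (a ^ 2 * Real.sqrt (1 - b)) *
      (|GG r1 r2 r3 r4 L| + |GG1 r1 r2 r3 r4 L|) := by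
  have hL0 : 0 < L := lt_of_lt_of_le ha hL.1
  have hL1 : L < 1 := lt_of_le_of_lt hL.2 hb
  have haL := hL.1
  obtain ⟨k1, g1⟩ := sh_bds hb hL0.le hL.2 h1.1 h1.2
  obtain ⟨k2, g2⟩ := sh_bds hb hL0.le hL.2 h2.1 h2.2
  obtain ⟨k3, g3⟩ := sh_bds hb hL0.le hL.2 h3.1 h3.2
  obtain ⟨k4, g4⟩ := sh_bds hb hL0.le hL.2 h4.1 h4.2
  have q1 := sh_sq hb hL0.le hL.2 h1.1 h1.2
  have q2 := sh_sq hb hL0.le hL.2 h2.1 h2.2
  have q3 := sh_sq hb hL0.le hL.2 h3.1 h3.2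
  have q4 := sh_sq hb hL0.le hL.2 h4.1 h4.2
  unfold GG GG1 GG2 GG3
  set k := Real.sqrt (1 - b) with hk
  have hk0 : 0 < k := Real.sqrt_pos.2 (by linarith)
  have hk1 : k ≤ 1 := by linarith
  set s1 := sh r1 L
  set s2 := sh r2 L
  set s3 := sh r3 L
  set s4 := sh r4 L
  have p1 : 0 < s1 := by linarith
  have p2 : 0 < s2 := by linarith
  have p3 : 0 < s3 := by linarith
  have p4 : 0 < s4 := by linarith
  have e1 : r1 = (1 - s1 ^ 2) / L := by rw [q1]; field_simp; ring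
  have e2 : r2 = (1 - s2 ^ 2) / L := by rw [q2]; field_simp; ring
  have e3 : r3 = (1 - s3 ^ 2) / L := by rw [q3]; field_simp; ring
  have e4 : r4 = (1 - s4 ^ 2) / L := by rw [q4]; field_simp; ring
  set G := s1 + s2 - s3 - s4 with hG
  set H := 1 / s1 + 1 / s2 - 1 / s3 - 1 / s4 with hH
  set G1 := -r1 / (2 * s1) + -r2 / (2 * s2) - -r3 / (2 * s3) - -r4 / (2 * s4) with hG1
  have eG1 : G1 = -(1 / (2 * L)) * (H - G) := by
    rw [hG1, hH, hG, e1, e2, e3, e4]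
    field_simp
    ring
  have eH : H = G - 2 * L * G1 := by
    rw [eG1]
    field_simp
    ring
  set D := 2 * (|G| + |G1|) with hD
  have hD0 : 0 ≤ D := by positivity
  have hGD : |G| ≤ D := by
    have := abs_nonneg G1
    have := abs_nonneg G
    linarith
  have hHD : |H| ≤ D := by
    rw [eH]
    refine (abs_sub _ _).trans ?_
    rw [abs_mul, abs_of_pos (by positivity : 0 < 2 * L)]
    have := abs_nonneg G1
    have := abs_nonneg G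
    nlinarith
  obtain ⟨c1, c2, c3, c4⟩ := sym_bounds hk0 k1 k2 k3 k4 g1 g2 g3 g4 hGD hHD
  have hkp : ∀ i j : ℕ, i ≤ j → 1 / k ^ i ≤ 1 / k ^ j := by
    intro i j hij
    apply one_div_le_one_div_of_le (by positivity)
    exact pow_le_pow_of_le_one hk0.le hk1 hij
  have hap : ∀ i j : ℕ, i ≤ j → 1 / L ^ i ≤ 1 / a ^ j := by
    intro i j hij
    apply one_div_le_one_div_of_le (by positivity)
    calc a ^ j ≤ L ^ j := by gcongr
      _ ≤ L ^ i := pow_le_pow_of_le_one hL0.le hL1.le hij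
  refine ⟨?_, ?_, ?_, ?_⟩
  · have e : -r1 ^ 2 / (4 * s1 ^ 3) + -r2 ^ 2 / (4 * s2 ^ 3) - -r3 ^ 2 / (4 * s3 ^ 3) -
        -r4 ^ 2 / (4 * s4 ^ 3) = -(1 / L ^ 2) * ((1 / s1 ^ 3 + 1 / s2 ^ 3 - 1 / s3 ^ 3 - 1 / s4 ^ 3)
          - 2 * H + G) / 4 := by
      rw [hH, hG, e1, e2, e3, e4]
      field_simp
      ring
    rw [e, abs_div, abs_mul, abs_neg, abs_of_pos (by positivity : 0 < 1 / L ^ 2),
      abs_of_pos (by norm_num : (0:ℝ) < 4)]
    have t1 : |1 / s1 ^ 3 + 1 / s2 ^ 3 - 1 / s3 ^ 3 - 1 / s4 ^ 3 - 2 * H + G| ≤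
        33 * D * (1 / k ^ 8) := by
      have t2 : |1 / s1 ^ 3 + 1 / s2 ^ 3 - 1 / s3 ^ 3 - 1 / s4 ^ 3 - 2 * H + G| ≤
          |1 / s1 ^ 3 + 1 / s2 ^ 3 - 1 / s3 ^ 3 - 1 / s4 ^ 3| + 2 * |H| + |G| := by
        refine (abs_add_le _ _).trans ?_
        gcongr
        refine (abs_sub _ _).trans ?_
        rw [abs_mul, abs_of_pos (by norm_num : (0:ℝ) < 2)]
      have t3 : 30 * D / k ^ 6 ≤ 30 * D * (1 / k ^ 8) := by
        have := hkp 6 8 (by norm_num)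
        calc 30 * D / k ^ 6 = 30 * D * (1 / k ^ 6) := by ring
          _ ≤ _ := by gcongr
      have t4 : D ≤ D * (1 / k ^ 8) := by
        have := hkp 0 8 (by norm_num)
        simp only [pow_zero, div_one] at this
        nlinarith
      linarith
    have t5 := hap 2 3 (by norm_num)
    calc 1 / L ^ 2 * |1 / s1 ^ 3 + 1 / s2 ^ 3 - 1 / s3 ^ 3 - 1 / s4 ^ 3 - 2 * H + G| / 4 ≤
        1 / a ^ 3 * (33 * D * (1 / k ^ 8)) / 4 := by gcongr
      _ = 33 / 4 * D / (a ^ 3 * k ^ 8) := by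
          field_simp
      _ ≤ 150 * D / (a ^ 3 * k ^ 8) := by
          gcongr
          norm_num
      _ = 300 / (a ^ 3 * k ^ 8) * (|G| + |G1|) := by
          rw [hD]
          ring
  · have e : -3 * r1 ^ 3 / (8 * s1 ^ 5) + -3 * r2 ^ 3 / (8 * s2 ^ 5) -
        -3 * r3 ^ 3 / (8 * s3 ^ 5) - -3 * r4 ^ 3 / (8 * s4 ^ 5) =
        -(1 / L ^ 3) * ((1 / s1 ^ 5 + 1 / s2 ^ 5 - 1 / s3 ^ 5 - 1 / s4 ^ 5)
          - 3 * (1 / s1 ^ 3 + 1 / s2 ^ 3 - 1 / s3 ^ 3 - 1 / s4 ^ 3) + 3 * H - G) * (3 / 8) := by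
      rw [hH, hG, e1, e2, e3, e4]
      field_simp
      ring
    rw [e, abs_mul, abs_mul, abs_neg, abs_of_pos (by positivity : 0 < 1 / L ^ 3),
      abs_of_pos (by norm_num : (0:ℝ) < 3 / 8)]
    have t1 : |1 / s1 ^ 5 + 1 / s2 ^ 5 - 1 / s3 ^ 5 - 1 / s4 ^ 5
          - 3 * (1 / s1 ^ 3 + 1 / s2 ^ 3 - 1 / s3 ^ 3 - 1 / s4 ^ 3) + 3 * H - G| ≤
        394 * D * (1 / k ^ 8) := by
      have t2 : |1 / s1 ^ 5 + 1 / s2 ^ 5 - 1 / s3 ^ 5 - 1 / s4 ^ 5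
          - 3 * (1 / s1 ^ 3 + 1 / s2 ^ 3 - 1 / s3 ^ 3 - 1 / s4 ^ 3) + 3 * H - G| ≤
          |1 / s1 ^ 5 + 1 / s2 ^ 5 - 1 / s3 ^ 5 - 1 / s4 ^ 5| +
          3 * |1 / s1 ^ 3 + 1 / s2 ^ 3 - 1 / s3 ^ 3 - 1 / s4 ^ 3| + 3 * |H| + |G| := by
        refine (abs_sub _ _).trans ?_
        gcongr
        refine (abs_add_le _ _).trans ?_
        rw [abs_mul 3 H, abs_of_pos (by norm_num : (0:ℝ) < 3)]
        gcongr
        refine (abs_sub _ _).trans ?_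
        rw [abs_mul, abs_of_pos (by norm_num : (0:ℝ) < 3)]
      have t3 : 30 * D / k ^ 6 ≤ 30 * D * (1 / k ^ 8) := by
        have := hkp 6 8 (by norm_num)
        calc 30 * D / k ^ 6 = 30 * D * (1 / k ^ 6) := by ring
          _ ≤ _ := by gcongr
      have t3' : 300 * D / k ^ 8 = 300 * D * (1 / k ^ 8) := by ring
      have t4 : D ≤ D * (1 / k ^ 8) := by
        have := hkp 0 8 (by norm_num)
        simp only [pow_zero, div_one] at this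
        nlinarith
      linarith
    have t5 := hap 3 3 le_rfl
    calc 1 / L ^ 3 * |1 / s1 ^ 5 + 1 / s2 ^ 5 - 1 / s3 ^ 5 - 1 / s4 ^ 5
          - 3 * (1 / s1 ^ 3 + 1 / s2 ^ 3 - 1 / s3 ^ 3 - 1 / s4 ^ 3) + 3 * H - G| * (3 / 8) ≤
        1 / a ^ 3 * (394 * D * (1 / k ^ 8)) * (3 / 8) := by gcongr
      _ = (394 * 3 / 8) * D / (a ^ 3 * k ^ 8) := by
          field_simp
      _ ≤ 150 * D / (a ^ 3 * k ^ 8) := by
          gcongr
          norm_num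
      _ = 300 / (a ^ 3 * k ^ 8) * (|G| + |G1|) := by
          rw [hD]
          ring
  · have e : r1 + r2 - r3 - r4 = -(1 / L ^ 1) * (s1 ^ 2 + s2 ^ 2 - s3 ^ 2 - s4 ^ 2) := by
      rw [e1, e2, e3, e4]
      field_simp
      ring
    rw [e, abs_mul, abs_neg, abs_of_pos (by positivity : 0 < 1 / L ^ 1)]
    have t5 := hap 1 2 (by norm_num)
    calc 1 / L ^ 1 * |s1 ^ 2 + s2 ^ 2 - s3 ^ 2 - s4 ^ 2| ≤ 1 / a ^ 2 * (6 * D / k) := by gcongr
      _ = 6 * D / (a ^ 2 * k) := by field_simp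
      _ ≤ 8 * D / (a ^ 2 * k) := by
          gcongr
          norm_num
      _ = 16 / (a ^ 2 * k) * (|G| + |G1|) := by
          rw [hD]
          ring
  · have e : r1 * r2 - r3 * r4 = (1 / L ^ 2) * ((s1 ^ 2 * s2 ^ 2 - s3 ^ 2 * s4 ^ 2) -
        (s1 ^ 2 + s2 ^ 2 - s3 ^ 2 - s4 ^ 2)) := by
      rw [e1, e2, e3, e4]
      field_simp
      ring
    rw [e, abs_mul, abs_of_pos (by positivity : 0 < 1 / L ^ 2)]
    have t5 := hap 2 2 le_rfl
    have t6 : |(s1 ^ 2 * s2 ^ 2 - s3 ^ 2 * s4 ^ 2) - (s1 ^ 2 + s2 ^ 2 - s3 ^ 2 - s4 ^ 2)| ≤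
        8 * D / k := by
      refine (abs_sub _ _).trans ?_
      have : 8 * D / k = 2 * D / k + 6 * D / k := by ring
      linarith
    calc 1 / L ^ 2 * |(s1 ^ 2 * s2 ^ 2 - s3 ^ 2 * s4 ^ 2) - (s1 ^ 2 + s2 ^ 2 - s3 ^ 2 - s4 ^ 2)|
        ≤ 1 / a ^ 2 * (8 * D / k) := by gcongr
      _ = 16 / (a ^ 2 * k) * (|G| + |G1|) := by
          rw [hD]
          field_simp
          ring

end Pool.Agent.W777.DL
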