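import Mathlib
import Pool.Agent.W777.DL.Phase
set_option autoImplicit false

/-! The kernel bound. -/

namespace Pool.Agent.W777.DL

open MeasureTheory Set

/-- amplitude -/
noncomputable def am (m : ℕ) (r1 r2 r3 r4 L : ℝ) : ℝ :=
  (1 / sh r1 L ^ m * (1 / sh r2 L ^ m)) * (1 / sh r3 L ^ m * (1 / sh r4 L ^ m))

/-- the kernel -/
noncomputable def ker (a b : ℝ) (m : ℕ) (R r1 r2 r3 r4 : ℝ) : ℝ :=
  ∫ L in a..b, chi a b L * am m r1 r2 r3 r4 L * Ps2 (R * GG r1 r2 r3 r4 L)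

lemma Ps2_le (y : ℝ) : |Ps2 y| ≤ 20 := by
  have hpi := Real.pi_pos
  have hpi' := Real.pi_lt_d2
  have hz : 0 ≤ Real.pi * y ^ 2 := by positivity
  obtain ⟨h1, -⟩ := exp_bd _ hz
  have h2 := Ps_pos y
  have h3 := Ps_le y
  have e : Ps2 y = 4 * Real.pi * (Real.pi * y ^ 2 * Real.exp (-(Real.pi * y ^ 2))) -
      2 * Real.pi * Ps y := by
    unfold Ps2 Ps
    ring
  rw [e]
  have h4 : 0 ≤ Real.pi * y ^ 2 * Real.exp (-(Real.pi * y ^ 2)) := by positivity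
  have h5 : 4 * Real.pi * (Real.pi * y ^ 2 * Real.exp (-(Real.pi * y ^ 2))) ≤ 4 * Real.pi * 1 := by
    gcongr
  have h6 : 2 * Real.pi * Ps y ≤ 2 * Real.pi * 1 := by gcongr
  have h7 : 0 ≤ 4 * Real.pi * (Real.pi * y ^ 2 * Real.exp (-(Real.pi * y ^ 2))) := by positivity
  have h8 : 0 ≤ 2 * Real.pi * Ps y := by positivity
  rw [abs_le]
  constructor <;> linarith

variable {a b : ℝ}

/-- constant -/
noncomputable def cB (b : ℝ) (m : ℕ) : ℝ := ((m : ℝ) + 2) ^ 2 / Real.sqrt (1 - b) ^ (m + 4)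

lemma cB_nn (b : ℝ) (m : ℕ) : 0 ≤ cB b m := by
  unfold cB
  positivity

/-- constant -/
noncomputable def cE (b : ℝ) (m : ℕ) : ℝ := 4 * 6 * (4 * (4 * cB b m * cB b m) *
  (4 * cB b m * cB b m))

lemma cE_nn (b : ℝ) (m : ℕ) : 0 ≤ cE b m := by
  have := cB_nn b m
  unfold cE
  positivity

lemma e_C2b (m : ℕ) (ha : 0 ≤ a) (hb : b < 1) {r1 r2 r3 r4 : ℝ}
    (h1 : r1 ∈ Icc (0:ℝ) 1) (h2 : r2 ∈ Icc (0:ℝ) 1) (h3 : r3 ∈ Icc (0:ℝ) 1)
    (h4 : r4 ∈ Icc (0:ℝ) 1) :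
    ∃ f1 f2 : ℝ → ℝ, C2b (Icc a b) (cE b m) (fun L => chi a b L * am m r1 r2 r3 r4 L) f1 f2 ∧
      f1 a = 0 ∧ f1 b = 0 := by
  have hB := cB_nn b m
  have c1 := sh_C2b m ha hb h1.1 h1.2
  have c2 := sh_C2b m ha hb h2.1 h2.2
  have c3 := sh_C2b m ha hb h3.1 h3.2
  have c4 := sh_C2b m ha hb h4.1 h4.2
  have c12 := C2b.mul hB hB c1 c2
  have c34 := C2b.mul hB hB c3 c4
  have cc := C2b.mul (by positivity) (by positivity) c12 c34
  have ce := C2b.mul (by norm_num) (by positivity) (chi_C2b ha hb) cc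
  refine ⟨_, _, ce, ?_, ?_⟩
  · simp [chi]
  · simp [chi]

theorem ker_bd (m : ℕ) (ha : 0 < a) (hab : a ≤ b) (hb : b < 1) {r1 r2 r3 r4 : ℝ}
    (h1 : r1 ∈ Icc (0:ℝ) 1) (h2 : r2 ∈ Icc (0:ℝ) 1) (h3 : r3 ∈ Icc (0:ℝ) 1)
    (h4 : r4 ∈ Icc (0:ℝ) 1) {R mu : ℝ} (hR : 0 < R) (hmu : 0 < mu)
    (hlow : ∀ L ∈ Icc a b, mu ≤ |GG r1 r2 r3 r4 L| + |GG1 r1 r2 r3 r4 L|) :
    |ker a b m R r1 r2 r3 r4| ≤
      466 * (300 / (a ^ 3 * Real.sqrt (1 - b) ^ 8)) ^ 2 * cE b m / (R * mu) ^ 2 := by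
  obtain ⟨f1, f2, hf, fa, fb⟩ := e_C2b m ha.le hb h1 h2 h3 h4
  have hk0 : 0 < Real.sqrt (1 - b) := Real.sqrt_pos.2 (by linarith)
  have hk1 : Real.sqrt (1 - b) ≤ 1 := by
    rw [Real.sqrt_le_one]
    linarith
  have hC : 1 ≤ 300 / (a ^ 3 * Real.sqrt (1 - b) ^ 8) := by
    rw [le_div_iff₀ (by positivity)]
    have t1 : a ^ 3 ≤ 1 := pow_le_one₀ ha.le (by linarith)
    have t2 : Real.sqrt (1 - b) ^ 8 ≤ 1 := pow_le_one₀ hk0.le hk1
    have t3 : a ^ 3 * Real.sqrt (1 - b) ^ 8 ≤ 1 := mul_le_one₀ t1 (by positivity) t2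
    linarith
  have hpos : ∀ r ∈ Icc (0:ℝ) 1, ∀ L ∈ Icc a b, 0 < 1 - L * r := fun r hr L hL => by
    have := (sh_arg hb (ha.le.trans hL.1) hL.2 hr.1 hr.2).1
    linarith
  have hspos : ∀ r ∈ Icc (0:ℝ) 1, ∀ L ∈ Icc a b, 0 < sh r L := fun r hr L hL =>
    Real.sqrt_pos.2 (hpos r hr L hL)
  have hsc : ∀ r ∈ Icc (0:ℝ) 1, ContinuousOn (fun L => sh r L) (Icc a b) := fun r hr L hL =>
    (sh_deriv (hpos r hr L hL)).continuousAt.continuousWithinAt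
  have hc3 : ∀ r ∈ Icc (0:ℝ) 1, ContinuousOn (fun L => -3 * r ^ 3 / (8 * sh r L ^ 5))
      (Icc a b) := fun r hr => by
    refine continuousOn_const.div (continuousOn_const.mul ((hsc r hr).pow 5)) fun L hL => ?_
    have := hspos r hr L hL
    positivity
  have hmain := ibp (a := a) (b := b) (C := 300 / (a ^ 3 * Real.sqrt (1 - b) ^ 8)) (E0 := cE b m)
    (R := R) (m := mu) hab hC (cE_nn b m) hR hmu
    (G := GG r1 r2 r3 r4) (G1 := GG1 r1 r2 r3 r4) (G2 := GG2 r1 r2 r3 r4) (G3 := GG3 r1 r2 r3 r4)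
    (e := fun L => chi a b L * am m r1 r2 r3 r4 L) (e1 := f1) (e2 := f2)
    (fun L hL => (((sh_deriv (hpos r1 h1 L hL)).add (sh_deriv (hpos r2 h2 L hL))).sub
      (sh_deriv (hpos r3 h3 L hL))).sub (sh_deriv (hpos r4 h4 L hL)))
    (fun L hL => (((sh_deriv2 (hpos r1 h1 L hL)).add (sh_deriv2 (hpos r2 h2 L hL))).sub
      (sh_deriv2 (hpos r3 h3 L hL))).sub (sh_deriv2 (hpos r4 h4 L hL)))
    (fun L hL => (((sh_deriv3 (hpos r1 h1 L hL)).add (sh_deriv3 (hpos r2 h2 L hL))).sub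
      (sh_deriv3 (hpos r3 h3 L hL))).sub (sh_deriv3 (hpos r4 h4 L hL)))
    ((((hc3 r1 h1).add (hc3 r2 h2)).sub (hc3 r3 h3)).sub (hc3 r4 h4))
    hf.d1 hf.d2 hf.c (by simp [chi]) (by simp [chi]) fa fb
    (fun L hL => (GG_bounds ha hb hL h1 h2 h3 h4).1)
    (fun L hL => (GG_bounds ha hb hL h1 h2 h3 h4).2.1)
    hf.b0 hf.b1 hf.b2 hlow
  unfold ker
  refine hmain.trans ?_
  have hE := cE_nn b m
  have t : 0 ≤ 466 * (300 / (a ^ 3 * Real.sqrt (1 - b) ^ 8)) ^ 2 * cE b m / (R * mu) ^ 2 := by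
    positivity
  exact mul_le_of_le_one_right t (by linarith)

lemma ker_triv (m : ℕ) (ha : 0 < a) (hab : a ≤ b) (hb : b < 1) {r1 r2 r3 r4 : ℝ}
    (h1 : r1 ∈ Icc (0:ℝ) 1) (h2 : r2 ∈ Icc (0:ℝ) 1) (h3 : r3 ∈ Icc (0:ℝ) 1)
    (h4 : r4 ∈ Icc (0:ℝ) 1) (R : ℝ) :
    |ker a b m R r1 r2 r3 r4| ≤ 20 * cE b m := by
  obtain ⟨f1, f2, hf, fa, fb⟩ := e_C2b m ha.le hb h1 h2 h3 h4
  have hE := cE_nn b m
  unfold ker
  have hbd : ∀ x ∈ Set.uIoc a b, ‖chi a b x * am m r1 r2 r3 r4 x * Ps2 (R * GG r1 r2 r3 r4 x)‖ ≤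
      20 * cE b m := by
    intro x hx
    rw [uIoc_of_le hab] at hx
    have hx' : x ∈ Icc a b := ⟨hx.1.le, hx.2⟩
    rw [norm_mul, Real.norm_eq_abs, Real.norm_eq_abs]
    have := hf.b0 x hx'
    have := Ps2_le (R * GG r1 r2 r3 r4 x)
    calc |chi a b x * am m r1 r2 r3 r4 x| * |Ps2 (R * GG r1 r2 r3 r4 x)| ≤ cE b m * 20 := by
          gcongr
      _ = _ := by ring
  have := intervalIntegral.norm_integral_le_of_norm_le_const hbd
  rw [Real.norm_eq_abs, abs_of_nonneg (by linarith : 0 ≤ b - a)] at this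
  refine this.trans ?_
  exact mul_le_of_le_one_right (by positivity) (by linarith)

/-- final kernel bound -/
theorem ker_final (m : ℕ) (ha : 0 < a) (hab : a ≤ b) (hb : b < 1) (th : ℝ) (hth0 : 0 < th)
    (hth1 : th < 1) :
    ∃ K : ℝ, 0 ≤ K ∧ ∀ r1 ∈ Icc (0:ℝ) 1, ∀ r2 ∈ Icc (0:ℝ) 1, ∀ r3 ∈ Icc (0:ℝ) 1,
      ∀ r4 ∈ Icc (0:ℝ) 1, ∀ R : ℝ, 0 < R → ∀ m1 m2 : ℝ, m1 = (r1 + r2 - r3 - r4) / 2 →
      m2 = m1 * ((r1 + r2 + r3 + r4) / 2) - (r1 * r2 - r3 * r4) → m1 ≠ 0 → m2 ≠ 0 →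
      |ker a b m R r1 r2 r3 r4| ≤ K * R ^ (-(2 * th)) * (|m1| ^ (-th) * |m2| ^ (-th)) := by
  set k := Real.sqrt (1 - b) with hk
  have hk0 : 0 < k := Real.sqrt_pos.2 (by linarith)
  set c := a ^ 2 * k / 32 with hc
  have hc0 : 0 < c := by positivity
  have hE := cE_nn b m
  set K1 := 466 * (300 / (a ^ 3 * k ^ 8)) ^ 2 * cE b m + 20 * cE b m with hK1
  have hK1' : 0 ≤ K1 := by positivity
  refine ⟨K1 * c ^ (-(2 * th)), by positivity, ?_⟩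
  intro r1 h1 r2 h2 r3 h3 r4 h4 R hR m1 m2 e1 e2 hm1 hm2
  set mu := c * max |m1| |m2| with hmu
  have hmax : 0 < max |m1| |m2| := lt_of_lt_of_le (abs_pos.2 hm1) (le_max_left _ _)
  have hmu0 : 0 < mu := by positivity
  have hlow : ∀ L ∈ Icc a b, mu ≤ |GG r1 r2 r3 r4 L| + |GG1 r1 r2 r3 r4 L| := by
    intro L hL
    obtain ⟨-, -, b1, b2⟩ := GG_bounds ha hb hL h1 h2 h3 h4
    set S := |GG r1 r2 r3 r4 L| + |GG1 r1 r2 r3 r4 L|
    have hS : 0 ≤ S := by positivity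
    have t0 : 16 / (a ^ 2 * k) * S = S / (2 * c) := by
      rw [hc]
      field_simp
      ring
    have t1 : |m1| ≤ S / c := by
      rw [e1, abs_div, abs_of_pos (by norm_num : (0:ℝ) < 2)]
      rw [t0] at b1
      have : S / (2 * c) / 2 ≤ S / c := by
        rw [div_div]
        apply div_le_div_of_nonneg_left hS hc0
        linarith
      linarith
    have t2 : |m2| ≤ S / c := by
      rw [e2]
      refine (abs_sub _ _).trans ?_
      rw [abs_mul]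
      have s1 : |(r1 + r2 + r3 + r4) / 2| ≤ 2 := by
        rw [abs_of_nonneg (by linarith [h1.1, h2.1, h3.1, h4.1])]
        linarith [h1.2, h2.2, h3.2, h4.2]
      have s2 : |m1| ≤ S / (2 * c) / 2 := by
        rw [e1, abs_div, abs_of_pos (by norm_num : (0:ℝ) < 2)]
        rw [t0] at b1
        linarith
      rw [t0] at b2
      have s3 : |m1| * |(r1 + r2 + r3 + r4) / 2| ≤ S / (2 * c) / 2 * 2 := by gcongr
      have s4 : S / c = S / (2 * c) + S / (2 * c) := by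
        field_simp
        ring
      linarith
    rw [hmu, mul_comm, ← le_div_iff₀ hc0]
    exact max_le t1 t2
  have hb1 := ker_bd m ha hab hb h1 h2 h3 h4 hR hmu0 hlow
  have hb2 := ker_triv m ha hab hb h1 h2 h3 h4 R
  have hRmu : 0 < R * mu := by positivity
  have step : |ker a b m R r1 r2 r3 r4| ≤ K1 * (R * mu) ^ (-(2 * th)) := by
    rcases le_or_gt 1 (R * mu) with hge | hlt
    · have s1 : 1 / (R * mu) ^ 2 ≤ (R * mu) ^ (-(2 * th)) := by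
        rw [one_div, ← Real.rpow_natCast, ← Real.rpow_neg hRmu.le]
        apply Real.rpow_le_rpow_of_exponent_le hge
        push_cast
        linarith
      calc |ker a b m R r1 r2 r3 r4| ≤
          466 * (300 / (a ^ 3 * k ^ 8)) ^ 2 * cE b m * (1 / (R * mu) ^ 2) := by
            rw [mul_one_div]
            exact hb1
        _ ≤ K1 * (R * mu) ^ (-(2 * th)) := by
            gcongr
            linarith
    · have s1 : 1 ≤ (R * mu) ^ (-(2 * th)) :=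
        Real.one_le_rpow_of_pos_of_le_one_of_nonpos hRmu hlt.le (by linarith)
      have s2 : 0 ≤ 466 * (300 / (a ^ 3 * k ^ 8)) ^ 2 * cE b m := by positivity
      calc |ker a b m R r1 r2 r3 r4| ≤ K1 * 1 := by linarith
        _ ≤ K1 * (R * mu) ^ (-(2 * th)) := by gcongr
  refine step.trans ?_
  have a1 : 0 < |m1| := abs_pos.2 hm1
  have a2 : 0 < |m2| := abs_pos.2 hm2
  have s5 : (max |m1| |m2|) ^ (-(2 * th)) ≤ |m1| ^ (-th) * |m2| ^ (-th) := by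
    have : (max |m1| |m2|) ^ (-(2 * th)) = (max |m1| |m2|) ^ (-th) * (max |m1| |m2|) ^ (-th) := by
      rw [← Real.rpow_add hmax]
      congr 1
      ring
    rw [this]
    have x1 : (max |m1| |m2|) ^ (-th) ≤ |m1| ^ (-th) :=
      Real.rpow_le_rpow_of_nonpos a1 (le_max_left _ _) (by linarith)
    have x2 : (max |m1| |m2|) ^ (-th) ≤ |m2| ^ (-th) :=
      Real.rpow_le_rpow_of_nonpos a2 (le_max_right _ _) (by linarith)
    gcongr
  have s6 : (R * mu) ^ (-(2 * th)) = R ^ (-(2 * th)) * (c ^ (-(2 * th)) *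
      (max |m1| |m2|) ^ (-(2 * th))) := by
    rw [hmu, Real.mul_rpow hR.le (by positivity), Real.mul_rpow hc0.le hmax.le]
  rw [s6]
  calc K1 * (R ^ (-(2 * th)) * (c ^ (-(2 * th)) * (max |m1| |m2|) ^ (-(2 * th)))) ≤
      K1 * (R ^ (-(2 * th)) * (c ^ (-(2 * th)) * (|m1| ^ (-th) * |m2| ^ (-th)))) := by gcongr
    _ = _ := by ring

end Pool.Agent.W777.DL
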