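import Mathlib
import Pool.Agent.H153R4.Block
set_option autoImplicit false

/-! A singular integral over triples of plane vectors. -/

namespace Pool.Agent.W777.DL

open MeasureTheory Set Metric
open scoped ENNReal RealInnerProductSpace
open Pool.Agent.H153R4 (E Q2 Q2_meas J_fin)

/-- `|x|^(-th)` with value infinity at zero -/
noncomputable def W (th x : ℝ) : ℝ≥0∞ := (ENNReal.ofReal |x|) ^ (-th)

lemma W_meas (th : ℝ) : Measurable (W th) := by
  unfold W
  fun_prop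

lemma W_zero {th : ℝ} (h : 0 < th) : W th 0 = ⊤ := by
  unfold W
  rw [abs_zero, ENNReal.ofReal_zero, ENNReal.zero_rpow_of_neg (by linarith)]

lemma W_mul (th x y : ℝ) : W th (x * y) = W th x * W th y := by
  unfold W
  rw [abs_mul, ENNReal.ofReal_mul (abs_nonneg _),
    ENNReal.mul_rpow_of_ne_top ENNReal.ofReal_ne_top ENNReal.ofReal_ne_top]

lemma W_anti {th x y : ℝ} (h : 0 ≤ th) (hxy : |x| ≤ |y|) : W th y ≤ W th x := by
  unfold W
  rw [ENNReal.rpow_neg, ENNReal.rpow_neg, ENNReal.inv_le_inv]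
  exact ENNReal.rpow_le_rpow (ENNReal.ofReal_le_ofReal hxy) h

lemma W_pos (th x : ℝ) (h : 0 ≤ th) : 0 < W th x := by
  unfold W
  rw [ENNReal.rpow_neg, ENNReal.inv_pos]
  exact ENNReal.rpow_ne_top_of_nonneg h ENNReal.ofReal_ne_top

lemma W_of_ne {th x : ℝ} (hx : x ≠ 0) : W th x = ENNReal.ofReal (|x| ^ (-th)) := by
  unfold W
  rw [ENNReal.ofReal_rpow_of_pos (abs_pos.2 hx)]

/-- the ball of radius two -/
def B2 : Set (E 2) := closedBall 0 2

lemma B2_meas : MeasurableSet B2 := isClosed_closedBall.measurableSet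

lemma B2_sub : B2 ⊆ Q2 2 := by
  intro x hx j
  have h1 : ‖x‖ ≤ 2 := by simpa [B2] using hx
  have h2 : ‖x j‖ ≤ ‖x‖ := PiLp.norm_apply_le x j
  rw [Real.norm_eq_abs] at h2
  linarith

/-- constant -/
noncomputable def CJ (th : ℝ) : ℝ≥0∞ := ∫⁻ x in Q2 2, W th (x 0) * W th (x 1)

lemma CJ_fin {th : ℝ} (h1 : th < 1) : CJ th < ⊤ := by
  have h := J_fin 2 (1 - th) (by linarith)
  unfold CJ
  refine lt_of_le_of_lt (le_of_eq ?_) h
  have hne := Pool.Agent.H153R4.ae_ne_zero 2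
  apply lintegral_congr_ae
  filter_upwards [ae_restrict_of_ae hne] with x hx
  rw [Fin.prod_univ_two, W_of_ne (hx 0), W_of_ne (hx 1)]
  have e : 1 - th - 1 = -th := by ring
  rw [e]

lemma rot_int (th : ℝ) (hth : 0 < th) (g : E 2) (hg : g ≠ 0) :
    ∫⁻ x in B2, W th ⟪g, x⟫ * W th ‖x‖ ≤ W th ‖g‖ * CJ th := by
  set v : E 2 := ‖g‖ • EuclideanSpace.single 0 1 with hv
  have hgn : 0 < ‖g‖ := norm_pos_iff.2 hg
  have hnv : ‖g‖ = ‖v‖ := by
    rw [hv, norm_smul, PiLp.norm_single]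
    simp
  set U : E 2 ≃ₗᵢ[ℝ] E 2 := (ℝ ∙ (g - v))ᗮ.reflection with hU
  have hUg : U g = v := Submodule.reflection_sub hnv
  have h1 : ∀ x : E 2, W th ⟪g, x⟫ * W th ‖x‖ =
      (fun y : E 2 => W th (‖g‖ * y 0) * W th ‖y‖) (U x) := by
    intro x
    simp only
    rw [U.norm_map]
    congr 2
    rw [← U.inner_map_map, hUg, hv, real_inner_smul_left, EuclideanSpace.inner_single_left]
    simp
  simp only [h1]
  have hpre : U ⁻¹' B2 = B2 := by
    ext x
    simp [B2, U.norm_map]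
  have hm : Measurable fun y : E 2 => W th (‖g‖ * y 0) * W th ‖y‖ :=
    ((W_meas th).comp (by fun_prop)).mul ((W_meas th).comp measurable_norm)
  have h2 := U.measurePreserving.setLIntegral_comp_preimage B2_meas hm
  rw [hpre] at h2
  rw [h2]
  unfold CJ
  rw [← lintegral_const_mul _ (by
    exact ((W_meas th).comp (by fun_prop)).mul ((W_meas th).comp (by fun_prop)))]
  refine (lintegral_mono_set B2_sub).trans ?_
  apply lintegral_mono
  intro y
  simp only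
  rw [W_mul, mul_assoc]
  gcongr
  apply W_anti hth.le
  rw [abs_of_nonneg (norm_nonneg y), ← Real.norm_eq_abs]
  exact PiLp.norm_apply_le y 1

/-- Gram determinant in the plane -/
lemma gram (x y z : E 2) : ⟪x, y⟫ ^ 2 * ‖z‖ ^ 2 + ⟪z, x⟫ ^ 2 * ‖y‖ ^ 2 + ⟪z, y⟫ ^ 2 * ‖x‖ ^ 2 -
    2 * (⟪x, y⟫ * ⟪z, x⟫ * ⟪z, y⟫) = ‖x‖ ^ 2 * ‖y‖ ^ 2 * ‖z‖ ^ 2 := by
  have hn : ∀ w : E 2, ‖w‖ ^ 2 = w 0 ^ 2 + w 1 ^ 2 := by
    intro w
    rw [EuclideanSpace.real_norm_sq_eq, Fin.sum_univ_two]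
  have hi : ∀ w u : E 2, ⟪w, u⟫ = w 0 * u 0 + w 1 * u 1 := by
    intro w u
    rw [PiLp.inner_apply, Fin.sum_univ_two]
    simp only [RCLike.inner_apply, conj_trivial]
    ring
  rw [hn, hn, hn, hi, hi, hi]
  ring

lemma gram_max (x y z : E 2) (hx : x ≠ 0) (hy : y ≠ 0) (hz : z ≠ 0) :
    ‖x‖ * ‖y‖ ≤ 2 * |⟪x, y⟫| ∨ ‖z‖ * ‖x‖ ≤ 2 * |⟪z, x⟫| ∨ ‖z‖ * ‖y‖ ≤ 2 * |⟪z, y⟫| := by
  by_contra hcon
  push Not at hcon
  obtain ⟨h1, h2, h3⟩ := hcon
  have px : 0 < ‖x‖ := norm_pos_iff.2 hx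
  have py : 0 < ‖y‖ := norm_pos_iff.2 hy
  have pz : 0 < ‖z‖ := norm_pos_iff.2 hz
  have g := gram x y z
  set A := |⟪x, y⟫| with hA
  set B := |⟪z, x⟫| with hB
  set C := |⟪z, y⟫| with hC
  have eA : ⟪x, y⟫ ^ 2 = A ^ 2 := by rw [hA, sq_abs]
  have eB : ⟪z, x⟫ ^ 2 = B ^ 2 := by rw [hB, sq_abs]
  have eC : ⟪z, y⟫ ^ 2 = C ^ 2 := by rw [hC, sq_abs]
  have eM : ⟪x, y⟫ * ⟪z, x⟫ * ⟪z, y⟫ ≥ -(A * B * C) := by
    rw [hA, hB, hC, ← abs_mul, ← abs_mul]
    exact neg_abs_le _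
  have a0 : 0 ≤ A := abs_nonneg _
  have b0 : 0 ≤ B := abs_nonneg _
  have c0 : 0 ≤ C := abs_nonneg _
  have k1 : A ^ 2 * ‖z‖ ^ 2 < (‖x‖ * ‖y‖ * ‖z‖) ^ 2 / 4 := by
    have : A * ‖z‖ < ‖x‖ * ‖y‖ * ‖z‖ / 2 := by nlinarith
    have h5 : 0 ≤ A * ‖z‖ := by positivity
    nlinarith
  have k2 : B ^ 2 * ‖y‖ ^ 2 < (‖x‖ * ‖y‖ * ‖z‖) ^ 2 / 4 := by
    have : B * ‖y‖ < ‖x‖ * ‖y‖ * ‖z‖ / 2 := by nlinarith
    have h5 : 0 ≤ B * ‖y‖ := by positivity
    nlinarith
  have k3 : C ^ 2 * ‖x‖ ^ 2 < (‖x‖ * ‖y‖ * ‖z‖) ^ 2 / 4 := by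
    have : C * ‖x‖ < ‖x‖ * ‖y‖ * ‖z‖ / 2 := by nlinarith
    have h5 : 0 ≤ C * ‖x‖ := by positivity
    nlinarith
  have k4 : A * B * C ≤ (‖x‖ * ‖y‖ * ‖z‖) ^ 2 / 8 := by
    have s1 : A * B ≤ (‖x‖ * ‖y‖ / 2) * (‖z‖ * ‖x‖ / 2) := by
      apply mul_le_mul (by linarith) (by linarith) b0 (by positivity)
    calc A * B * C ≤ (‖x‖ * ‖y‖ / 2) * (‖z‖ * ‖x‖ / 2) * (‖z‖ * ‖y‖ / 2) := by
          apply mul_le_mul s1 (by linarith) c0 (by positivity)
      _ = (‖x‖ * ‖y‖ * ‖z‖) ^ 2 / 8 := by ring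
  have k5 : (‖x‖ * ‖y‖ * ‖z‖) ^ 2 = ‖x‖ ^ 2 * ‖y‖ ^ 2 * ‖z‖ ^ 2 := by ring
  rw [eA, eB, eC] at g
  nlinarith

/-- one of the three terms -/
noncomputable def FF (th : ℝ) (g x y : E 2) : ℝ≥0∞ :=
  (W th ⟪g, x⟫ * W th ‖x‖) * (W th ⟪g, y⟫ * W th ‖y‖)

lemma W_two (th : ℝ) (hth : 0 < th) {x y : ℝ} (h : x ≤ 2 * |y|) (hx : 0 ≤ x) :
    W th y ≤ ENNReal.ofReal (2 ^ th) * W th x := by
  have h1 : W th (2 * y) ≤ W th x := by
    apply W_anti hth.le
    rw [abs_mul, abs_of_nonneg hx, abs_of_pos (by norm_num : (0:ℝ) < 2)]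
    exact h
  rw [W_mul] at h1
  have h2 : ENNReal.ofReal (2 ^ th) * W th 2 = 1 := by
    rw [W_of_ne (by norm_num : (2:ℝ) ≠ 0), ← ENNReal.ofReal_mul (by positivity),
      abs_of_pos (by norm_num : (0:ℝ) < 2), ← Real.rpow_add (by norm_num)]
    simp
  calc W th y = (ENNReal.ofReal (2 ^ th) * W th 2) * W th y := by rw [h2, one_mul]
    _ = ENNReal.ofReal (2 ^ th) * (W th 2 * W th y) := by ring
    _ ≤ _ := by gcongr

lemma triple_bd (th : ℝ) (hth : 0 < th) (x y z : E 2) :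
    W th ⟪x, y⟫ * W th ⟪z, x⟫ * W th ⟪z, y⟫ ≤
      ENNReal.ofReal (2 ^ th) * (FF th z x y + FF th y x z + FF th x y z) := by
  have hc : 0 < ENNReal.ofReal ((2:ℝ) ^ th) := ENNReal.ofReal_pos.2 (by positivity)
  have hp : ∀ r, W th r ≠ 0 := fun r => (W_pos th r hth.le).ne'
  by_cases hx : x = 0
  · have : FF th z x y = ⊤ := by
      unfold FF
      simp [hx, W_zero hth, hp, ENNReal.top_mul, ENNReal.mul_top]
    rw [this]
    simp [ENNReal.mul_top, hc.ne']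
  by_cases hy : y = 0
  · have : FF th z x y = ⊤ := by
      unfold FF
      simp [hy, W_zero hth, hp, ENNReal.top_mul, ENNReal.mul_top]
    rw [this]
    simp [ENNReal.mul_top, hc.ne']
  by_cases hz : z = 0
  · have : FF th z x y = ⊤ := by
      unfold FF
      simp [hz, W_zero hth, hp, ENNReal.top_mul, ENNReal.mul_top]
    rw [this]
    simp [ENNReal.mul_top, hc.ne']
  rcases gram_max x y z hx hy hz with h | h | h
  · have h1 := W_two th hth h (by positivity)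
    rw [W_mul] at h1
    calc W th ⟪x, y⟫ * W th ⟪z, x⟫ * W th ⟪z, y⟫ ≤
        (ENNReal.ofReal (2 ^ th) * (W th ‖x‖ * W th ‖y‖)) * W th ⟪z, x⟫ * W th ⟪z, y⟫ := by
          gcongr
      _ = ENNReal.ofReal (2 ^ th) * FF th z x y := by
          unfold FF
          ring
      _ ≤ _ := by
          gcongr
          rw [add_assoc]
          exact le_self_add
  · have h1 := W_two th hth h (by positivity)
    rw [W_mul] at h1
    calc W th ⟪x, y⟫ * W th ⟪z, x⟫ * W th ⟪z, y⟫ ≤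
        W th ⟪x, y⟫ * (ENNReal.ofReal (2 ^ th) * (W th ‖z‖ * W th ‖x‖)) * W th ⟪z, y⟫ := by
          gcongr
      _ = ENNReal.ofReal (2 ^ th) * FF th y x z := by
          unfold FF
          rw [real_inner_comm x y, real_inner_comm z y]
          ring
      _ ≤ _ := by
          gcongr
          rw [add_assoc, add_left_comm]
          exact le_self_add
  · have h1 := W_two th hth h (by positivity)
    rw [W_mul] at h1
    calc W th ⟪x, y⟫ * W th ⟪z, x⟫ * W th ⟪z, y⟫ ≤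
        W th ⟪x, y⟫ * W th ⟪z, x⟫ * (ENNReal.ofReal (2 ^ th) * (W th ‖z‖ * W th ‖y‖)) := by
          gcongr
      _ = ENNReal.ofReal (2 ^ th) * FF th x y z := by
          unfold FF
          rw [real_inner_comm x z]
          ring
      _ ≤ _ := by
          gcongr
          exact le_add_self

lemma FF_meas (th : ℝ) {Y : Type*} [MeasurableSpace Y] {f g h : Y → E 2} (hf : Measurable f)
    (hg : Measurable g) (hh : Measurable h) : Measurable fun y => FF th (f y) (g y) (h y) := by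
  unfold FF
  exact (((W_meas th).comp (hf.inner hg)).mul ((W_meas th).comp hg.norm)).mul
    (((W_meas th).comp (hf.inner hh)).mul ((W_meas th).comp hh.norm))

lemma FF_int (th : ℝ) (hth : 0 < th) :
    ∫⁻ g in B2, ∫⁻ x in B2, ∫⁻ y in B2, FF th g x y ≤ CJ th ^ 3 := by
  have hm : ∀ g : E 2, Measurable fun x : E 2 => W th ⟪g, x⟫ * W th ‖x‖ := fun g =>
    ((W_meas th).comp (by fun_prop)).mul ((W_meas th).comp (by fun_prop))
  have h1 : ∀ g : E 2, ∫⁻ x in B2, ∫⁻ y in B2, FF th g x y =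
      (∫⁻ x in B2, W th ⟪g, x⟫ * W th ‖x‖) * ∫⁻ y in B2, W th ⟪g, y⟫ * W th ‖y‖ := by
    intro g
    unfold FF
    have : ∀ x : E 2, ∫⁻ y in B2, (W th ⟪g, x⟫ * W th ‖x‖) * (W th ⟪g, y⟫ * W th ‖y‖) =
        (W th ⟪g, x⟫ * W th ‖x‖) * ∫⁻ y in B2, (W th ⟪g, y⟫ * W th ‖y‖) := fun x =>
      lintegral_const_mul _ (hm g)
    simp only [this]
    rw [lintegral_mul_const _ (hm g)]
  simp only [h1]
  have h2 : ∀ᵐ g : E 2 ∂(volume.restrict B2),
      (∫⁻ x in B2, W th ⟪g, x⟫ * W th ‖x‖) * ∫⁻ y in B2, W th ⟪g, y⟫ * W th ‖y‖ ≤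
      CJ th ^ 2 * (W th (g 0) * W th (g 1)) := by
    filter_upwards [ae_restrict_of_ae (Pool.Agent.H153R4.ae_ne_zero 2)] with g hg
    have hg0 : g ≠ 0 := by
      intro h0
      exact hg 0 (by rw [h0]; rfl)
    have h3 := rot_int th hth g hg0
    have h4 : ∀ j, W th ‖g‖ ≤ W th (g j) := by
      intro j
      apply W_anti hth.le
      rw [abs_of_nonneg (norm_nonneg g), ← Real.norm_eq_abs]
      exact PiLp.norm_apply_le g j
    calc _ ≤ (W th ‖g‖ * CJ th) * (W th ‖g‖ * CJ th) := mul_le_mul' h3 h3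
      _ ≤ (W th (g 0) * CJ th) * (W th (g 1) * CJ th) :=
          mul_le_mul' (mul_le_mul' (h4 0) le_rfl) (mul_le_mul' (h4 1) le_rfl)
      _ = _ := by ring
  refine (lintegral_mono_ae h2).trans ?_
  rw [lintegral_const_mul _ (by
    exact ((W_meas th).comp (by fun_prop)).mul ((W_meas th).comp (by fun_prop)))]
  have h5 : ∫⁻ g in B2, W th (g 0) * W th (g 1) ≤ CJ th := lintegral_mono_set B2_sub
  calc CJ th ^ 2 * ∫⁻ g in B2, W th (g 0) * W th (g 1) ≤ CJ th ^ 2 * CJ th := by gcongr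
    _ = CJ th ^ 3 := by ring

lemma lin3 {Y : Type*} [MeasurableSpace Y] (μ : Measure Y) (c : ℝ≥0∞) {a1 a2 a3 : Y → ℝ≥0∞}
    (h1 : Measurable a1) (h2 : Measurable a2) (h3 : Measurable a3) :
    ∫⁻ y, c * (a1 y + a2 y + a3 y) ∂μ =
      c * ((∫⁻ y, a1 y ∂μ) + (∫⁻ y, a2 y ∂μ) + ∫⁻ y, a3 y ∂μ) := by
  have h12 : Measurable fun y => a1 y + a2 y := h1.add h2
  have h123 : Measurable fun y => a1 y + a2 y + a3 y := h12.add h3
  rw [lintegral_const_mul _ h123, lintegral_add_left h12, lintegral_add_left h1]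

/-- inner integral -/
noncomputable def H1 (th : ℝ) (x y : E 2) : ℝ≥0∞ := ∫⁻ z in B2, FF th z x y

/-- inner integral -/
noncomputable def H2 (th : ℝ) (x y : E 2) : ℝ≥0∞ := ∫⁻ z in B2, FF th y x z

/-- inner integral -/
noncomputable def H3 (th : ℝ) (x y : E 2) : ℝ≥0∞ := ∫⁻ z in B2, FF th x y z

lemma H1_meas (th : ℝ) : Measurable (Function.uncurry (H1 th)) := by
  have m1 : Measurable fun p : (E 2 × E 2) × E 2 => FF th p.2 p.1.1 p.1.2 :=
    FF_meas th measurable_snd (measurable_fst.comp measurable_fst)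
      (measurable_snd.comp measurable_fst)
  exact m1.lintegral_prod_right'

lemma H2_meas (th : ℝ) : Measurable (Function.uncurry (H2 th)) := by
  have m1 : Measurable fun p : (E 2 × E 2) × E 2 => FF th p.1.2 p.1.1 p.2 :=
    FF_meas th (measurable_snd.comp measurable_fst) (measurable_fst.comp measurable_fst)
      measurable_snd
  exact m1.lintegral_prod_right'

lemma H3_meas (th : ℝ) : Measurable (Function.uncurry (H3 th)) := by
  have m1 : Measurable fun p : (E 2 × E 2) × E 2 => FF th p.1.1 p.1.2 p.2 :=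
    FF_meas th (measurable_fst.comp measurable_fst) (measurable_snd.comp measurable_fst)
      measurable_snd
  exact m1.lintegral_prod_right'

lemma H1_int (th : ℝ) (hth : 0 < th) : ∫⁻ x in B2, ∫⁻ y in B2, H1 th x y ≤ CJ th ^ 3 := by
  have e1 : ∀ x : E 2, ∫⁻ y in B2, H1 th x y = ∫⁻ z in B2, ∫⁻ y in B2, FF th z x y := by
    intro x
    unfold H1
    apply lintegral_lintegral_swap
    exact (FF_meas th (f := fun p : E 2 × E 2 => p.2) (g := fun p : E 2 × E 2 => x)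
      (h := fun p : E 2 × E 2 => p.1) measurable_snd measurable_const
      measurable_fst).aemeasurable
  simp only [e1]
  have mm : Measurable (Function.uncurry (fun x z : E 2 => ∫⁻ y in B2, FF th z x y)) :=
    (FF_meas th (f := fun p : (E 2 × E 2) × E 2 => p.1.2)
      (g := fun p : (E 2 × E 2) × E 2 => p.1.1) (h := fun p : (E 2 × E 2) × E 2 => p.2)
      (measurable_snd.comp measurable_fst) (measurable_fst.comp measurable_fst)
      measurable_snd).lintegral_prod_right'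
  rw [lintegral_lintegral_swap (f := fun x z : E 2 => ∫⁻ y in B2, FF th z x y) mm.aemeasurable]
  exact FF_int th hth

lemma H2_int (th : ℝ) (hth : 0 < th) : ∫⁻ x in B2, ∫⁻ y in B2, H2 th x y ≤ CJ th ^ 3 := by
  rw [lintegral_lintegral_swap (f := H2 th) (H2_meas th).aemeasurable]
  unfold H2
  exact FF_int th hth

lemma H3_int (th : ℝ) (hth : 0 < th) : ∫⁻ x in B2, ∫⁻ y in B2, H3 th x y ≤ CJ th ^ 3 := by
  unfold H3
  exact FF_int th hth

lemma in_z (th : ℝ) (hth : 0 < th) (x y : E 2) :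
    ∫⁻ z in B2, W th ⟪x, y⟫ * W th ⟪z, x⟫ * W th ⟪z, y⟫ ≤
      ENNReal.ofReal (2 ^ th) * (H1 th x y + H2 th x y + H3 th x y) := by
  have a1 : Measurable fun z => FF th z x y :=
    FF_meas th measurable_id measurable_const measurable_const
  have a2 : Measurable fun z => FF th y x z :=
    FF_meas th measurable_const measurable_const measurable_id
  have a3 : Measurable fun z => FF th x y z :=
    FF_meas th measurable_const measurable_const measurable_id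
  unfold H1 H2 H3
  rw [← lin3 (volume.restrict B2) (ENNReal.ofReal (2 ^ th)) a1 a2 a3]
  exact lintegral_mono fun z => triple_bd th hth x y z

/-- outer integral -/
noncomputable def J1 (th : ℝ) (x : E 2) : ℝ≥0∞ := ∫⁻ y in B2, H1 th x y

/-- outer integral -/
noncomputable def J2 (th : ℝ) (x : E 2) : ℝ≥0∞ := ∫⁻ y in B2, H2 th x y

/-- outer integral -/
noncomputable def J3 (th : ℝ) (x : E 2) : ℝ≥0∞ := ∫⁻ y in B2, H3 th x y

theorem triple_int (th : ℝ) (hth : 0 < th) :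
    ∫⁻ x in B2, ∫⁻ y in B2, ∫⁻ z in B2, W th ⟪x, y⟫ * W th ⟪z, x⟫ * W th ⟪z, y⟫ ≤
      ENNReal.ofReal (2 ^ th) * (3 * CJ th ^ 3) := by
  have hy : ∀ x : E 2, ∫⁻ y in B2, ∫⁻ z in B2, W th ⟪x, y⟫ * W th ⟪z, x⟫ * W th ⟪z, y⟫ ≤
      ENNReal.ofReal (2 ^ th) * (J1 th x + J2 th x + J3 th x) := by
    intro x
    unfold J1 J2 J3
    rw [← lin3 (volume.restrict B2) (ENNReal.ofReal (2 ^ th)) (H1_meas th).of_uncurry_left
      (H2_meas th).of_uncurry_left (H3_meas th).of_uncurry_left]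
    exact lintegral_mono fun y => in_z th hth x y
  refine (lintegral_mono hy).trans ?_
  have c1 : Measurable (J1 th) := (H1_meas th).lintegral_prod_right'
  have c2 : Measurable (J2 th) := (H2_meas th).lintegral_prod_right'
  have c3 : Measurable (J3 th) := (H3_meas th).lintegral_prod_right'
  rw [lin3 (volume.restrict B2) (ENNReal.ofReal (2 ^ th)) c1 c2 c3]
  refine mul_le_mul' le_rfl ?_
  refine (add_le_add (add_le_add (H1_int th hth) (H2_int th hth)) (H3_int th hth)).trans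
    (le_of_eq ?_)
  ring

/-- change of variables -/
theorem cov (Psi : E 2 → E 2 → ℝ≥0∞) (hP : Measurable fun p : E 2 × E 2 => Psi p.1 p.2)
    (h : E 2) :
    ∫⁻ z, ∫⁻ w, Psi (z - w) (z + w + h) ≤ ∫⁻ x, ∫⁻ g, Psi x g := by
  have m1 : Measurable fun p : E 2 × E 2 => Psi (p.1 - p.2) (p.1 + p.2 + h) :=
    hP.comp (by fun_prop : Measurable fun p : E 2 × E 2 => (p.1 - p.2, p.1 + p.2 + h))
  rw [lintegral_lintegral_swap m1.aemeasurable]
  have e1 : ∀ w : E 2, ∫⁻ z, Psi (z - w) (z + w + h) = ∫⁻ x, Psi x (x + w + w + h) := by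
    intro w
    rw [← lintegral_add_right_eq_self (fun z => Psi (z - w) (z + w + h)) w]
    simp only [add_sub_cancel_right]
  simp only [e1]
  have m2 : Measurable fun p : E 2 × E 2 => Psi p.2 (p.2 + p.1 + p.1 + h) :=
    hP.comp (by fun_prop : Measurable fun p : E 2 × E 2 => (p.2, p.2 + p.1 + p.1 + h))
  rw [lintegral_lintegral_swap m2.aemeasurable]
  apply lintegral_mono
  intro x
  simp only
  have e2 : ∀ w : E 2, Psi x (x + w + w + h) = (fun u : E 2 => Psi x (u + (x + h))) ((2:ℝ) • w) := by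
    intro w
    simp only
    congr 1
    rw [two_smul]
    abel
  simp only [e2]
  have m3 : Measurable fun u : E 2 => Psi x (u + (x + h)) :=
    hP.comp (by fun_prop : Measurable fun u : E 2 => (x, u + (x + h)))
  have e3 := Measure.map_addHaar_smul (volume : Measure (E 2)) (by norm_num : (2:ℝ) ≠ 0)
  have e4 : ∫⁻ w : E 2, (fun u : E 2 => Psi x (u + (x + h))) ((2:ℝ) • w) =
      ∫⁻ u, Psi x (u + (x + h)) ∂(Measure.map (fun w : E 2 => (2:ℝ) • w) volume) :=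
    (lintegral_map m3 (measurable_const_smul _)).symm
  rw [e4, e3, lintegral_smul_measure, smul_eq_mul]
  have e5 : ENNReal.ofReal |((2:ℝ) ^ Module.finrank ℝ (E 2))⁻¹| ≤ 1 := by
    rw [ENNReal.ofReal_le_one, abs_of_nonneg (by positivity)]
    apply inv_le_one_of_one_le₀
    apply one_le_pow₀
    norm_num
  calc _ ≤ 1 * ∫⁻ u, Psi x (u + (x + h)) := by gcongr
    _ = ∫⁻ g, Psi x g := by
        rw [one_mul, lintegral_add_right_eq_self (fun g => Psi x g) (x + h)]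

end Pool.Agent.W777.DL
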