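import Mathlib
set_option autoImplicit false

/-! The TT* inequality. -/

namespace Pool.Agent.W777.DL

open MeasureTheory Set Complex
open scoped ENNReal ComplexConjugate

theorem tt {Ω Z : Type*} [MeasurableSpace Ω] [MeasurableSpace Z] (μ : Measure Ω) (ν : Measure Z)
    [IsFiniteMeasure μ] [IsFiniteMeasure ν] (X : Ω → Z → ℂ) (B : ℝ)
    (hX : Measurable (Function.uncurry X)) (hB : ∀ w z, ‖X w z‖ ≤ B) :
    ∫⁻ w, ‖∫ z, X w z ∂ν‖ₑ ^ 2 ∂μ ≤
      ∫⁻ z, ∫⁻ z', ‖∫ w, X w z * conj (X w z') ∂μ‖ₑ ∂ν ∂ν := by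
  rcases isEmpty_or_nonempty Ω with hΩ | ⟨⟨w0⟩⟩
  · simp [Measure.eq_zero_of_isEmpty μ]
  rcases isEmpty_or_nonempty Z with hZ | ⟨⟨z0⟩⟩
  · simp [Measure.eq_zero_of_isEmpty ν]
  have hB0 : 0 ≤ B := (norm_nonneg _).trans (hB w0 z0)
  set J : Ω → ℂ := fun w => ∫ z, X w z ∂ν with hJ
  have hJm : Measurable J := hX.stronglyMeasurable.integral_prod_right'.measurable
  have hJb : ∀ w, ‖J w‖ ≤ B * ν.real univ := fun w => by
    have := norm_integral_le_of_norm_le_const (μ := ν) (f := fun z => X w z) (C := B)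
      (ae_of_all _ (hB w))
    exact this
  -- the norm square as a complex integral
  have h1 : ∫⁻ w, ‖J w‖ₑ ^ 2 ∂μ = ‖∫ w, J w * conj (J w) ∂μ‖ₑ := by
    have e1 : ∀ w, J w * conj (J w) = ((‖J w‖ ^ 2 : ℝ) : ℂ) := fun w => by
      rw [Complex.mul_conj, Complex.normSq_eq_norm_sq]
    simp only [e1]
    have e0 : ∫ w, ((‖J w‖ ^ 2 : ℝ) : ℂ) ∂μ = ((∫ w, ‖J w‖ ^ 2 ∂μ : ℝ) : ℂ) := integral_ofReal
    rw [e0]
    have hi : Integrable (fun w => ‖J w‖ ^ 2) μ := by
      refine Integrable.of_bound (hJm.norm.pow_const 2).aestronglyMeasurable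
        ((B * ν.real univ) ^ 2) (ae_of_all _ fun w => ?_)
      rw [Real.norm_of_nonneg (by positivity)]
      have := hJb w
      gcongr
    have hnn : 0 ≤ ∫ w, ‖J w‖ ^ 2 ∂μ := integral_nonneg fun w => by positivity
    rw [← ofReal_norm, Complex.norm_real, Real.norm_of_nonneg hnn,
      ofReal_integral_eq_lintegral_ofReal hi (ae_of_all _ fun w => by positivity)]
    apply lintegral_congr
    intro w
    rw [← ofReal_norm, ENNReal.ofReal_pow (norm_nonneg _)]
  rw [h1]
  -- expand
  have e2 : ∀ w, J w * conj (J w) = ∫ z, ∫ z', X w z * conj (X w z') ∂ν ∂ν := by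
    intro w
    have a1 : ∀ z, ∫ z', X w z * conj (X w z') ∂ν = X w z * conj (J w) := by
      intro z
      rw [integral_const_mul, hJ]
      simp only
      rw [← integral_conj]
    simp only [a1]
    rw [integral_mul_const]
  have hm3 : Measurable fun p : (Ω × Z) × Z => X p.1.1 p.1.2 * conj (X p.1.1 p.2) := by
    have b1 : Measurable fun p : (Ω × Z) × Z => X p.1.1 p.1.2 := hX.comp measurable_fst
    have b2 : Measurable fun p : (Ω × Z) × Z => X p.1.1 p.2 :=
      hX.comp ((measurable_fst.comp measurable_fst).prodMk measurable_snd)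
    exact b1.mul (continuous_conj.measurable.comp b2)
  have hbd : ∀ w z z', ‖X w z * conj (X w z')‖ ≤ B * B := fun w z z' => by
    rw [norm_mul, RCLike.norm_conj]
    exact mul_le_mul (hB w z) (hB w z') (norm_nonneg _) hB0
  have e3 : ∫ w, ∫ z, ∫ z', X w z * conj (X w z') ∂ν ∂ν ∂μ =
      ∫ z, ∫ z', ∫ w, X w z * conj (X w z') ∂μ ∂ν ∂ν := by
    have c1 : Measurable (Function.uncurry fun w z => ∫ z', X w z * conj (X w z') ∂ν) :=
      hm3.stronglyMeasurable.integral_prod_right'.measurable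
    rw [integral_integral_swap (f := fun w z => ∫ z', X w z * conj (X w z') ∂ν)]
    · apply integral_congr_ae
      refine ae_of_all _ fun z => ?_
      simp only
      apply integral_integral_swap
      refine Integrable.of_bound ?_ (B * B) (ae_of_all _ fun p => hbd _ _ _)
      have : Measurable fun p : Ω × Z => ((p.1, z), p.2) := by fun_prop
      exact (hm3.comp this).aestronglyMeasurable
    · refine Integrable.of_bound c1.aestronglyMeasurable (B * B * ν.real univ)
        (ae_of_all _ fun p => ?_)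
      exact norm_integral_le_of_norm_le_const (μ := ν)
        (f := fun z' => X p.1 p.2 * conj (X p.1 z')) (C := B * B) (ae_of_all _ fun z' => hbd _ _ _)
  simp only [e2]
  rw [e3]
  refine (enorm_integral_le_lintegral_enorm _).trans ?_
  apply lintegral_mono
  intro z
  exact enorm_integral_le_lintegral_enorm _

end Pool.Agent.W777.DL
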