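import Mathlib
import Pool.Agent.W777.DL.Ibp
set_option autoImplicit false

/-! The time integral. -/

namespace Pool.Agent.W777.DL

open MeasureTheory Set Complex FourierTransform
open scoped ENNReal

/-- Gaussian -/
noncomputable def ga (x : ℝ) : ℂ := cexp (-Real.pi * (x : ℂ) ^ 2)

lemma ga_eq (x : ℝ) : ga x = ((Real.exp (-Real.pi * x ^ 2) : ℝ) : ℂ) := by
  unfold ga
  push_cast
  rfl

lemma F_ga (y : ℝ) : 𝓕 ga y = ((Ps y : ℝ) : ℂ) := by
  have h := fourier_gaussian_pi (b := 1) (by simp)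
  have e : ga = fun x : ℝ => cexp (-Real.pi * (1 : ℂ) * (x : ℂ) ^ 2) := by
    ext x
    unfold ga
    simp
  rw [e, h]
  unfold Ps
  simp

lemma int0 : Integrable (fun x : ℝ => Real.exp (-Real.pi * x ^ 2)) :=
  integrable_exp_neg_mul_sq Real.pi_pos

lemma int1 : Integrable (fun x : ℝ => x * Real.exp (-Real.pi * x ^ 2)) := by
  have := integrable_rpow_mul_exp_neg_mul_sq Real.pi_pos (s := 1) (by norm_num)
  simpa using this

lemma int2 : Integrable (fun x : ℝ => x ^ 2 * Real.exp (-Real.pi * x ^ 2)) := by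
  have := integrable_rpow_mul_exp_neg_mul_sq Real.pi_pos (s := 2) (by norm_num)
  simpa using this

lemma ga_int : Integrable ga := by
  have := int0.ofReal (𝕜 := ℂ)
  refine this.congr (Filter.Eventually.of_forall fun x => ?_)
  simp only
  rw [ga_eq]
  rfl

/-- first moment -/
noncomputable def ga1 (x : ℝ) : ℂ := (-2 * Real.pi * I * x) • ga x

/-- second moment -/
noncomputable def ga2 (x : ℝ) : ℂ := (-2 * Real.pi * I * x) • ga1 x

lemma xga_int : Integrable (fun x : ℝ => x • ga x) := by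
  have := int1.ofReal (𝕜 := ℂ)
  refine this.congr (Filter.Eventually.of_forall fun x => ?_)
  simp only
  rw [ga_eq]
  simp

lemma ga1_int : Integrable ga1 := by
  refine (xga_int.const_mul (-2 * Real.pi * I)).congr (Filter.Eventually.of_forall fun x => ?_)
  simp only [ga1, Complex.real_smul, smul_eq_mul]
  ring

lemma xga1_int : Integrable (fun x : ℝ => x • ga1 x) := by
  have := (Complex.ofRealCLM.integrable_comp int2).const_mul (-2 * Real.pi * I)
  refine this.congr (Filter.Eventually.of_forall fun x => ?_)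
  simp only [ga1]
  rw [ga_eq]
  simp only [Complex.real_smul, smul_eq_mul, Complex.ofRealCLM_apply]
  push_cast
  ring

lemma F_ga1 (y : ℝ) : 𝓕 ga1 y = ((Ps1 y : ℝ) : ℂ) := by
  have h1 : HasDerivAt (𝓕 ga) (𝓕 ga1 y) y := Real.hasDerivAt_fourier ga_int xga_int y
  have h2 : HasDerivAt (fun y : ℝ => ((Ps y : ℝ) : ℂ)) ((Ps1 y : ℝ) : ℂ) y :=
    (Ps_deriv y).ofReal_comp
  have e : 𝓕 ga = fun y : ℝ => ((Ps y : ℝ) : ℂ) := funext F_ga
  rw [e] at h1
  exact h1.unique h2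

lemma F_ga2 (y : ℝ) : 𝓕 ga2 y = ((Ps2 y : ℝ) : ℂ) := by
  have h1 : HasDerivAt (𝓕 ga1) (𝓕 ga2 y) y := Real.hasDerivAt_fourier ga1_int xga1_int y
  have h2 : HasDerivAt (fun y : ℝ => ((Ps1 y : ℝ) : ℂ)) ((Ps2 y : ℝ) : ℂ) y :=
    (Ps1_deriv y).ofReal_comp
  have e : 𝓕 ga1 = fun y : ℝ => ((Ps1 y : ℝ) : ℂ) := funext F_ga1
  rw [e] at h1
  exact h1.unique h2

/-- time weight -/
noncomputable def wt (R t : ℝ) : ℝ := 4 * Real.pi ^ 2 * (t / R) ^ 2 *
  Real.exp (-Real.pi * (t / R) ^ 2)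

lemma wt_nn (R t : ℝ) : 0 ≤ wt R t := by
  unfold wt
  positivity

lemma wt_cont (R : ℝ) : Continuous (wt R) := by
  unfold wt
  fun_prop

lemma wt_int (R : ℝ) (hR : 0 < R) : Integrable (wt R) := by
  have h1 := (int2.const_mul (4 * Real.pi ^ 2)).comp_div hR.ne'
  refine h1.congr (Filter.Eventually.of_forall fun x => ?_)
  simp only [wt]
  ring

lemma wt_low (R t : ℝ) (hR : 0 < R) (h1 : R ≤ |t|) (h2 : |t| ≤ 2 * R) :
    Real.exp (-(4 * Real.pi)) ≤ wt R t := by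
  unfold wt
  have hpi := Real.pi_gt_three
  have e : (t / R) ^ 2 = (|t| / R) ^ 2 := by
    rw [div_pow, div_pow, sq_abs]
  have a1 : 1 ≤ |t| / R := by
    rw [le_div_iff₀ hR]
    linarith
  have a2 : |t| / R ≤ 2 := by
    rw [div_le_iff₀ hR]
    linarith
  rw [e]
  have a3 : 1 ≤ (|t| / R) ^ 2 := one_le_pow₀ a1
  have a4 : (|t| / R) ^ 2 ≤ 4 := by nlinarith
  have a5 : Real.exp (-(4 * Real.pi)) ≤ Real.exp (-Real.pi * (|t| / R) ^ 2) := by
    apply Real.exp_le_exp.2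
    nlinarith
  have a6 : 1 ≤ 4 * Real.pi ^ 2 * (|t| / R) ^ 2 := by nlinarith
  have a7 := Real.exp_pos (-Real.pi * (|t| / R) ^ 2)
  nlinarith

lemma time_int (R g : ℝ) (hR : 0 < R) :
    ∫ t : ℝ, ((wt R t : ℝ) : ℂ) * cexp (((-(2 * Real.pi * t * g) : ℝ) : ℂ) * I) =
      ((-(R * Ps2 (R * g)) : ℝ) : ℂ) := by
  have h1 : ∀ t : ℝ, ((wt R t : ℝ) : ℂ) * cexp (((-(2 * Real.pi * t * g) : ℝ) : ℂ) * I) =
      (fun x : ℝ => -(cexp (((-2 * Real.pi * (x * (R * g)) : ℝ) : ℂ) * I) • ga2 x)) (t / R) := by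
    intro t
    simp only [ga2, ga1, smul_eq_mul]
    rw [ga_eq]
    unfold wt
    have e1 : -(2 * Real.pi * t * g) = -2 * Real.pi * (t / R * (R * g)) := by
      field_simp
    rw [e1]
    push_cast
    linear_combination (4 * (Real.pi : ℂ) ^ 2 * ((t : ℂ) / R) ^ 2 *
      cexp (-Real.pi * ((t : ℂ) / R) ^ 2) *
      cexp (-2 * Real.pi * ((t : ℂ) / R * (R * g)) * I)) * Complex.I_sq
  simp only [h1]
  rw [Measure.integral_comp_div (fun x : ℝ => -(cexp (((-2 * Real.pi * (x * (R * g)) : ℝ) : ℂ) *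
    I) • ga2 x)) R, integral_neg, abs_of_pos hR]
  have h2 := F_ga2 (R * g)
  rw [Real.fourier_real_eq_integral_exp_smul] at h2
  have h3 : ∫ x : ℝ, cexp (((-2 * Real.pi * (x * (R * g)) : ℝ) : ℂ) * I) • ga2 x =
      ((Ps2 (R * g) : ℝ) : ℂ) := by
    rw [← h2]
    apply integral_congr_ae
    refine Filter.Eventually.of_forall fun x => ?_
    simp only
    congr 3
    push_cast
    ring
  rw [h3]
  push_cast
  simp

end Pool.Agent.W777.DL
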