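import Mathlib
import Pool.Agent.W777.DL.Meas
import Pool.Agent.W777.DL.Tint
import Pool.Agent.W777.DL.Kern
import Pool.Agent.W777.DL.TT
set_option autoImplicit false

/-! The fourth moment of the Fourier transform, averaged over dilations and times. -/

namespace Pool.Agent.W777.DL

open MeasureTheory Set Metric Complex FourierTransform
open scoped ENNReal RealInnerProductSpace ComplexConjugate
open Pool.Agent.H153R4 (E BS kk BB four cube cube_vol)

/-- bounded measurable functions supported in the unit disc -/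
structure DS (M : ℝ) (f : E 2 → ℂ) : Prop where
  meas : Measurable f
  bd : ∀ z, ‖f z‖ ≤ M
  supp : ∀ z, 1 < ‖z‖ → f z = 0

/-- modulated function -/
noncomputable def gm (m : ℕ) (t L : ℝ) (f : E 2 → ℂ) (z : E 2) : ℂ :=
  cexp (((-(2 * Real.pi * t * sh (‖z‖ ^ 2) L) : ℝ) : ℂ) * I) *
    ((1 / sh (‖z‖ ^ 2) L ^ m : ℝ) : ℂ) * f z

lemma sh_meas {Y : Type*} [MeasurableSpace Y] {r L : Y → ℝ} (hr : Measurable r)
    (hL : Measurable L) : Measurable fun y => sh (r y) (L y) := by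
  unfold sh
  exact (measurable_const.sub (hL.mul hr)).sqrt

lemma gm_meas (m : ℕ) {Y : Type*} [MeasurableSpace Y] {t L : Y → ℝ} {z : Y → E 2} {f : E 2 → ℂ}
    (ht : Measurable t) (hL : Measurable L) (hz : Measurable z) (hf : Measurable f) :
    Measurable fun y => gm m (t y) (L y) f (z y) := by
  have hs : Measurable fun y => sh (‖z y‖ ^ 2) (L y) := sh_meas (hz.norm.pow_const 2) hL
  unfold gm
  exact ((Complex.measurable_exp.comp ((Complex.measurable_ofReal.comp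
    ((measurable_const.mul ht).mul hs).neg).mul measurable_const)).mul
    (Complex.measurable_ofReal.comp (measurable_const.div (hs.pow_const m)))).mul (hf.comp hz)

lemma gm_norm (m : ℕ) (t L : ℝ) (f : E 2 → ℂ) (z : E 2) :
    ‖gm m t L f z‖ = |1 / sh (‖z‖ ^ 2) L ^ m| * ‖f z‖ := by
  unfold gm
  rw [norm_mul, norm_mul, Complex.norm_exp_ofReal_mul_I, one_mul, Complex.norm_real,
    Real.norm_eq_abs]

lemma disc_cube {z : E 2} (hz : z ∉ cube 2) : 1 < ‖z‖ := by
  by_contra h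
  push Not at h
  apply hz
  intro j
  have h2 : ‖z j‖ ≤ ‖z‖ := PiLp.norm_apply_le z j
  rw [Real.norm_eq_abs] at h2
  linarith

variable {a b : ℝ}

/-- lower bound for the height -/
noncomputable def kp (b : ℝ) : ℝ := Real.sqrt (1 - b)

lemma kp_pos (hb : b < 1) : 0 < kp b := Real.sqrt_pos.2 (by linarith)

lemma gm_bd (m : ℕ) (t : ℝ) {L M : ℝ} (hb : b < 1) (hL0 : 0 ≤ L) (hLb : L ≤ b) {f : E 2 → ℂ}
    (hf : DS M f) (z : E 2) : ‖gm m t L f z‖ ≤ M / kp b ^ m := by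
  have hM : 0 ≤ M := (norm_nonneg _).trans (hf.bd 0)
  have hk := kp_pos hb
  rw [gm_norm]
  rcases lt_or_ge 1 ‖z‖ with h | h
  · rw [hf.supp z h, norm_zero, mul_zero]
    positivity
  · have hz : ‖z‖ ^ 2 ≤ 1 := pow_le_one₀ (norm_nonneg z) h
    obtain ⟨h1, h2⟩ := sh_bds hb hL0 hLb (by positivity : (0:ℝ) ≤ ‖z‖ ^ 2) hz
    have h3 : 0 < sh (‖z‖ ^ 2) L := lt_of_lt_of_le hk h1
    rw [abs_of_pos (by positivity)]
    calc 1 / sh (‖z‖ ^ 2) L ^ m * ‖f z‖ ≤ 1 / kp b ^ m * M := by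
          apply mul_le_mul _ (hf.bd z) (norm_nonneg _) (by positivity)
          apply one_div_le_one_div_of_le (by positivity)
          exact pow_le_pow_left₀ hk.le h1 m
      _ = M / kp b ^ m := by ring

lemma gm_BS (m : ℕ) (t : ℝ) {L M : ℝ} (hb : b < 1) (hL0 : 0 ≤ L) (hLb : L ≤ b) {f : E 2 → ℂ}
    (hf : DS M f) : BS (M / kp b ^ m) (gm m t L f) := by
  refine ⟨gm_meas m measurable_const measurable_const measurable_id hf.meas,
    gm_bd m t hb hL0 hLb hf, fun z hz => ?_⟩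
  unfold gm
  rw [hf.supp z (disc_cube hz), mul_zero]

/-- product of four values -/
lemma four_prod (m : ℕ) (t L : ℝ) (f : E 2 → ℂ) (h z w : E 2) :
    kk (gm m t L f) h z * conj (kk (gm m t L f) h w) =
      (f (z + h) * conj (f z) * (conj (f (w + h)) * f w)) *
      (((am m (‖z + h‖ ^ 2) (‖w‖ ^ 2) (‖z‖ ^ 2) (‖w + h‖ ^ 2) L : ℝ) : ℂ) *
      cexp (((-(2 * Real.pi * t * GG (‖z + h‖ ^ 2) (‖w‖ ^ 2) (‖z‖ ^ 2) (‖w + h‖ ^ 2) L) : ℝ) : ℂ)
        * I)) := by
  have e : cexp (((-(2 * Real.pi * t * GG (‖z + h‖ ^ 2) (‖w‖ ^ 2) (‖z‖ ^ 2) (‖w + h‖ ^ 2) L) : ℝ)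
      : ℂ) * I) = cexp (((-(2 * Real.pi * t * sh (‖z + h‖ ^ 2) L) : ℝ) : ℂ) * I) *
        conj (cexp (((-(2 * Real.pi * t * sh (‖z‖ ^ 2) L) : ℝ) : ℂ) * I)) *
        (conj (cexp (((-(2 * Real.pi * t * sh (‖w + h‖ ^ 2) L) : ℝ) : ℂ) * I)) *
        cexp (((-(2 * Real.pi * t * sh (‖w‖ ^ 2) L) : ℝ) : ℂ) * I)) := by
    rw [← Complex.exp_conj, ← Complex.exp_conj, ← Complex.exp_add, ← Complex.exp_add,
      ← Complex.exp_add]
    congr 1
    unfold GG
    simp only [map_mul, Complex.conj_ofReal, Complex.conj_I]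
    push_cast
    ring
  rw [e]
  unfold kk gm am
  simp only [map_mul, Complex.conj_ofReal, Complex.conj_conj]
  push_cast
  ring

/-- time measure -/
noncomputable def mt (R : ℝ) : Measure ℝ := volume.withDensity fun t => ENNReal.ofReal (wt R t)

/-- dilation measure -/
noncomputable def mL (a b : ℝ) : Measure ℝ :=
  (volume.restrict (Ioc a b)).withDensity fun L => ENNReal.ofReal (chi a b L)

lemma chi_nn (a b L : ℝ) : 0 ≤ chi a b L := by
  unfold chi
  positivity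

lemma chi_cont (a b : ℝ) : Continuous (chi a b) := by
  unfold chi
  fun_prop

lemma mt_fin (R : ℝ) (hR : 0 < R) : IsFiniteMeasure (mt R) := by
  refine ⟨?_⟩
  unfold mt
  rw [withDensity_apply _ MeasurableSet.univ, Measure.restrict_univ,
    ← ofReal_integral_eq_lintegral_ofReal (wt_int R hR) (ae_of_all _ fun t => wt_nn R t)]
  exact ENNReal.ofReal_lt_top

lemma mL_fin (ha : 0 ≤ a) (hb : b < 1) : IsFiniteMeasure (mL a b) := by
  refine ⟨?_⟩
  unfold mL
  rw [withDensity_apply _ MeasurableSet.univ, Measure.restrict_univ]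
  calc ∫⁻ L in Ioc a b, ENNReal.ofReal (chi a b L) ≤ ∫⁻ L in Ioc a b, ENNReal.ofReal 6 := by
        apply setLIntegral_mono' measurableSet_Ioc
        intro L hL
        apply ENNReal.ofReal_le_ofReal
        exact (le_abs_self _).trans ((chi_C2b ha hb).b0 L ⟨hL.1.le, hL.2⟩)
    _ < ⊤ := by
        rw [lintegral_const, Measure.restrict_apply_univ, Real.volume_Ioc]
        exact ENNReal.mul_lt_top ENNReal.ofReal_lt_top ENNReal.ofReal_lt_top

/-- the integral over times and dilations -/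
lemma dbl_int (m : ℕ) (ha : 0 < a) (hab : a ≤ b) (hb : b < 1) {r1 r2 r3 r4 : ℝ}
    (h1 : r1 ∈ Icc (0:ℝ) 1) (h2 : r2 ∈ Icc (0:ℝ) 1) (h3 : r3 ∈ Icc (0:ℝ) 1)
    (h4 : r4 ∈ Icc (0:ℝ) 1) {R : ℝ} (hR : 0 < R) :
    ∫ w, (Icc a b).indicator (fun L => ((am m r1 r2 r3 r4 L : ℝ) : ℂ) *
      cexp (((-(2 * Real.pi * w.2 * GG r1 r2 r3 r4 L) : ℝ) : ℂ) * I)) w.1 ∂((mL a b).prod (mt R)) =
      ((-(R * ker a b m R r1 r2 r3 r4) : ℝ) : ℂ) := by
  have hfL := mL_fin (a := a) ha.le hb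
  have hft := mt_fin R hR
  obtain ⟨f1, f2, hf, -, -⟩ := e_C2b m ha.le hb h1 h2 h3 h4
  have hB := cB_nn b m
  have c1 := sh_C2b m ha.le hb h1.1 h1.2
  have c2 := sh_C2b m ha.le hb h2.1 h2.2
  have c3 := sh_C2b m ha.le hb h3.1 h3.2
  have c4 := sh_C2b m ha.le hb h4.1 h4.2
  have cc := C2b.mul (by positivity) (by positivity) (C2b.mul hB hB c1 c2) (C2b.mul hB hB c3 c4)
  have ham : ∀ L ∈ Icc a b, |am m r1 r2 r3 r4 L| ≤
      4 * (4 * cB b m * cB b m) * (4 * cB b m * cB b m) := cc.b0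
  have hmm : Measurable fun w : ℝ × ℝ => ((am m r1 r2 r3 r4 w.1 : ℝ) : ℂ) *
      cexp (((-(2 * Real.pi * w.2 * GG r1 r2 r3 r4 w.1) : ℝ) : ℂ) * I) := by
    have s : ∀ r : ℝ, Measurable fun w : ℝ × ℝ => sh r w.1 := fun r =>
      sh_meas measurable_const measurable_fst
    have g : Measurable fun w : ℝ × ℝ => GG r1 r2 r3 r4 w.1 :=
      (((s r1).add (s r2)).sub (s r3)).sub (s r4)
    have q : ∀ r : ℝ, Measurable fun w : ℝ × ℝ => 1 / sh r w.1 ^ m := fun r =>
      measurable_const.div ((s r).pow_const m)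
    have am' : Measurable fun w : ℝ × ℝ => am m r1 r2 r3 r4 w.1 :=
      ((q r1).mul (q r2)).mul ((q r3).mul (q r4))
    exact (Complex.measurable_ofReal.comp am').mul (Complex.measurable_exp.comp
      ((Complex.measurable_ofReal.comp ((measurable_const.mul measurable_snd).mul g).neg).mul
        measurable_const))
  have hind : ∀ w : ℝ × ℝ, (Icc a b).indicator (fun L => ((am m r1 r2 r3 r4 L : ℝ) : ℂ) *
      cexp (((-(2 * Real.pi * w.2 * GG r1 r2 r3 r4 L) : ℝ) : ℂ) * I)) w.1 =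
      (Icc a b ×ˢ univ).indicator (fun w : ℝ × ℝ => ((am m r1 r2 r3 r4 w.1 : ℝ) : ℂ) *
      cexp (((-(2 * Real.pi * w.2 * GG r1 r2 r3 r4 w.1) : ℝ) : ℂ) * I)) w := by
    intro w
    by_cases hw : w.1 ∈ Icc a b
    · rw [indicator_of_mem hw, indicator_of_mem (show w ∈ Icc a b ×ˢ univ from ⟨hw, mem_univ _⟩)]
    · rw [indicator_of_notMem hw, indicator_of_notMem (fun h => hw h.1)]
  simp only [hind]
  have hint : Integrable ((Icc a b ×ˢ univ).indicator (fun w : ℝ × ℝ =>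
      ((am m r1 r2 r3 r4 w.1 : ℝ) : ℂ) *
      cexp (((-(2 * Real.pi * w.2 * GG r1 r2 r3 r4 w.1) : ℝ) : ℂ) * I)))
      ((mL a b).prod (mt R)) := by
    refine Integrable.of_bound (hmm.indicator (measurableSet_Icc.prod
      MeasurableSet.univ)).aestronglyMeasurable
      (4 * (4 * cB b m * cB b m) * (4 * cB b m * cB b m)) (ae_of_all _ fun w => ?_)
    by_cases hw : w ∈ Icc a b ×ˢ (univ : Set ℝ)
    · rw [indicator_of_mem hw, norm_mul, Complex.norm_exp_ofReal_mul_I, mul_one,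
        Complex.norm_real, Real.norm_eq_abs]
      exact ham _ hw.1
    · rw [indicator_of_notMem hw, norm_zero]
      positivity
  rw [integral_prod _ hint]
  simp only [← hind]
  -- inner integral
  have inner : ∀ L ∈ Ioc a b, ∫ t, (Icc a b).indicator (fun L => ((am m r1 r2 r3 r4 L : ℝ) : ℂ) *
      cexp (((-(2 * Real.pi * t * GG r1 r2 r3 r4 L) : ℝ) : ℂ) * I)) L ∂(mt R) =
      ((-(R * (am m r1 r2 r3 r4 L * Ps2 (R * GG r1 r2 r3 r4 L))) : ℝ) : ℂ) := by
    intro L hL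
    have hL' : L ∈ Icc a b := ⟨hL.1.le, hL.2⟩
    simp only [indicator_of_mem hL']
    rw [integral_const_mul]
    have e1 : ∫ t, cexp (((-(2 * Real.pi * t * GG r1 r2 r3 r4 L) : ℝ) : ℂ) * I) ∂(mt R) =
        ∫ t, ((wt R t : ℝ) : ℂ) * cexp (((-(2 * Real.pi * t * GG r1 r2 r3 r4 L) : ℝ) : ℂ) * I) := by
      unfold mt
      rw [integral_withDensity_eq_integral_toReal_smul]
      · apply integral_congr_ae
        refine ae_of_all _ fun t => ?_
        simp only
        rw [ENNReal.toReal_ofReal (wt_nn R t), Complex.real_smul]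
      · exact (wt_cont R).measurable.ennreal_ofReal
      · exact ae_of_all _ fun t => ENNReal.ofReal_lt_top
    rw [e1, time_int R _ hR]
    push_cast
    ring
  unfold mL
  rw [integral_withDensity_eq_integral_toReal_smul (chi_cont a b).measurable.ennreal_ofReal
    (ae_of_all _ fun t => ENNReal.ofReal_lt_top)]
  have e2 : ∫ L in Ioc a b, (ENNReal.ofReal (chi a b L)).toReal •
      ∫ t, (Icc a b).indicator (fun L => ((am m r1 r2 r3 r4 L : ℝ) : ℂ) *
      cexp (((-(2 * Real.pi * t * GG r1 r2 r3 r4 L) : ℝ) : ℂ) * I)) L ∂(mt R) =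
      ∫ L in Ioc a b, (((-R) * (chi a b L * am m r1 r2 r3 r4 L * Ps2 (R * GG r1 r2 r3 r4 L)) : ℝ)
        : ℂ) := by
    apply setIntegral_congr_fun measurableSet_Ioc
    intro L hL
    simp only
    rw [inner L hL, ENNReal.toReal_ofReal (chi_nn a b L), Complex.real_smul]
    push_cast
    ring
  rw [e2]
  have e3 : ∫ L in Ioc a b, (((-R) * (chi a b L * am m r1 r2 r3 r4 L *
      Ps2 (R * GG r1 r2 r3 r4 L)) : ℝ) : ℂ) = ((∫ L in Ioc a b, (-R) * (chi a b L *
      am m r1 r2 r3 r4 L * Ps2 (R * GG r1 r2 r3 r4 L)) : ℝ) : ℂ) := integral_ofReal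
  rw [e3, integral_const_mul]
  unfold ker
  rw [intervalIntegral.integral_of_le hab]
  congr 1
  ring

end Pool.Agent.W777.DL
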