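import Mathlib
import Pool.Agent.W777.DL.Mom
set_option autoImplicit false

/-! The fourth moment theorem. -/

namespace Pool.Agent.W777.DL

open MeasureTheory Set Metric Complex FourierTransform
open scoped ENNReal RealInnerProductSpace ComplexConjugate
open Pool.Agent.H153R4 (E BS kk BB four cube cube_vol)

variable {a b : ℝ}

/-- modulated function, cut off in the dilation parameter -/
noncomputable def gi (a b : ℝ) (m : ℕ) (t L : ℝ) (f : E 2 → ℂ) (z : E 2) : ℂ :=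
  (Icc a b).indicator (fun L => gm m t L f z) L

lemma gi_of_mem {m : ℕ} {t L : ℝ} {f : E 2 → ℂ} (hL : L ∈ Icc a b) : gi a b m t L f = gm m t L f := by
  ext z
  unfold gi
  rw [indicator_of_mem hL]

lemma gi_of_not {m : ℕ} {t L : ℝ} {f : E 2 → ℂ} (hL : L ∉ Icc a b) : gi a b m t L f = 0 := by
  ext z
  unfold gi
  rw [indicator_of_notMem hL]
  rfl

lemma gi_meas (m : ℕ) {Y : Type*} [MeasurableSpace Y] {t L : Y → ℝ} {z : Y → E 2} {f : E 2 → ℂ}
    (ht : Measurable t) (hL : Measurable L) (hz : Measurable z) (hf : Measurable f) :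
    Measurable fun y => gi a b m (t y) (L y) f (z y) := by
  have h1 := gm_meas m ht hL hz hf
  have h2 : (fun y => gi a b m (t y) (L y) f (z y)) =
      (L ⁻¹' Icc a b).indicator fun y => gm m (t y) (L y) f (z y) := by
    ext y
    unfold gi
    by_cases hy : L y ∈ Icc a b
    · rw [indicator_of_mem hy, indicator_of_mem (show y ∈ L ⁻¹' Icc a b from hy)]
    · rw [indicator_of_notMem hy, indicator_of_notMem (show y ∉ L ⁻¹' Icc a b from hy)]
  rw [h2]
  exact h1.indicator (hL measurableSet_Icc)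

lemma gi_BS (m : ℕ) (t L : ℝ) {M : ℝ} (ha : 0 < a) (hb : b < 1) {f : E 2 → ℂ}
    (hf : DS M f) : BS (M / kp b ^ m) (gi a b m t L f) := by
  have hM : 0 ≤ M := (norm_nonneg _).trans (hf.bd 0)
  have hk := kp_pos hb
  by_cases hL : L ∈ Icc a b
  · rw [gi_of_mem hL]
    exact gm_BS m t hb (ha.le.trans hL.1) hL.2 hf
  · rw [gi_of_not hL]
    refine ⟨measurable_const, fun z => ?_, fun z _ => rfl⟩
    simp only [Pi.zero_apply, norm_zero]
    positivity

lemma gi_supp (m : ℕ) (t L : ℝ) {M : ℝ} {f : E 2 → ℂ} (hf : DS M f) {z : E 2} (hz : 1 < ‖z‖) :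
    gi a b m t L f z = 0 := by
  unfold gi
  by_cases hL : L ∈ Icc a b
  · rw [indicator_of_mem hL]
    unfold gm
    rw [hf.supp z hz, mul_zero]
  · rw [indicator_of_notMem hL]

/-- unit disc -/
def D1 : Set (E 2) := closedBall 0 1

lemma D1_meas : MeasurableSet D1 := isClosed_closedBall.measurableSet

lemma BB_D1 (m : ℕ) (t L : ℝ) {M : ℝ} {f : E 2 → ℂ} (hf : DS M f) (h : E 2) :
    BB (gi a b m t L f) h = ∫ z in D1, kk (gi a b m t L f) h z := by
  unfold BB
  rw [← integral_indicator D1_meas]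
  congr 1
  ext z
  by_cases hz : z ∈ D1
  · rw [indicator_of_mem hz]
  · rw [indicator_of_notMem hz]
    have : 1 < ‖z‖ := by
      by_contra hc
      push Not at hc
      exact hz (by simpa [D1] using hc)
    unfold kk
    rw [gi_supp m t L hf this]
    simp

/-- geometric identities -/
lemma m1_eq (h z w : E 2) : (‖z + h‖ ^ 2 + ‖w‖ ^ 2 - ‖z‖ ^ 2 - ‖w + h‖ ^ 2) / 2 = ⟪h, z - w⟫ := by
  rw [norm_add_sq_real, norm_add_sq_real, inner_sub_right, real_inner_comm z h,
    real_inner_comm w h]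
  ring

lemma m2_eq (h z w : E 2) : ⟪h, z - w⟫ * ((‖z + h‖ ^ 2 + ‖w‖ ^ 2 + ‖z‖ ^ 2 + ‖w + h‖ ^ 2) / 2) -
    (‖z + h‖ ^ 2 * ‖w‖ ^ 2 - ‖z‖ ^ 2 * ‖w + h‖ ^ 2) =
    ⟪z + w + h, h⟫ * ⟪z + w + h, z - w⟫ := by
  rw [norm_add_sq_real, norm_add_sq_real]
  simp only [inner_sub_right, inner_add_left, real_inner_self_eq_norm_sq]
  rw [real_inner_comm w h, real_inner_comm z h, real_inner_comm z w]
  ring

/-- the majorant -/
noncomputable def PP (th : ℝ) (h x g : E 2) : ℝ≥0∞ :=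
  (B2.indicator (fun _ => (1 : ℝ≥0∞)) h * B2.indicator (fun _ => (1 : ℝ≥0∞)) x *
    B2.indicator (fun _ => (1 : ℝ≥0∞)) g) * (W th ⟪h, x⟫ * W th ⟪g, h⟫ * W th ⟪g, x⟫)

lemma PP_meas (th : ℝ) {Y : Type*} [MeasurableSpace Y] {h x g : Y → E 2} (hh : Measurable h)
    (hx : Measurable x) (hg : Measurable g) : Measurable fun y => PP th (h y) (x y) (g y) := by
  have hi : Measurable (B2.indicator (fun _ => (1 : ℝ≥0∞))) := measurable_const.indicator B2_meas
  unfold PP
  exact (((hi.comp hh).mul (hi.comp hx)).mul (hi.comp hg)).mul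
    ((((W_meas th).comp (hh.inner hx)).mul ((W_meas th).comp (hg.inner hh))).mul
      ((W_meas th).comp (hg.inner hx)))

/-- pointwise bound of the kernel -/
lemma pt_ker (m : ℕ) (ha : 0 < a) (hab : a ≤ b) (hb : b < 1) (th : ℝ) (hth0 : 0 < th)
    (hth1 : th < 1) : ∃ K : ℝ, 0 < K ∧ ∀ (R : ℝ), 0 < R → ∀ (M : ℝ) (f : E 2 → ℂ), DS M f →
      ∀ h z w : E 2,
      ‖∫ v, kk (gi a b m v.2 v.1 f) h z * conj (kk (gi a b m v.2 v.1 f) h w)
        ∂((mL a b).prod (mt R))‖ₑ ≤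
      (ENNReal.ofReal M ^ 4 * ENNReal.ofReal (K * R ^ (1 - 2 * th))) *
        PP th h (z - w) (z + w + h) := by
  obtain ⟨K, hK0, hK⟩ := ker_final m ha hab hb th hth0 hth1
  refine ⟨K + 1, by linarith, ?_⟩
  intro R hR M f hf h z w
  have hM : 0 ≤ M := (norm_nonneg _).trans (hf.bd 0)
  set F := f (z + h) * conj (f z) * (conj (f (w + h)) * f w) with hF
  have e1 : ∀ v : ℝ × ℝ, kk (gi a b m v.2 v.1 f) h z * conj (kk (gi a b m v.2 v.1 f) h w) =
      F * (Icc a b).indicator (fun L => ((am m (‖z + h‖ ^ 2) (‖w‖ ^ 2) (‖z‖ ^ 2) (‖w + h‖ ^ 2) L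
        : ℝ) : ℂ) * cexp (((-(2 * Real.pi * v.2 * GG (‖z + h‖ ^ 2) (‖w‖ ^ 2) (‖z‖ ^ 2)
          (‖w + h‖ ^ 2) L) : ℝ) : ℂ) * I)) v.1 := by
    intro v
    by_cases hv : v.1 ∈ Icc a b
    · rw [gi_of_mem hv, four_prod, indicator_of_mem hv]
    · rw [gi_of_not hv, indicator_of_notMem hv]
      simp [kk]
  simp only [e1]
  rw [integral_const_mul, enorm_mul]
  by_cases hF0 : F = 0
  · rw [hF0]
    simp
  have n1 : ‖z + h‖ ≤ 1 := by
    by_contra hc
    push Not at hc
    exact hF0 (by rw [hF, hf.supp _ hc]; ring)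
  have n2 : ‖w‖ ≤ 1 := by
    by_contra hc
    push Not at hc
    exact hF0 (by rw [hF, hf.supp w hc]; ring)
  have n3 : ‖z‖ ≤ 1 := by
    by_contra hc
    push Not at hc
    exact hF0 (by rw [hF, hf.supp z hc]; simp)
  have n4 : ‖w + h‖ ≤ 1 := by
    by_contra hc
    push Not at hc
    exact hF0 (by rw [hF, hf.supp _ hc]; simp)
  have q : ∀ u : E 2, ‖u‖ ≤ 1 → ‖u‖ ^ 2 ∈ Icc (0:ℝ) 1 := fun u hu =>
    ⟨by positivity, pow_le_one₀ (norm_nonneg u) hu⟩
  rw [dbl_int m ha hab hb (q _ n1) (q _ n2) (q _ n3) (q _ n4) hR]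
  have hFn : ‖F‖ₑ ≤ ENNReal.ofReal M ^ 4 := by
    rw [← ENNReal.ofReal_pow hM, ← ofReal_norm]
    apply ENNReal.ofReal_le_ofReal
    rw [hF, norm_mul, norm_mul, norm_mul, RCLike.norm_conj, RCLike.norm_conj]
    calc ‖f (z + h)‖ * ‖f z‖ * (‖f (w + h)‖ * ‖f w‖) ≤ M * M * (M * M) := by
          apply mul_le_mul _ _ (by positivity) (by positivity)
          · exact mul_le_mul (hf.bd _) (hf.bd _) (norm_nonneg _) hM
          · exact mul_le_mul (hf.bd _) (hf.bd _) (norm_nonneg _) hM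
      _ = M ^ 4 := by ring
  rw [mul_assoc]
  apply mul_le_mul' hFn
  -- membership in the balls
  have b1 : h ∈ B2 := by
    have : h = (z + h) - z := by abel
    have h5 : ‖h‖ ≤ 2 := by
      calc ‖h‖ = ‖(z + h) - z‖ := by rw [← this]
        _ ≤ ‖z + h‖ + ‖z‖ := norm_sub_le _ _
        _ ≤ 2 := by linarith
    simpa [B2] using h5
  have b2 : z - w ∈ B2 := by
    have h5 : ‖z - w‖ ≤ 2 := (norm_sub_le _ _).trans (by linarith)
    simpa [B2] using h5
  have b3 : z + w + h ∈ B2 := by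
    have : z + w + h = (z + h) + w := by abel
    have h5 : ‖z + w + h‖ ≤ 2 := by
      rw [this]
      exact (norm_add_le _ _).trans (by linarith)
    simpa [B2] using h5
  unfold PP
  rw [indicator_of_mem b1, indicator_of_mem b2, indicator_of_mem b3, one_mul, one_mul, one_mul]
  have hCpos : 0 < ENNReal.ofReal ((K + 1) * R ^ (1 - 2 * th)) :=
    ENNReal.ofReal_pos.2 (by positivity)
  have hWne : ∀ r, W th r ≠ 0 := fun r => (W_pos th r hth0.le).ne'
  by_cases z1 : ⟪h, z - w⟫ = 0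
  · rw [z1, W_zero hth0, ENNReal.top_mul (hWne _), ENNReal.top_mul (hWne _),
      ENNReal.mul_top hCpos.ne']
    exact le_top
  by_cases z2 : ⟪z + w + h, h⟫ = 0
  · rw [z2, W_zero hth0, ENNReal.mul_top (hWne _), ENNReal.top_mul (hWne _),
      ENNReal.mul_top hCpos.ne']
    exact le_top
  by_cases z3 : ⟪z + w + h, z - w⟫ = 0
  · rw [z3, W_zero hth0, ENNReal.mul_top (mul_ne_zero (hWne _) (hWne _)),
      ENNReal.mul_top hCpos.ne']
    exact le_top
  have hk := hK _ (q _ n1) _ (q _ n2) _ (q _ n3) _ (q _ n4) R hR ⟪h, z - w⟫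
    (⟪z + w + h, h⟫ * ⟪z + w + h, z - w⟫) (m1_eq h z w).symm (m2_eq h z w).symm z1
    (mul_ne_zero z2 z3)
  have e2 : W th ⟪h, z - w⟫ * W th ⟪z + w + h, h⟫ * W th ⟪z + w + h, z - w⟫ =
      ENNReal.ofReal (|⟪h, z - w⟫| ^ (-th) * |⟪z + w + h, h⟫ * ⟪z + w + h, z - w⟫| ^ (-th)) := by
    rw [mul_assoc, ← W_mul, W_of_ne z1, W_of_ne (mul_ne_zero z2 z3),
      ENNReal.ofReal_mul (by positivity)]
  rw [e2, ← ENNReal.ofReal_mul (by positivity), ← ofReal_norm]
  apply ENNReal.ofReal_le_ofReal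
  rw [Complex.norm_real, Real.norm_eq_abs, abs_neg, abs_mul, abs_of_pos hR]
  have e3 : R ^ (1 - 2 * th) = R * R ^ (-(2 * th)) := by
    nth_rw 2 [← Real.rpow_one R]
    rw [← Real.rpow_add hR]
    congr 1
  rw [e3]
  set Y := |⟪h, z - w⟫| ^ (-th) * |⟪z + w + h, h⟫ * ⟪z + w + h, z - w⟫| ^ (-th)
  have hY : 0 ≤ Y := by positivity
  have hR2 : 0 ≤ R ^ (-(2 * th)) := by positivity
  calc R * |ker a b m R (‖z + h‖ ^ 2) (‖w‖ ^ 2) (‖z‖ ^ 2) (‖w + h‖ ^ 2)| ≤
      R * (K * R ^ (-(2 * th)) * Y) := by gcongr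
    _ ≤ R * ((K + 1) * R ^ (-(2 * th)) * Y) := by
        gcongr
        linarith
    _ = _ := by ring

lemma BBi_meas (m : ℕ) {f : E 2 → ℂ} (hf : Measurable f) :
    Measurable fun p : (ℝ × ℝ) × E 2 => BB (gi a b m p.1.2 p.1.1 f) p.2 := by
  unfold BB
  have h1 : Measurable fun r : ((ℝ × ℝ) × E 2) × E 2 =>
      kk (gi a b m r.1.1.2 r.1.1.1 f) r.1.2 r.2 := by
    unfold kk
    exact (gi_meas m (by fun_prop) (by fun_prop) (by fun_prop) hf).mul
      (continuous_conj.measurable.comp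
        (gi_meas m (by fun_prop) (by fun_prop) (by fun_prop) hf))
  exact (h1.stronglyMeasurable.integral_prod_right' (ν := volume)).measurable

theorem mom4 (m : ℕ) (ha : 0 < a) (hab : a ≤ b) (hb : b < 1) (th : ℝ) (hth0 : 0 < th)
    (hth1 : th < 1) : ∃ C : ℝ≥0∞, C < ⊤ ∧ ∀ (R : ℝ), 0 < R → ∀ (M : ℝ) (f : E 2 → ℂ), DS M f →
      ∫⁻ v, (∫⁻ x, ‖𝓕 (gi a b m v.2 v.1 f) x‖ₑ ^ 4) ∂((mL a b).prod (mt R)) ≤
        C * ENNReal.ofReal (R ^ (1 - 2 * th)) * ENNReal.ofReal M ^ 4 := by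
  obtain ⟨K, hK0, hK⟩ := pt_ker m ha hab hb th hth0 hth1
  refine ⟨ENNReal.ofReal K * (ENNReal.ofReal (2 ^ th) * (3 * CJ th ^ 3)), ?_, ?_⟩
  · refine ENNReal.mul_lt_top ENNReal.ofReal_lt_top (ENNReal.mul_lt_top ENNReal.ofReal_lt_top
      (ENNReal.mul_lt_top (by norm_num) (ENNReal.pow_lt_top (CJ_fin hth1))))
  intro R hR M f hf
  have hfL := mL_fin (a := a) ha.le hb
  have hft := mt_fin R hR
  have hM : 0 ≤ M := (norm_nonneg _).trans (hf.bd 0)
  have hk := kp_pos hb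
  have e1 : ∀ v : ℝ × ℝ, ∫⁻ x, ‖𝓕 (gi a b m v.2 v.1 f) x‖ₑ ^ 4 =
      ∫⁻ h, ‖BB (gi a b m v.2 v.1 f) h‖ₑ ^ 2 := fun v => four (gi_BS m v.2 v.1 ha hb hf)
  simp only [e1]
  rw [lintegral_lintegral_swap ((BBi_meas m hf.meas).enorm.pow_const 2).aemeasurable]
  have hD : IsFiniteMeasure ((volume : Measure (E 2)).restrict D1) :=
    ⟨by rw [Measure.restrict_apply_univ]; exact measure_closedBall_lt_top⟩
  set A := ENNReal.ofReal M ^ 4 * ENNReal.ofReal (K * R ^ (1 - 2 * th)) with hA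
  have hh : ∀ h : E 2, ∫⁻ v, ‖BB (gi a b m v.2 v.1 f) h‖ₑ ^ 2 ∂((mL a b).prod (mt R)) ≤
      A * ∫⁻ x, ∫⁻ g, PP th h x g := by
    intro h
    simp only [BB_D1 m _ _ hf h]
    have hXm : Measurable (Function.uncurry fun (v : ℝ × ℝ) (z : E 2) =>
        kk (gi a b m v.2 v.1 f) h z) := by
      unfold kk
      exact (gi_meas m (by fun_prop) (by fun_prop) (by fun_prop) hf.meas).mul
        (continuous_conj.measurable.comp
          (gi_meas m (by fun_prop) (by fun_prop) (by fun_prop) hf.meas))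
    have hXb : ∀ (v : ℝ × ℝ) (z : E 2), ‖kk (gi a b m v.2 v.1 f) h z‖ ≤ (M / kp b ^ m) ^ 2 :=
      fun v z => ((gi_BS m v.2 v.1 ha hb hf).kk h).bd z
    refine (tt _ _ _ _ hXm hXb).trans ?_
    calc ∫⁻ z in D1, ∫⁻ w in D1, ‖∫ v, kk (gi a b m v.2 v.1 f) h z *
          conj (kk (gi a b m v.2 v.1 f) h w) ∂((mL a b).prod (mt R))‖ₑ
        ≤ ∫⁻ z in D1, ∫⁻ w in D1, A * PP th h (z - w) (z + w + h) := by
          apply lintegral_mono
          intro z
          apply lintegral_mono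
          intro w
          exact hK R hR M f hf h z w
      _ ≤ ∫⁻ z, ∫⁻ w, A * PP th h (z - w) (z + w + h) := by
          refine (setLIntegral_le_lintegral _ _).trans ?_
          exact lintegral_mono fun z => setLIntegral_le_lintegral _ _
      _ = A * ∫⁻ z, ∫⁻ w, PP th h (z - w) (z + w + h) := by
          have a1 : ∀ z : E 2, ∫⁻ w, A * PP th h (z - w) (z + w + h) =
              A * ∫⁻ w, PP th h (z - w) (z + w + h) := fun z =>
            lintegral_const_mul _ (PP_meas th measurable_const (by fun_prop) (by fun_prop))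
          simp only [a1]
          refine lintegral_const_mul _ ?_
          have a2 : Measurable fun p : E 2 × E 2 => PP th h (p.1 - p.2) (p.1 + p.2 + h) :=
            PP_meas th measurable_const (by fun_prop) (by fun_prop)
          exact a2.lintegral_prod_right'
      _ ≤ A * ∫⁻ x, ∫⁻ g, PP th h x g := by
          refine mul_le_mul' le_rfl ?_
          exact cov (fun x g => PP th h x g) (PP_meas th measurable_const measurable_fst
            measurable_snd) h
  refine (lintegral_mono hh).trans ?_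
  have hin : ∀ h : E 2, ∫⁻ x, ∫⁻ g, PP th h x g =
      B2.indicator (fun h => ∫⁻ x in B2, ∫⁻ g in B2, W th ⟪h, x⟫ * W th ⟪g, h⟫ * W th ⟪g, x⟫) h := by
    intro h
    by_cases hh : h ∈ B2
    · rw [indicator_of_mem hh, ← lintegral_indicator B2_meas]
      apply lintegral_congr
      intro x
      by_cases hx : x ∈ B2
      · rw [indicator_of_mem hx, ← lintegral_indicator B2_meas]
        apply lintegral_congr
        intro g
        unfold PP
        rw [indicator_of_mem hh, indicator_of_mem hx]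
        by_cases hg : g ∈ B2
        · rw [indicator_of_mem hg, indicator_of_mem hg]
          ring
        · rw [indicator_of_notMem hg, indicator_of_notMem hg]
          ring
      · rw [indicator_of_notMem hx]
        unfold PP
        rw [indicator_of_notMem hx]
        simp
    · rw [indicator_of_notMem hh]
      unfold PP
      rw [indicator_of_notMem hh]
      simp
  have hPm : Measurable fun h : E 2 => ∫⁻ x, ∫⁻ g, PP th h x g := by
    have a2 : Measurable fun p : (E 2 × E 2) × E 2 => PP th p.1.1 p.1.2 p.2 :=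
      PP_meas th (by fun_prop) (by fun_prop) (by fun_prop)
    exact a2.lintegral_prod_right'.lintegral_prod_right'
  rw [lintegral_const_mul _ hPm]
  simp only [hin]
  rw [lintegral_indicator B2_meas]
  refine (mul_le_mul' le_rfl (triple_int th hth0)).trans (le_of_eq ?_)
  rw [hA, ENNReal.ofReal_mul hK0.le]
  ring

end Pool.Agent.W777.DL
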