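import Mathlib
import Pool.Agent.W777.DL.Mom2
set_option autoImplicit false

/-! The fourth moment on dyadic time intervals. -/

namespace Pool.Agent.W777.DL

open MeasureTheory Set Metric Complex FourierTransform
open scoped ENNReal RealInnerProductSpace ComplexConjugate
open Pool.Agent.H153R4 (E BS ST ST_meas ST_vol cube cube_vol)

/-- fourth moment in space -/
noncomputable def Q4 (m : ℕ) (t L : ℝ) (f : E 2 → ℂ) : ℝ≥0∞ := ∫⁻ x, ‖𝓕 (gm m t L f) x‖ₑ ^ 4

/-- fourth moment on a dyadic time interval -/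
noncomputable def Dm (m : ℕ) (T L : ℝ) (f : E 2 → ℂ) : ℝ≥0∞ := ∫⁻ t in ST T, Q4 m t L f

lemma Fgm_meas (m : ℕ) {f : E 2 → ℂ} (hf : Measurable f) :
    Measurable fun q : (ℝ × ℝ) × E 2 => 𝓕 (gm m q.1.2 q.1.1 f) q.2 := by
  simp only [Real.fourier_eq]
  have h1 : Measurable fun r : ((ℝ × ℝ) × E 2) × E 2 =>
      Real.fourierChar (-⟪r.2, r.1.2⟫) • gm m r.1.1.2 r.1.1.1 f r.2 := by
    have hin : Measurable fun r : ((ℝ × ℝ) × E 2) × E 2 => -⟪r.2, r.1.2⟫ := by fun_prop
    have hk : Measurable fun r : ((ℝ × ℝ) × E 2) × E 2 => gm m r.1.1.2 r.1.1.1 f r.2 :=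
      gm_meas m (by fun_prop) (by fun_prop) (by fun_prop) hf
    have hc : Measurable fun r : ((ℝ × ℝ) × E 2) × E 2 =>
        ((Real.fourierChar (-⟪r.2, r.1.2⟫) : Circle) : ℂ) :=
      (continuous_subtype_val.comp Real.continuous_fourierChar).measurable.comp hin
    exact hc.mul hk
  exact (h1.stronglyMeasurable.integral_prod_right' (ν := volume)).measurable

lemma Fgm4_meas (m : ℕ) {f : E 2 → ℂ} (hf : Measurable f) :
    Measurable fun q : ℝ × ℝ => Q4 m q.2 q.1 f :=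
  ((Fgm_meas m hf).enorm.pow_const 4).lintegral_prod_right'

lemma Q4_meas (m : ℕ) (L : ℝ) {f : E 2 → ℂ} (hf : Measurable f) :
    Measurable fun t : ℝ => Q4 m t L f := by
  have h := Fgm4_meas m hf
  exact Measurable.of_uncurry_left (f := fun L t : ℝ => Q4 m t L f) (x := L) h

lemma Dm_meas (m : ℕ) (T : ℝ) {f : E 2 → ℂ} (hf : Measurable f) :
    Measurable fun L => Dm m T L f := by
  have h := Fgm4_meas m hf
  exact h.lintegral_prod_right'

variable {a b : ℝ}

lemma mt_lower (T : ℝ) (hT : 0 < T) (g : ℝ → ℝ≥0∞) (hg : Measurable g) :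
    ENNReal.ofReal (Real.exp (-(4 * Real.pi))) * ∫⁻ t in ST T, g t ≤ ∫⁻ t, g t ∂(mt T) := by
  unfold mt
  rw [lintegral_withDensity_eq_lintegral_mul _ (wt_cont T).measurable.ennreal_ofReal hg]
  refine le_trans ?_ (setLIntegral_le_lintegral (ST T) _)
  rw [← lintegral_const_mul _ hg]
  apply setLIntegral_mono' (ST_meas T)
  intro t ht
  simp only [Pi.mul_apply]
  exact mul_le_mul' (ENNReal.ofReal_le_ofReal (wt_low T t hT ht.1 ht.2)) le_rfl

lemma mL_lower {a' b' : ℝ} (haa : a < a') (hbb : b' < b) (g : ℝ → ℝ≥0∞) (hg : Measurable g) :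
    ENNReal.ofReal (((a' - a) * (b - b')) ^ 2) * ∫⁻ L in Icc a' b', g L ≤
      ∫⁻ L, g L ∂(mL a b) := by
  unfold mL
  rw [lintegral_withDensity_eq_lintegral_mul _ (chi_cont a b).measurable.ennreal_ofReal hg]
  have hsub : Icc a' b' ⊆ Ioc a b := fun L hL => ⟨by linarith [hL.1], by linarith [hL.2]⟩
  refine le_trans ?_ (lintegral_mono_set hsub)
  rw [← lintegral_const_mul _ hg]
  apply setLIntegral_mono' measurableSet_Icc
  intro L hL
  simp only [Pi.mul_apply]
  refine mul_le_mul' (ENNReal.ofReal_le_ofReal ?_) le_rfl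
  unfold chi
  have a1 : 0 ≤ a' - a := by linarith
  have a2 : 0 ≤ b - b' := by linarith
  have a3 : a' - a ≤ L - a := by linarith [hL.1]
  have a4 : b - b' ≤ b - L := by linarith [hL.2]
  have a5 : 0 ≤ L - a := a1.trans a3
  gcongr

lemma Q4_gi (m : ℕ) (L t : ℝ) (f : E 2 → ℂ) :
    ∫⁻ x, ‖𝓕 (gi a b m t L f) x‖ₑ ^ 4 = (Icc a b).indicator (fun L => Q4 m t L f) L := by
  by_cases hv : L ∈ Icc a b
  · rw [indicator_of_mem hv, gi_of_mem hv]
    rfl
  · rw [indicator_of_notMem hv, gi_of_not hv]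
    have e0 : 𝓕 (0 : E 2 → ℂ) = 0 := by
      ext x
      simp [Real.fourier_eq]
    simp [e0]

theorem Dm_avg (m : ℕ) (ha : 0 < a) (hb : b < 1) {a' b' : ℝ} (haa : a < a') (hab : a' ≤ b')
    (hbb : b' < b) (th : ℝ) (hth0 : 0 < th) (hth1 : th < 1) :
    ∃ C : ℝ≥0∞, C < ⊤ ∧ ∀ (T : ℝ), 0 < T → ∀ (M : ℝ) (f : E 2 → ℂ), DS M f →
      ∫⁻ L in Icc a' b', Dm m T L f ≤
        C * ENNReal.ofReal (T ^ (1 - 2 * th)) * ENNReal.ofReal M ^ 4 := by
  obtain ⟨C, hC, h⟩ := mom4 m ha (by linarith : a ≤ b) hb th hth0 hth1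
  set c1 := ((a' - a) * (b - b')) ^ 2 with hc1
  have hc1p : 0 < c1 := by
    have : 0 < a' - a := by linarith
    have : 0 < b - b' := by linarith
    positivity
  set c2 := Real.exp (-(4 * Real.pi)) with hc2
  have hc2p : 0 < c2 := Real.exp_pos _
  refine ⟨(ENNReal.ofReal (c1 * c2))⁻¹ * C, ?_, ?_⟩
  · refine ENNReal.mul_lt_top ?_ hC
    rw [ENNReal.inv_lt_top]
    exact ENNReal.ofReal_pos.2 (by positivity)
  intro T hT M f hf
  have hfL := mL_fin (a := a) ha.le hb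
  have hft := mt_fin T hT
  have h2 := h T hT M f hf
  simp only [Q4_gi] at h2
  have hgi : Measurable fun v : ℝ × ℝ => (Icc a b).indicator (fun L => Q4 m v.2 L f) v.1 := by
    have : (fun v : ℝ × ℝ => (Icc a b).indicator (fun L => Q4 m v.2 L f) v.1) =
        (Icc a b ×ˢ univ).indicator (fun v : ℝ × ℝ => Q4 m v.2 v.1 f) := by
      ext v
      by_cases hv : v.1 ∈ Icc a b
      · rw [indicator_of_mem (show v ∈ Icc a b ×ˢ univ from ⟨hv, mem_univ _⟩),
          indicator_of_mem hv]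
      · rw [indicator_of_notMem hv,
          indicator_of_notMem (show v ∉ Icc a b ×ˢ univ from fun h => hv h.1)]
    rw [this]
    exact (Fgm4_meas m hf.meas).indicator (measurableSet_Icc.prod MeasurableSet.univ)
  rw [lintegral_prod _ hgi.aemeasurable] at h2
  -- inner bound
  have hin : ∀ L ∈ Icc a' b', ENNReal.ofReal c2 * Dm m T L f ≤
      ∫⁻ t, (Icc a b).indicator (fun L => Q4 m t L f) L ∂(mt T) := by
    intro L hL
    have hL' : L ∈ Icc a b := ⟨by linarith [hL.1], by linarith [hL.2]⟩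
    simp only [indicator_of_mem hL']
    exact mt_lower T hT _ (Q4_meas m L hf.meas)
  have hout : ENNReal.ofReal c1 * (ENNReal.ofReal c2 * ∫⁻ L in Icc a' b', Dm m T L f) ≤
      ∫⁻ L, ∫⁻ t, (Icc a b).indicator (fun L => Q4 m t L f) L ∂(mt T) ∂(mL a b) := by
    have hm : Measurable fun L : ℝ => ∫⁻ t, (Icc a b).indicator (fun L => Q4 m t L f) L ∂(mt T) :=
      hgi.lintegral_prod_right'
    refine le_trans ?_ (mL_lower haa hbb _ hm)
    refine mul_le_mul' le_rfl ?_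
    rw [← lintegral_const_mul _ (Dm_meas m T hf.meas)]
    apply setLIntegral_mono' measurableSet_Icc
    intro L hL
    exact hin L hL
  have h3 := hout.trans h2
  rw [← mul_assoc, ← ENNReal.ofReal_mul hc1p.le] at h3
  have hne : ENNReal.ofReal (c1 * c2) ≠ 0 := (ENNReal.ofReal_pos.2 (by positivity)).ne'
  calc ∫⁻ L in Icc a' b', Dm m T L f =
        (ENNReal.ofReal (c1 * c2))⁻¹ * (ENNReal.ofReal (c1 * c2) *
          ∫⁻ L in Icc a' b', Dm m T L f) := by
        rw [← mul_assoc, ENNReal.inv_mul_cancel hne ENNReal.ofReal_ne_top, one_mul]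
    _ ≤ (ENNReal.ofReal (c1 * c2))⁻¹ *
        (C * ENNReal.ofReal (T ^ (1 - 2 * th)) * ENNReal.ofReal M ^ 4) := by gcongr
    _ = _ := by ring

end Pool.Agent.W777.DL
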