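import Mathlib
import Pool.Agent.W777.DL.Sob
import Pool.Agent.W777.DL.Dim
import Pool.Agent.H153R4.Block
set_option autoImplicit false

/-! From decay of the dyadic fourth moments to integrability. -/

namespace Pool.Agent.W777.DL

open MeasureTheory Set Metric Complex FourierTransform Filter
open scoped ENNReal RealInnerProductSpace ComplexConjugate Topology
open Pool.Agent.H153R4 (E BS ST ST_meas ST_vol cube cube_vol)

lemma two_bd (m : ℕ) (t : ℝ) {L M : ℝ} (hL0 : 0 ≤ L) (hL1 : L < 1) {f : E 2 → ℂ} (hf : DS M f) :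
    ∫⁻ x, ‖𝓕 (gm m t L f) x‖ₑ ^ 2 ≤ volume (cube 2) * ENNReal.ofReal ((M / kp L ^ m) ^ 2) := by
  have h := gm_BS m t hL1 hL0 le_rfl hf
  rw [Pool.Agent.H153R4.plancherel _ h.int (h.memLp 2)]
  exact h.l2

/-- the integral of the q-th power over a set of times -/
noncomputable def Nq (m : ℕ) (L q : ℝ) (f : E 2 → ℂ) (S : Set ℝ) : ℝ≥0∞ :=
  ∫⁻ t in S, ∫⁻ x, ‖𝓕 (gm m t L f) x‖ₑ ^ q

lemma PLx_meas (m : ℕ) (L : ℝ) {f : E 2 → ℂ} (hf : Measurable f) :
    Measurable fun p : ℝ × E 2 => ‖𝓕 (gm m p.1 L f) p.2‖ₑ := by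
  have h := (Fgm_meas m hf).comp
    (f := fun r : ℝ × E 2 => (((L, r.1) : ℝ × ℝ), r.2)) (by fun_prop)
  exact h.enorm

lemma Nq_fin (m : ℕ) {L M q : ℝ} (hL0 : 0 ≤ L) (hL1 : L < 1) (hq : 2 ≤ q) {f : E 2 → ℂ}
    (hf : DS M f) (S : Set ℝ) (hS : volume S ≠ ⊤) : Nq m L q f S < ⊤ := by
  set B := (volume (cube 2)).toReal * (M / kp L ^ m) with hB
  have hpt : ∀ t, ∫⁻ x, ‖𝓕 (gm m t L f) x‖ₑ ^ q ≤ ENNReal.ofReal B ^ (q - 2) *
      (volume (cube 2) * ENNReal.ofReal ((M / kp L ^ m) ^ 2)) := by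
    intro t
    have hb := gm_BS m t hL1 hL0 le_rfl hf
    calc ∫⁻ x, ‖𝓕 (gm m t L f) x‖ₑ ^ q ≤
          ∫⁻ x, ENNReal.ofReal B ^ (q - 2) * ‖𝓕 (gm m t L f) x‖ₑ ^ 2 := by
          apply lintegral_mono
          intro x
          simp only
          have e1 : ‖𝓕 (gm m t L f) x‖ₑ ^ q =
              ‖𝓕 (gm m t L f) x‖ₑ ^ (q - 2) * ‖𝓕 (gm m t L f) x‖ₑ ^ 2 := by
            rw [← ENNReal.rpow_natCast, ← ENNReal.rpow_add_of_nonneg _ _ (by linarith)
              (by norm_num)]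
            congr 1
            push_cast
            ring
          rw [e1]
          gcongr
          rw [← ofReal_norm]
          exact ENNReal.ofReal_le_ofReal (hb.fbd x)
      _ ≤ _ := by
          rw [lintegral_const_mul' _ _
            (ENNReal.rpow_ne_top_of_nonneg (by linarith) ENNReal.ofReal_ne_top)]
          gcongr
          exact two_bd m t hL0 hL1 hf
  unfold Nq
  refine lt_of_le_of_lt (lintegral_mono hpt) ?_
  rw [lintegral_const, Measure.restrict_apply_univ]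
  refine ENNReal.mul_lt_top (ENNReal.mul_lt_top ?_ ?_) hS.lt_top
  · exact (ENNReal.rpow_ne_top_of_nonneg (by linarith) ENNReal.ofReal_ne_top).lt_top
  · exact ENNReal.mul_lt_top (cube_vol 2) ENNReal.ofReal_lt_top

lemma Nq_interp (m : ℕ) {L M q T : ℝ} (hL0 : 0 ≤ L) (hL1 : L < 1) (hq2 : 2 ≤ q) (hq4 : q ≤ 4)
    (hT : 0 ≤ T) {f : E 2 → ℂ} (hf : DS M f) : Nq m L q f (ST T) ≤
      (ENNReal.ofReal (2 * T) * (volume (cube 2) * ENNReal.ofReal ((M / kp L ^ m) ^ 2))) ^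
        ((4 - q) / 2) * Dm m T L f ^ ((q - 2) / 2) := by
  have hm := PLx_meas m L hf.meas
  have h := Pool.Agent.H153R4.interp ((volume.restrict (ST T)).prod (volume : Measure (E 2)))
    _ hm q hq2 hq4
  rw [lintegral_prod _ (hm.pow_const q).aemeasurable,
    lintegral_prod _ (hm.pow_const 2).aemeasurable,
    lintegral_prod _ (hm.pow_const 4).aemeasurable] at h
  refine h.trans ?_
  have e4 : ∫⁻ t in ST T, ∫⁻ x, ‖𝓕 (gm m t L f) x‖ₑ ^ 4 = Dm m T L f := rfl
  simp only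
  rw [e4]
  gcongr
  refine (lintegral_mono fun t => two_bd m t hL0 hL1 hf).trans ?_
  rw [lintegral_const, Measure.restrict_apply_univ, mul_comm]
  gcongr
  exact ST_vol T hT

lemma cover_ST : (univ : Set ℝ) ⊆ Icc (-1) 1 ∪ ⋃ j : ℕ, ST ((2 ^ j : ℕ) : ℝ) := by
  intro t _
  rcases le_or_gt |t| 1 with h | h
  · left
    exact abs_le.1 h
  · right
    obtain ⟨n, hn1, hn2⟩ := exists_nat_pow_near (x := |t|) (y := (2:ℝ)) h.le (by norm_num)
    refine mem_iUnion.2 ⟨n, ?_, ?_⟩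
    · push_cast
      exact hn1
    · push_cast
      rw [pow_succ] at hn2
      linarith

theorem Nq_univ (m : ℕ) {L M q γ : ℝ} (hL0 : 0 ≤ L) (hL1 : L < 1) (hq2 : 2 < q) (hq4 : q ≤ 4)
    (hγ : (4 - q) / (q - 2) < γ) {f : E 2 → ℂ} (hf : DS M f)
    (hD : ∀ᶠ j : ℕ in atTop, Dm m ((2 ^ j : ℕ) : ℝ) L f ≤
      ENNReal.ofReal (((2 ^ j : ℕ) : ℝ) ^ (-γ))) :
    Nq m L q f univ < ⊤ := by
  obtain ⟨J, hJ⟩ := eventually_atTop.1 hD
  set K : ℝ≥0∞ := volume (cube 2) * ENNReal.ofReal ((M / kp L ^ m) ^ 2) with hK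
  have hKf : K ≠ ⊤ := ENNReal.mul_ne_top (cube_vol 2).ne ENNReal.ofReal_ne_top
  set A : ℝ≥0∞ := (2 * K) ^ ((4 - q) / 2) with hA
  have hAf : A < ⊤ := (ENNReal.rpow_ne_top_of_nonneg (by linarith)
    (ENNReal.mul_ne_top (by norm_num) hKf)).lt_top
  set ρ : ℝ := (2:ℝ) ^ ((4 - q) / 2 - γ * ((q - 2) / 2)) with hρ
  have hgeo : ∀ j, J ≤ j → Nq m L q f (ST ((2 ^ j : ℕ) : ℝ)) ≤ A * ENNReal.ofReal ρ ^ j := by
    intro j hj
    have hNpos : (0:ℝ) < ((2 ^ j : ℕ) : ℝ) := by positivity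
    refine (Nq_interp m hL0 hL1 hq2.le hq4 hNpos.le hf).trans ?_
    set N : ℝ := ((2 ^ j : ℕ) : ℝ) with hN
    have h1 := hJ j hj
    calc (ENNReal.ofReal (2 * N) * K) ^ ((4 - q) / 2) * Dm m N L f ^ ((q - 2) / 2)
        ≤ (ENNReal.ofReal (2 * N) * K) ^ ((4 - q) / 2) *
          ENNReal.ofReal (N ^ (-γ)) ^ ((q - 2) / 2) := by
          gcongr
      _ = A * (ENNReal.ofReal N ^ ((4 - q) / 2) * ENNReal.ofReal (N ^ (-γ)) ^ ((q - 2) / 2)) := by
          have e1 : ENNReal.ofReal (2 * N) * K = (2 * K) * ENNReal.ofReal N := by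
            rw [ENNReal.ofReal_mul (by norm_num)]
            have : ENNReal.ofReal 2 = 2 := by norm_num
            rw [this]
            ring
          rw [e1, ENNReal.mul_rpow_of_nonneg _ _ (by linarith), hA]
          ring
      _ = A * ENNReal.ofReal ρ ^ j := by
          congr 1
          rw [ENNReal.ofReal_rpow_of_pos hNpos, ENNReal.ofReal_rpow_of_pos (by positivity),
            ← ENNReal.ofReal_mul (by positivity), ← ENNReal.ofReal_pow (by positivity)]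
          congr 1
          have hNj : N = (2:ℝ) ^ (j : ℝ) := by
            rw [hN]
            push_cast
            rw [Real.rpow_natCast]
          rw [hρ, hNj, ← Real.rpow_natCast, ← Real.rpow_mul (by norm_num),
            ← Real.rpow_mul (by norm_num), ← Real.rpow_mul (by norm_num),
            ← Real.rpow_mul (by norm_num), ← Real.rpow_add (by norm_num)]
          congr 1
          ring
  have hρ1 : ENNReal.ofReal ρ < 1 := by
    rw [← ENNReal.ofReal_one, ENNReal.ofReal_lt_ofReal_iff zero_lt_one, hρ]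
    apply Real.rpow_lt_one_of_one_lt_of_neg (by norm_num)
    rw [div_lt_iff₀ (by linarith)] at hγ
    linarith
  have hsum : ∑' j : ℕ, Nq m L q f (ST ((2 ^ j : ℕ) : ℝ)) < ⊤ := by
    have h1 : ∀ j : ℕ, Nq m L q f (ST ((2 ^ j : ℕ) : ℝ)) ≤
        (if j ∈ Finset.range J then Nq m L q f (ST ((2 ^ j : ℕ) : ℝ)) else 0) +
          A * ENNReal.ofReal ρ ^ j := by
      intro j
      by_cases hj : j ∈ Finset.range J
      · rw [if_pos hj]
        exact le_self_add
      · rw [if_neg hj, zero_add]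
        exact hgeo j (by simpa using hj)
    refine lt_of_le_of_lt (ENNReal.tsum_le_tsum h1) ?_
    rw [ENNReal.tsum_add]
    refine ENNReal.add_lt_top.2 ⟨?_, ?_⟩
    · rw [tsum_eq_sum (s := Finset.range J) (fun j hj => if_neg hj)]
      refine ENNReal.sum_lt_top.2 fun j hj => ?_
      rw [if_pos hj]
      apply Nq_fin m hL0 hL1 hq2.le hf
      exact ne_top_of_le_ne_top ENNReal.ofReal_ne_top (ST_vol _ (by positivity))
    · rw [ENNReal.tsum_mul_left, ENNReal.tsum_geometric]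
      refine ENNReal.mul_lt_top hAf ?_
      rw [ENNReal.inv_lt_top, tsub_pos_iff_lt]
      exact hρ1
  have h2 : Nq m L q f univ ≤ Nq m L q f (Icc (-1) 1) +
      ∑' j : ℕ, Nq m L q f (ST ((2 ^ j : ℕ) : ℝ)) := by
    unfold Nq
    refine (lintegral_mono_set cover_ST).trans ?_
    refine (lintegral_union_le _ _ _).trans ?_
    gcongr
    exact lintegral_iUnion_le _ _
  refine lt_of_le_of_lt h2 (ENNReal.add_lt_top.2 ⟨?_, hsum⟩)
  apply Nq_fin m hL0 hL1 hq2.le hf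
  rw [Real.volume_Icc]
  exact ENNReal.ofReal_ne_top

end Pool.Agent.W777.DL
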