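import Mathlib
import Pool.Agent.H789R2.FR.Arch
set_option autoImplicit false

/-! The upper half sphere as a graph. -/

namespace Pool.Agent.W777.DL

open MeasureTheory Set Metric Complex
open scoped ENNReal RealInnerProductSpace Topology
open Pool.Agent.H789R2.FR (E sg sc pt measurable_sc measurable_pt measurable_vec3 arch cart_lint)

lemma measurable_vec2 : Measurable fun p : ℝ × ℝ => (!₂[p.1, p.2] : E 2) := by
  apply Measurable.comp (WithLp.measurable_toLp 2 _)
  rw [measurable_pi_iff]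
  intro i
  fin_cases i
  · exact measurable_fst
  · exact measurable_snd

lemma plane_lint (G : E 2 → ℝ≥0∞) (hG : Measurable G) :
    ∫⁻ y, G y = ∫⁻ p : ℝ × ℝ, G !₂[p.1, p.2] := by
  have h1 : ∫⁻ x : E 2, G x = ∫⁻ y : Fin 2 → ℝ, G (WithLp.toLp 2 y) :=
    ((PiLp.volume_preserving_toLp (Fin 2)).lintegral_comp hG).symm
  have h3 := (volume_preserving_finTwoArrow ℝ).symm
  have hG2 : Measurable fun y : Fin 2 → ℝ => G (WithLp.toLp 2 y) :=
    hG.comp (WithLp.measurable_toLp 2 _)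
  rw [h1, ← h3.lintegral_comp hG2]
  apply lintegral_congr
  intro q
  congr 1

lemma plane_polar (G : E 2 → ℝ≥0∞) (hG : Measurable G) :
    ∫⁻ y, G y = ∫⁻ r in Ioi (0 : ℝ), ∫⁻ φ in Ioo (-Real.pi) Real.pi,
      ENNReal.ofReal r * G !₂[r * Real.cos φ, r * Real.sin φ] := by
  rw [plane_lint G hG, ← lintegral_comp_polarCoord_symm, polarCoord_target,
    Measure.volume_eq_prod, setLIntegral_prod]
  · rfl
  · apply Measurable.aemeasurable
    apply Measurable.mul
    · exact measurable_fst.ennreal_ofReal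
    · refine (hG.comp measurable_vec2).comp ?_
      exact ((measurable_fst.mul (Real.measurable_cos.comp measurable_snd)).prodMk
        (measurable_fst.mul (Real.measurable_sin.comp measurable_snd)))

lemma sc_pos {r : ℝ} (hr : r ∈ Ioo (0:ℝ) 1) : 0 < sc r := by
  unfold sc
  apply Real.sqrt_pos.2
  nlinarith [hr.1, hr.2]

lemma sc_lt {r : ℝ} (hr : r ∈ Ioo (0:ℝ) 1) : sc r < 1 := by
  unfold sc
  rw [Real.sqrt_lt' one_pos]
  nlinarith [hr.1, hr.2]

lemma sc_sc {r : ℝ} (hr : r ∈ Ioo (0:ℝ) 1) : sc (sc r) = r := by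
  have h : sc r ^ 2 = 1 - r ^ 2 := by
    unfold sc
    exact Real.sq_sqrt (by nlinarith [hr.1, hr.2])
  have h2 : sc (sc r) = Real.sqrt (1 - sc r ^ 2) := rfl
  rw [h2, h, show 1 - (1 - r ^ 2) = r ^ 2 by ring, Real.sqrt_sq hr.1.le]

lemma sc_subst (H : ℝ → ℝ≥0∞) :
    ∫⁻ c in Ioo (0 : ℝ) 1, H c = ∫⁻ r in Ioo (0 : ℝ) 1, ENNReal.ofReal (r / sc r) * H (sc r) := by
  have himg : sc '' Ioo (0 : ℝ) 1 = Ioo (0 : ℝ) 1 := by
    ext c
    constructor
    · rintro ⟨r, hr, rfl⟩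
      exact ⟨sc_pos hr, sc_lt hr⟩
    · intro hc
      exact ⟨sc c, ⟨sc_pos hc, sc_lt hc⟩, sc_sc hc⟩
  have hinj : InjOn sc (Ioo (0 : ℝ) 1) := by
    intro x hx y hy hxy
    rw [← sc_sc hx, ← sc_sc hy, hxy]
  have hd : ∀ r ∈ Ioo (0:ℝ) 1, HasDerivWithinAt sc (-r / sc r) (Ioo 0 1) r := by
    intro r hr
    have h1 : HasDerivAt (fun r : ℝ => 1 - r ^ 2) (-(2 * r)) r := by
      have := (hasDerivAt_pow 2 r).const_sub 1
      exact this.congr_deriv (by norm_num)
    have hp : (0:ℝ) < 1 - r ^ 2 := by nlinarith [hr.1, hr.2]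
    have h2 := h1.sqrt hp.ne'
    refine (h2.congr_deriv ?_).hasDerivWithinAt
    have h3 : Real.sqrt (1 - r ^ 2) = sc r := rfl
    rw [h3]
    have := (sc_pos hr).ne'
    field_simp
  calc ∫⁻ c in Ioo (0 : ℝ) 1, H c = ∫⁻ c in sc '' Ioo (0 : ℝ) 1, H c := by rw [himg]
    _ = ∫⁻ r in Ioo (0 : ℝ) 1, ENNReal.ofReal |-r / sc r| * H (sc r) :=
        lintegral_image_eq_lintegral_abs_deriv_mul measurableSet_Ioo hd hinj H
    _ = _ := by
        apply setLIntegral_congr_fun measurableSet_Ioo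
        intro r hr
        simp only
        rw [neg_div, abs_neg, abs_of_pos (div_pos hr.1 (sc_pos hr))]

/-- the graph map -/
noncomputable def up (y : E 2) : E 3 := !₂[y 0, y 1, Real.sqrt (1 - ‖y‖ ^ 2)]

lemma up_meas : Measurable up := by
  unfold up
  have h0 : Measurable fun y : E 2 => y 0 := by fun_prop
  have h1 : Measurable fun y : E 2 => y 1 := by fun_prop
  have h2 : Measurable fun y : E 2 => Real.sqrt (1 - ‖y‖ ^ 2) :=
    (measurable_const.sub (measurable_norm.pow_const 2)).sqrt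
  exact measurable_vec3.comp (h0.prodMk (h1.prodMk h2))

lemma norm_v2 (r φ : ℝ) (hr : 0 ≤ r) : ‖(!₂[r * Real.cos φ, r * Real.sin φ] : E 2)‖ = r := by
  rw [EuclideanSpace.norm_eq]
  simp only [Fin.sum_univ_two, Real.norm_eq_abs, sq_abs]
  have : (!₂[r * Real.cos φ, r * Real.sin φ] : E 2).ofLp 0 ^ 2 +
      (!₂[r * Real.cos φ, r * Real.sin φ] : E 2).ofLp 1 ^ 2 = r ^ 2 := by
    simp only [Matrix.cons_val_zero, Matrix.cons_val_one]
    nlinarith [Real.sin_sq_add_cos_sq φ]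
  rw [this, Real.sqrt_sq hr]

lemma up_v2 {r φ : ℝ} (hr : r ∈ Ioo (0:ℝ) 1) :
    up (!₂[r * Real.cos φ, r * Real.sin φ] : E 2) = pt (sc r) φ := by
  unfold up pt
  rw [norm_v2 r φ hr.1.le, sc_sc hr]
  rfl

lemma up_norm {y : E 2} (hy : ‖y‖ ≤ 1) : ‖up y‖ = 1 := by
  rw [EuclideanSpace.norm_eq]
  simp only [Fin.sum_univ_three, Real.norm_eq_abs, sq_abs]
  have h1 : (up y).ofLp 0 = y 0 := rfl
  have h2 : (up y).ofLp 1 = y 1 := rfl
  have h3 : (up y).ofLp 2 = Real.sqrt (1 - ‖y‖ ^ 2) := rfl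
  rw [h1, h2, h3, Real.sq_sqrt (by nlinarith [norm_nonneg y])]
  rw [EuclideanSpace.norm_sq_eq]
  simp only [Fin.sum_univ_two, Real.norm_eq_abs, sq_abs]
  rw [show y 0 ^ 2 + y 1 ^ 2 + (1 - (y 0 ^ 2 + y 1 ^ 2)) = 1 by ring, Real.sqrt_one]

/-- Integration over the open upper half sphere. -/
theorem half_lint (F : E 3 → ℝ≥0∞) (hF : Measurable F) :
    ∫⁻ x in {x : E 3 | 0 < x 2}, F x ∂(sg 3) =
      ∫⁻ y in ball (0 : E 2) 1, ENNReal.ofReal (1 / Real.sqrt (1 - ‖y‖ ^ 2)) * F (up y) := by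
  have hS : MeasurableSet {x : E 3 | 0 < x 2} := measurableSet_lt measurable_const (by fun_prop)
  have hm : Measurable fun y : E 2 => ENNReal.ofReal (1 / Real.sqrt (1 - ‖y‖ ^ 2)) * F (up y) :=
    (measurable_const.div
      (measurable_const.sub (measurable_norm.pow_const 2)).sqrt).ennreal_ofReal.mul
      (hF.comp up_meas)
  have hFp : Measurable fun p : ℝ × ℝ => F (pt p.1 p.2) := hF.comp measurable_pt
  -- left side
  have hL : ∫⁻ x in {x : E 3 | 0 < x 2}, F x ∂(sg 3) =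
      ∫⁻ c in Ioo (0 : ℝ) 1, ∫⁻ φ in Ioo (-Real.pi) Real.pi, F (pt c φ) := by
    rw [← lintegral_indicator hS, arch _ (hF.indicator hS)]
    have e1 : ∀ c φ, {x : E 3 | 0 < x 2}.indicator F (pt c φ) =
        (Ioi (0:ℝ)).indicator (fun c => F (pt c φ)) c := by
      intro c φ
      by_cases hc : 0 < c
      · rw [indicator_of_mem (show c ∈ Ioi (0:ℝ) from hc),
          indicator_of_mem (show pt c φ ∈ {x : E 3 | 0 < x 2} from hc)]
      · rw [indicator_of_notMem (show c ∉ Ioi (0:ℝ) from hc),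
          indicator_of_notMem (show pt c φ ∉ {x : E 3 | 0 < x 2} from hc)]
    have e2 : ∀ c, ∫⁻ φ in Ioo (-Real.pi) Real.pi, {x : E 3 | 0 < x 2}.indicator F (pt c φ) =
        (Ioi (0:ℝ)).indicator (fun c => ∫⁻ φ in Ioo (-Real.pi) Real.pi, F (pt c φ)) c := by
      intro c
      simp only [e1]
      by_cases hc : 0 < c
      · simp only [indicator_of_mem (show c ∈ Ioi (0:ℝ) from hc)]
      · simp only [indicator_of_notMem (show c ∉ Ioi (0:ℝ) from hc), lintegral_zero]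
    simp only [e2]
    rw [lintegral_indicator measurableSet_Ioi, Measure.restrict_restrict measurableSet_Ioi]
    congr 2
    ext c
    simp only [mem_inter_iff, mem_Ioi, mem_Ioo]
    constructor
    · rintro ⟨h1, h2, h3⟩
      exact ⟨h1, h3⟩
    · rintro ⟨h1, h2⟩
      exact ⟨h1, by linarith, h2⟩
  rw [hL, sc_subst, ← lintegral_indicator measurableSet_ball,
    plane_polar _ (hm.indicator measurableSet_ball)]
  -- right side
  have e3 : ∀ r ∈ Ioi (0:ℝ), ∫⁻ φ in Ioo (-Real.pi) Real.pi, ENNReal.ofReal r *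
      (ball (0 : E 2) 1).indicator (fun y => ENNReal.ofReal (1 / Real.sqrt (1 - ‖y‖ ^ 2)) *
        F (up y)) !₂[r * Real.cos φ, r * Real.sin φ] =
      (Ioo (0:ℝ) 1).indicator (fun r => ENNReal.ofReal (r / sc r) *
        ∫⁻ φ in Ioo (-Real.pi) Real.pi, F (pt (sc r) φ)) r := by
    intro r hr
    by_cases h1 : r < 1
    · have hr' : r ∈ Ioo (0:ℝ) 1 := ⟨hr, h1⟩
      rw [indicator_of_mem hr', ← lintegral_const_mul' _ _ ENNReal.ofReal_ne_top]
      apply lintegral_congr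
      intro φ
      have hn := norm_v2 r φ (le_of_lt hr)
      rw [indicator_of_mem (show (!₂[r * Real.cos φ, r * Real.sin φ] : E 2) ∈ ball (0 : E 2) 1 by
        rw [mem_ball_zero_iff, hn]; exact h1), hn, up_v2 hr', ← mul_assoc,
        ← ENNReal.ofReal_mul (le_of_lt hr)]
      congr 2
      have h3 : Real.sqrt (1 - r ^ 2) = sc r := rfl
      rw [h3]
      ring
    · rw [indicator_of_notMem (fun h => h1 h.2)]
      rw [← lintegral_zero (μ := volume.restrict (Ioo (-Real.pi) Real.pi))]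
      apply lintegral_congr
      intro φ
      have hn := norm_v2 r φ (le_of_lt hr)
      rw [indicator_of_notMem (show (!₂[r * Real.cos φ, r * Real.sin φ] : E 2) ∉ ball (0 : E 2) 1 by
        rw [mem_ball_zero_iff, hn]; exact h1), mul_zero]
  rw [setLIntegral_congr_fun measurableSet_Ioi e3, lintegral_indicator measurableSet_Ioo,
    Measure.restrict_restrict measurableSet_Ioo]
  congr 2
  ext c
  simp only [mem_inter_iff, mem_Ioi, mem_Ioo]
  tauto

end Pool.Agent.W777.DL
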