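import Mathlib
import Pool.Agent.W777.DL.Sph
import Pool.Agent.W777.DL.Lq
set_option autoImplicit false

/-! The Fourier transform of dilated densities on the sphere. -/

namespace Pool.Agent.W777.DL

open MeasureTheory Set Metric Complex FourierTransform
open scoped ENNReal RealInnerProductSpace Topology
open Pool.Agent.H789R2.FR (E sg sc pt measurable_sc measurable_pt measurable_vec3 arch cart_lint)

/-- the upper half space -/
def HS : Set (E 3) := {x | 0 < x 2}

lemma HS_meas : MeasurableSet HS := measurableSet_lt measurable_const (by fun_prop)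

/-- the density of the sphere over the plane -/
noncomputable def wt2 (y : E 2) : ℝ := 1 / Real.sqrt (1 - ‖y‖ ^ 2)

lemma wt2_meas : Measurable wt2 :=
  measurable_const.div (measurable_const.sub (measurable_norm.pow_const 2)).sqrt

lemma wt2_nn (y : E 2) : 0 ≤ wt2 y := by
  unfold wt2
  positivity

lemma half_meas : (sg 3).restrict HS = Measure.map up
    ((volume.restrict (ball (0 : E 2) 1)).withDensity fun y => ENNReal.ofReal (wt2 y)) := by
  ext A hA
  have h1 := half_lint (A.indicator 1) (measurable_one.indicator hA)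
  have h2 : ∫⁻ x in {x : E 3 | 0 < x 2}, A.indicator 1 x ∂(sg 3) = (sg 3).restrict HS A := by
    rw [lintegral_indicator_one hA]
    rfl
  rw [← h2, h1, Measure.map_apply up_meas hA, withDensity_apply _ (up_meas hA),
    ← lintegral_indicator (up_meas hA)]
  apply lintegral_congr
  intro y
  by_cases hy : up y ∈ A
  · rw [indicator_of_mem hy, indicator_of_mem (show y ∈ up ⁻¹' A from hy)]
    simp [wt2]
  · rw [indicator_of_notMem hy, indicator_of_notMem (show y ∉ up ⁻¹' A from hy), mul_zero]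

lemma half_int (F : E 3 → ℂ) (hF : Measurable F) :
    ∫ x in HS, F x ∂(sg 3) = ∫ y in ball (0 : E 2) 1, ((wt2 y : ℝ) : ℂ) * F (up y) := by
  rw [half_meas, integral_map up_meas.aemeasurable hF.aestronglyMeasurable,
    integral_withDensity_eq_integral_toReal_smul wt2_meas.ennreal_ofReal
    (ae_of_all _ fun _ => ENNReal.ofReal_lt_top)]
  apply integral_congr_ae
  refine ae_of_all _ fun y => ?_
  simp only
  rw [ENNReal.toReal_ofReal (wt2_nn y), Complex.real_smul]

/-- projection to the first two coordinates -/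
noncomputable def pr (x : E 3) : E 2 := !₂[x 0, x 1]

lemma pr_meas : Measurable pr := by
  unfold pr
  exact measurable_vec2.comp (Measurable.prodMk (by fun_prop) (by fun_prop))

lemma pr_up (y : E 2) : pr (up y) = y := by
  ext i
  fin_cases i <;> rfl

lemma inner3 (x ξ : E 3) : ⟪x, ξ⟫ = ⟪pr x, pr ξ⟫ + x 2 * ξ 2 := by
  rw [PiLp.inner_apply, PiLp.inner_apply, Fin.sum_univ_three, Fin.sum_univ_two]
  have h0 : (pr x).ofLp 0 = x 0 := rfl
  have h1 : (pr x).ofLp 1 = x 1 := rfl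
  have h2 : (pr ξ).ofLp 0 = ξ 0 := rfl
  have h3 : (pr ξ).ofLp 1 = ξ 1 := rfl
  rw [h0, h1, h2, h3]
  simp only [RCLike.inner_apply, conj_trivial]
  ring

/-- dilated densities on the sphere -/
noncomputable def dens (lam : ℝ) (f : E 2 → ℂ) (x : E 3) : ℂ :=
  if 0 < x 2 ∧ ‖pr x‖ < lam then f (lam⁻¹ • pr x) else 0

lemma dens_meas (lam : ℝ) {f : E 2 → ℂ} (hf : Measurable f) : Measurable (dens lam f) := by
  unfold dens
  apply Measurable.ite
  · exact HS_meas.inter (measurableSet_lt pr_meas.norm measurable_const)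
  · exact hf.comp (f := fun x => lam⁻¹ • pr x) ((measurable_const_smul lam⁻¹).comp pr_meas)
  · exact measurable_const

/-- restriction to the open disc -/
noncomputable def fd (f : E 2 → ℂ) : E 2 → ℂ := (ball (0 : E 2) 1).indicator f

lemma fd_DS {M : ℝ} (hM : 0 ≤ M) {f : E 2 → ℂ} (hf : Measurable f) (hb : ∀ z, ‖f z‖ ≤ M) :
    DS M (fd f) := by
  refine ⟨hf.indicator measurableSet_ball, fun z => ?_, fun z hz => ?_⟩
  · unfold fd
    by_cases h : z ∈ ball (0 : E 2) 1
    · rw [indicator_of_mem h]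
      exact hb z
    · rw [indicator_of_notMem h, norm_zero]
      exact hM
  · unfold fd
    rw [indicator_of_notMem]
    rw [mem_ball_zero_iff, not_lt]
    exact hz.le

theorem F_dens {lam : ℝ} (h0 : 0 < lam) (h1 : lam < 1) {f : E 2 → ℂ} (hf : Measurable f)
    (ξ : E 3) : ∫ x, cexp (((-(2 * Real.pi * ⟪x, ξ⟫) : ℝ) : ℂ) * I) * dens lam f x ∂(sg 3) =
      ((lam ^ 2 : ℝ) : ℂ) * 𝓕 (gm 1 (ξ 2) (lam ^ 2) (fd f)) (lam • pr ξ) := by
  set F : E 3 → ℂ := fun x => cexp (((-(2 * Real.pi * ⟪x, ξ⟫) : ℝ) : ℂ) * I) * dens lam f x with hF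
  have hFm : Measurable F := by
    rw [hF]
    exact (Complex.measurable_exp.comp ((Complex.measurable_ofReal.comp
      (measurable_const.mul (by fun_prop : Measurable fun x : E 3 => ⟪x, ξ⟫)).neg).mul
      measurable_const)).mul (dens_meas lam hf)
  have e1 : ∫ x, F x ∂(sg 3) = ∫ x in HS, F x ∂(sg 3) := by
    symm
    apply setIntegral_eq_integral_of_forall_compl_eq_zero
    intro x hx
    rw [hF]
    simp only [dens]
    rw [if_neg (fun h => hx h.1), mul_zero]
  set G : E 2 → ℂ := (ball (0 : E 2) 1).indicator fun y => ((wt2 y : ℝ) : ℂ) * F (up y) with hG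
  have e2 : ∫ x in HS, F x ∂(sg 3) = ∫ y, G y := by
    rw [half_int F hFm, hG, integral_indicator measurableSet_ball]
  have e3 : ∫ y, G y = ((lam ^ 2 : ℝ) : ℂ) * ∫ z, G (lam • z) := by
    rw [Measure.integral_comp_smul, finrank_euclideanSpace_fin, abs_of_pos (by positivity),
      Complex.real_smul, ← mul_assoc, ← Complex.ofReal_mul, mul_inv_cancel₀ (by positivity)]
    simp
  rw [e1, e2, e3]
  congr 1
  rw [Real.fourier_eq']
  apply integral_congr_ae
  refine ae_of_all _ fun z => ?_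
  simp only [hG, smul_eq_mul]
  have hnorm : ‖lam • z‖ = lam * ‖z‖ := by rw [norm_smul, Real.norm_eq_abs, abs_of_pos h0]
  by_cases hz : ‖z‖ < 1
  · have hlz : lam • z ∈ ball (0 : E 2) 1 := by
      rw [mem_ball_zero_iff, hnorm]
      nlinarith [norm_nonneg z]
    rw [indicator_of_mem hlz, hF]
    have hs : Real.sqrt (1 - ‖lam • z‖ ^ 2) = sh (‖z‖ ^ 2) (lam ^ 2) := by
      unfold sh
      rw [hnorm]
      congr 1
      ring
    have hup2 : (up (lam • z)).ofLp 2 = sh (‖z‖ ^ 2) (lam ^ 2) := hs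
    have hspos : 0 < sh (‖z‖ ^ 2) (lam ^ 2) := by
      unfold sh
      apply Real.sqrt_pos.2
      have : lam ^ 2 < 1 := by nlinarith
      have h3 : ‖z‖ ^ 2 < 1 := by nlinarith [norm_nonneg z]
      nlinarith [sq_nonneg ‖z‖, sq_nonneg lam]
    have hd : dens lam f (up (lam • z)) = f z := by
      unfold dens
      rw [pr_up, hup2, hnorm, if_pos ⟨hspos, by nlinarith⟩, smul_smul, inv_mul_cancel₀ h0.ne',
        one_smul]
    have hfd : fd f z = f z := indicator_of_mem (by rw [mem_ball_zero_iff]; exact hz) f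
    simp only
    rw [hd, inner3, pr_up, hup2]
    unfold gm wt2
    rw [hs, hfd, pow_one]
    have hi : ⟪lam • z, pr ξ⟫ = ⟪z, lam • pr ξ⟫ := by
      rw [real_inner_smul_left, real_inner_smul_right]
    rw [hi]
    have hexp : cexp (((-(2 * Real.pi * (⟪z, lam • pr ξ⟫ + sh (‖z‖ ^ 2) (lam ^ 2) * ξ.ofLp 2)) : ℝ)
        : ℂ) * I) = cexp (((-2 * Real.pi * ⟪z, lam • pr ξ⟫ : ℝ) : ℂ) * I) *
        cexp (((-(2 * Real.pi * ξ.ofLp 2 * sh (‖z‖ ^ 2) (lam ^ 2)) : ℝ) : ℂ) * I) := by
      rw [← Complex.exp_add]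
      congr 1
      push_cast
      ring
    rw [hexp]
    ring
  · have hfd : fd f z = 0 := indicator_of_notMem (by rw [mem_ball_zero_iff]; exact hz) f
    have hR : gm 1 (ξ.ofLp 2) (lam ^ 2) (fd f) z = 0 := by
      unfold gm
      rw [hfd, mul_zero]
    rw [hR, mul_zero]
    by_cases hlz : lam • z ∈ ball (0 : E 2) 1
    · rw [indicator_of_mem hlz, hF]
      simp only
      unfold dens
      rw [pr_up, if_neg, mul_zero, mul_zero]
      rintro ⟨-, h⟩
      rw [hnorm] at h
      apply hz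
      nlinarith
    · rw [indicator_of_notMem hlz]

lemma E3_lint (H : ℝ → E 2 → ℝ≥0∞) (hH : Measurable (Function.uncurry H)) :
    ∫⁻ ξ : E 3, H (ξ 2) (pr ξ) = ∫⁻ t, ∫⁻ y, H t y := by
  have hF : Measurable fun ξ : E 3 => H (ξ 2) (pr ξ) :=
    hH.comp (f := fun ξ : E 3 => (ξ 2, pr ξ)) (Measurable.prodMk (by fun_prop) pr_meas)
  rw [cart_lint _ hF]
  have e1 : ∀ a b z : ℝ, H ((!₂[a, b, z] : E 3) 2) (pr !₂[a, b, z]) = H z !₂[a, b] := by
    intro a b z
    rfl
  simp only [e1]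
  have hm : Measurable (Function.uncurry fun (p : ℝ × ℝ) (z : ℝ) => H z !₂[p.1, p.2]) :=
    hH.comp (f := fun q : (ℝ × ℝ) × ℝ => (q.2, (!₂[q.1.1, q.1.2] : E 2)))
      (Measurable.prodMk measurable_snd (measurable_vec2.comp measurable_fst))
  have e2 : ∫⁻ a : ℝ, ∫⁻ b : ℝ, ∫⁻ z : ℝ, H z !₂[a, b] =
      ∫⁻ p : ℝ × ℝ, ∫⁻ z : ℝ, H z !₂[p.1, p.2] := by
    have hg : Measurable fun p : ℝ × ℝ => ∫⁻ z : ℝ, H z !₂[p.1, p.2] := hm.lintegral_prod_right'
    rw [Measure.volume_eq_prod, lintegral_prod _ hg.aemeasurable]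
  rw [e2, lintegral_lintegral_swap hm.aemeasurable]
  apply lintegral_congr
  intro z
  exact (plane_lint (H z) (hH.comp (f := fun y => (z, y)) (by fun_prop))).symm

lemma scale_lint {lam : ℝ} (h0 : 0 < lam) (G : E 2 → ℝ≥0∞) (hG : Measurable G) :
    ∫⁻ y, G (lam • y) = ENNReal.ofReal ((lam ^ 2)⁻¹) * ∫⁻ y, G y := by
  have h1 : ∫⁻ y, G (lam • y) = ∫⁻ y, G y ∂(Measure.map (fun y : E 2 => lam • y) volume) :=
    (lintegral_map hG (measurable_const_smul lam)).symm
  rw [h1, Measure.map_addHaar_smul volume h0.ne', lintegral_smul_measure,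
    finrank_euclideanSpace_fin, abs_of_pos (by positivity), smul_eq_mul]

/-- the Fourier transform of the dilated density -/
noncomputable def FD (lam : ℝ) (f : E 2 → ℂ) (ξ : E 3) : ℂ :=
  ∫ x, cexp (((-(2 * Real.pi * ⟪x, ξ⟫) : ℝ) : ℂ) * I) * dens lam f x ∂(sg 3)

theorem FD_Lp {lam : ℝ} (h0 : 0 < lam) (h1 : lam < 1) {f : E 2 → ℂ} (hf : Measurable f) (q : ℝ)
    (hq : 0 ≤ q) : ∫⁻ ξ, ‖FD lam f ξ‖ₑ ^ q =
      ENNReal.ofReal (lam ^ 2) ^ q * ENNReal.ofReal ((lam ^ 2)⁻¹) *
        Nq 1 (lam ^ 2) q (fd f) univ := by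
  have hfd : Measurable (fd f) := hf.indicator measurableSet_ball
  have hm := PLx_meas 1 (lam ^ 2) hfd
  set H : ℝ → E 2 → ℝ≥0∞ := fun t y =>
    (ENNReal.ofReal (lam ^ 2) * ‖𝓕 (gm 1 t (lam ^ 2) (fd f)) (lam • y)‖ₑ) ^ q with hH
  have hHm : Measurable (Function.uncurry H) := by
    have h2 : Measurable fun p : ℝ × E 2 => ‖𝓕 (gm 1 p.1 (lam ^ 2) (fd f)) (lam • p.2)‖ₑ :=
      hm.comp (f := fun p : ℝ × E 2 => (p.1, lam • p.2))
        (Measurable.prodMk measurable_fst ((measurable_const_smul lam).comp measurable_snd))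
    exact (h2.const_mul _).pow_const q
  have e1 : ∀ ξ, ‖FD lam f ξ‖ₑ ^ q = H (ξ 2) (pr ξ) := by
    intro ξ
    unfold FD
    rw [F_dens h0 h1 hf ξ, enorm_mul, hH]
    simp only
    congr 2
    rw [← ofReal_norm, Complex.norm_real, Real.norm_eq_abs, abs_of_pos (by positivity)]
  simp only [e1]
  rw [E3_lint H hHm]
  unfold Nq
  rw [Measure.restrict_univ, ← lintegral_const_mul']
  · apply lintegral_congr
    intro t
    have h3 : Measurable fun y : E 2 => ‖𝓕 (gm 1 t (lam ^ 2) (fd f)) y‖ₑ ^ q :=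
      (hm.comp (f := fun y => (t, y)) (by fun_prop)).pow_const q
    have h4 := scale_lint h0 _ h3
    rw [hH]
    simp only
    simp only [ENNReal.mul_rpow_of_nonneg _ _ hq]
    rw [lintegral_const_mul', h4, ← mul_assoc]
    exact ENNReal.rpow_ne_top_of_nonneg hq ENNReal.ofReal_ne_top
  · exact ENNReal.mul_ne_top (ENNReal.rpow_ne_top_of_nonneg hq ENNReal.ofReal_ne_top)
      ENNReal.ofReal_ne_top

end Pool.Agent.W777.DL
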