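import Mathlib
import Pool.Agent.W777.DL.Tr
set_option autoImplicit false

/-! The dimension of the set of exceptional dilations. -/

namespace Pool.Agent.W777.DL

open MeasureTheory Set Metric Complex FourierTransform Filter
open scoped ENNReal NNReal RealInnerProductSpace Topology
open Pool.Agent.H153R4 (E BS ST ST_meas ST_vol cube cube_vol)

lemma Zm_avg {a' b' : ℝ} (ha : 0 < a') (hab : a' ≤ b') (hb : b' < 1) (e : ℝ) (he0 : 0 < e)
    (he1 : e < 1) : ∃ C : ℝ≥0∞, C < ⊤ ∧ ∀ (T : ℝ), 0 < T → ∀ (M : ℝ) (f : E 2 → ℂ), DS M f →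
      ∫⁻ L in Icc a' b', Zm 1 T L f ≤ C * ENNReal.ofReal (T ^ (e - 1)) * ENNReal.ofReal M ^ 4 := by
  have h1 : ∀ m : ℕ, ∃ C : ℝ≥0∞, C < ⊤ ∧ ∀ (T : ℝ), 0 < T → ∀ (M : ℝ) (f : E 2 → ℂ), DS M f →
      ∫⁻ L in Icc a' b', Dm m T L f ≤
        C * ENNReal.ofReal (T ^ (e - 1)) * ENNReal.ofReal M ^ 4 := by
    intro m
    have h := Dm_avg m (a := a' / 2) (b := (1 + b') / 2) (by linarith) (by linarith)
      (by linarith : a' / 2 < a') hab (by linarith : b' < (1 + b') / 2) (1 - e / 2) (by linarith)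
      (by linarith)
    have e1 : 1 - 2 * (1 - e / 2) = e - 1 := by ring
    rw [e1] at h
    exact h
  obtain ⟨C1, hC1, h1'⟩ := h1 1
  obtain ⟨C2, hC2, h2'⟩ := h1 2
  obtain ⟨C3, hC3, h3'⟩ := h1 3
  refine ⟨C1 + C2 + C3, by simp [ENNReal.add_lt_top, hC1, hC2, hC3], fun T hT M f hf => ?_⟩
  have e2 : ∫⁻ L in Icc a' b', Zm 1 T L f = (∫⁻ L in Icc a' b', Dm 1 T L f) +
      (∫⁻ L in Icc a' b', Dm 2 T L (rf f)) + ∫⁻ L in Icc a' b', Dm 3 T L (rf f) := by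
    unfold Zm
    rw [lintegral_add_right _ (Dm_meas 3 T hf.rf.meas), lintegral_add_right _
      (Dm_meas 2 T hf.rf.meas)]
  rw [e2]
  calc _ ≤ C1 * ENNReal.ofReal (T ^ (e - 1)) * ENNReal.ofReal M ^ 4 +
        C2 * ENNReal.ofReal (T ^ (e - 1)) * ENNReal.ofReal M ^ 4 +
        C3 * ENNReal.ofReal (T ^ (e - 1)) * ENNReal.ofReal M ^ 4 :=
        add_le_add (add_le_add (h1' T hT M f hf) (h2' T hT M _ hf.rf)) (h3' T hT M _ hf.rf)
    _ = _ := by ring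

theorem exc_piece {a' b' M q : ℝ} (ha : 0 < a') (hab : a' < b') (hb : b' < 1) (hq2 : 2 < q)
    (hq4 : q ≤ 4) {f : E 2 → ℂ} (hf : DS M f) :
    dimH {L ∈ Icc a' b' | Nq 1 L q f univ = ⊤} ≤ ENNReal.ofReal ((4 - q) / (q - 2)) := by
  have hg0 : 0 ≤ (4 - q) / (q - 2) := div_nonneg (by linarith) (by linarith)
  have key : ∀ γ e : ℝ, (4 - q) / (q - 2) < γ → 0 < e → e < 1 →
      dimH {L ∈ Icc a' b' | Nq 1 L q f univ = ⊤} ≤ ENNReal.ofReal (γ + e) := by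
    intro γ e hγ he0 he1
    obtain ⟨C, hC, h⟩ := Zm_avg ha hab.le hb e he0 he1
    have hw : 0 < b' - a' := by linarith
    have hdb := dim_bound (c := a') hw (fun j L => Dm 1 ((2 ^ j : ℕ) : ℝ) L f)
      (fun j L => Zm 1 ((2 ^ j : ℕ) : ℝ) L f) (cS 1) (C * ENNReal.ofReal M ^ 4) (cS_lt 1).ne
      (ENNReal.mul_ne_top hC.ne (ENNReal.pow_ne_top ENNReal.ofReal_ne_top)) γ e (by linarith)
      ?_ ?_
    · refine le_trans (dimH_mono ?_) hdb
      rintro L ⟨hL, hT⟩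
      refine ⟨by rwa [add_sub_cancel], ?_⟩
      by_contra hcon
      rw [not_frequently] at hcon
      simp only [not_lt] at hcon
      have := Nq_univ 1 (L := L) (by linarith [hL.1]) (by linarith [hL.2]) hq2 hq4 hγ hf hcon
      exact absurd hT this.ne
    · intro j k hk L hL
      have hN : (1:ℝ) ≤ ((2 ^ j : ℕ) : ℝ) := by exact_mod_cast Nat.one_le_two_pow
      have hN0 : (0:ℝ) < ((2 ^ j : ℕ) : ℝ) := by linarith
      set N : ℝ := ((2 ^ j : ℕ) : ℝ) with hNd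
      have hk' : (k : ℝ) + 1 ≤ N := by
        rw [hNd]
        exact_mod_cast hk
      set h := (b' - a') / N with hh
      have hh0 : 0 < h := by positivity
      have hNh : N * h = b' - a' := by rw [hh]; field_simp
      have hloc := Dm_loc 1 (T := N) (M := M) (c := a' + k * h) (d := a' + (k + 1) * h)
        (by positivity) (by linarith) (by nlinarith) hN (by nlinarith) hf L hL
      have e1 : a' + (k + 1) * h - (a' + k * h) = h := by ring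
      rw [e1] at hloc
      exact hloc
    · intro j
      have hN0 : (0:ℝ) < ((2 ^ j : ℕ) : ℝ) := by positivity
      have h2 := h ((2 ^ j : ℕ) : ℝ) hN0 M f hf
      rw [show a' + (b' - a') = b' by ring]
      refine h2.trans (le_of_eq ?_)
      ring
  refine ENNReal.le_of_forall_pos_le_add fun ε hε _ => ?_
  have hε' : (0:ℝ) < ε := hε
  set δ : ℝ := min (ε : ℝ) 1 / 4 with hδ
  have hδ0 : 0 < δ := by
    rw [hδ]
    have : 0 < min (ε : ℝ) 1 := lt_min hε' one_pos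
    positivity
  have hδ1 : δ < 1 := by
    rw [hδ]
    have : min (ε : ℝ) 1 ≤ 1 := min_le_right _ _
    linarith
  have hδ2 : δ + δ ≤ ε := by
    rw [hδ]
    have : min (ε : ℝ) 1 ≤ ε := min_le_left _ _
    linarith
  refine (key ((4 - q) / (q - 2) + δ) δ (by linarith) hδ0 hδ1).trans ?_
  rw [add_assoc, ENNReal.ofReal_add hg0 (by linarith)]
  gcongr
  rw [← ENNReal.ofReal_coe_nnreal]
  exact ENNReal.ofReal_le_ofReal hδ2

theorem exc_L {M q : ℝ} (hq2 : 2 < q) (hq4 : q ≤ 4) {f : E 2 → ℂ} (hf : DS M f) :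
    dimH {L ∈ Ioo (0:ℝ) 1 | Nq 1 L q f univ = ⊤} ≤ ENNReal.ofReal ((4 - q) / (q - 2)) := by
  have hsub : {L ∈ Ioo (0:ℝ) 1 | Nq 1 L q f univ = ⊤} ⊆
      ⋃ n : ℕ, {L ∈ Icc (1 / ((n : ℝ) + 3)) (1 - 1 / ((n : ℝ) + 3)) | Nq 1 L q f univ = ⊤} := by
    rintro L ⟨hL, hT⟩
    obtain ⟨n, hn⟩ := exists_nat_gt (max (1 / L) (1 / (1 - L)))
    have h1 : 0 < L := hL.1
    have h2 : 0 < 1 - L := by linarith [hL.2]
    have hn1 : 1 / L < n := lt_of_le_of_lt (le_max_left _ _) hn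
    have hn2 : 1 / (1 - L) < n := lt_of_le_of_lt (le_max_right _ _) hn
    have hn0 : (0:ℝ) < n := lt_trans (by positivity) hn1
    rw [div_lt_iff₀ h1] at hn1
    rw [div_lt_iff₀ h2] at hn2
    refine mem_iUnion.2 ⟨n, ⟨?_, ?_⟩, hT⟩
    · rw [div_le_iff₀ (by linarith)]
      nlinarith
    · have : 1 / ((n:ℝ) + 3) ≤ 1 - L := by
        rw [div_le_iff₀ (by linarith)]
        nlinarith
      linarith
  refine (dimH_mono hsub).trans ?_
  rw [dimH_iUnion]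
  refine iSup_le fun n => ?_
  have hn : (0:ℝ) ≤ n := Nat.cast_nonneg n
  have h3 : 1 / ((n : ℝ) + 3) ≤ 1 / 3 := by
    apply one_div_le_one_div_of_le <;> linarith
  have h4 : 0 < 1 / ((n : ℝ) + 3) := by positivity
  exact exc_piece h4 (by linarith) (by linarith) hq2 hq4 hf

theorem exc_lam {M q : ℝ} (hq2 : 2 < q) (hq4 : q ≤ 4) {f : E 2 → ℂ} (hf : DS M f) :
    dimH {lam ∈ Ioo (0:ℝ) 1 | Nq 1 (lam ^ 2) q f univ = ⊤} ≤
      ENNReal.ofReal ((4 - q) / (q - 2)) := by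
  have hsub : {lam ∈ Ioo (0:ℝ) 1 | Nq 1 (lam ^ 2) q f univ = ⊤} ⊆
      Real.sqrt '' {L ∈ Ioo (0:ℝ) 1 | Nq 1 L q f univ = ⊤} := by
    rintro lam ⟨hl, hT⟩
    refine ⟨lam ^ 2, ⟨⟨by have := hl.1; positivity, ?_⟩, hT⟩, Real.sqrt_sq hl.1.le⟩
    nlinarith [hl.1, hl.2]
  refine (dimH_mono hsub).trans ?_
  have hc : ContDiffOn ℝ 1 Real.sqrt (Ioi (0:ℝ)) := fun x hx =>
    (Real.contDiffAt_sqrt (ne_of_gt hx)).contDiffWithinAt
  refine (hc.dimH_image_le (convex_Ioi 0) ?_).trans (exc_L hq2 hq4 hf)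
  rintro L ⟨hL, -⟩
  exact hL.1

lemma Nq_mono (m : ℕ) {L M q p : ℝ} (hL0 : 0 ≤ L) (hL1 : L < 1) (hq : 0 ≤ q) (hqp : q ≤ p)
    {f : E 2 → ℂ} (hf : DS M f) (S : Set ℝ) : Nq m L p f S ≤
      ENNReal.ofReal ((volume (cube 2)).toReal * (M / kp L ^ m)) ^ (p - q) * Nq m L q f S := by
  set B := (volume (cube 2)).toReal * (M / kp L ^ m) with hB
  have hf1 : ENNReal.ofReal B ^ (p - q) ≠ ⊤ :=
    ENNReal.rpow_ne_top_of_nonneg (by linarith) ENNReal.ofReal_ne_top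
  unfold Nq
  rw [← lintegral_const_mul' _ _ hf1]
  apply lintegral_mono
  intro t
  simp only
  rw [← lintegral_const_mul' _ _ hf1]
  apply lintegral_mono
  intro x
  simp only
  have e1 : ‖𝓕 (gm m t L f) x‖ₑ ^ p =
      ‖𝓕 (gm m t L f) x‖ₑ ^ (p - q) * ‖𝓕 (gm m t L f) x‖ₑ ^ q := by
    rw [← ENNReal.rpow_add_of_nonneg _ _ (by linarith) hq]
    congr 1
    ring
  rw [e1]
  gcongr
  rw [← ofReal_norm]
  exact ENNReal.ofReal_le_ofReal ((gm_BS m t hL1 hL0 le_rfl hf).fbd x)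

theorem exc_all {M p : ℝ} (hp : 2 < p) {f : E 2 → ℂ} (hf : DS M f) :
    dimH {lam ∈ Ioo (0:ℝ) 1 | Nq 1 (lam ^ 2) p f univ = ⊤} ≤
      ENNReal.ofReal ((4 - p) / (p - 2)) := by
  rcases le_or_gt p 4 with h4 | h4
  · exact exc_lam hp h4 hf
  have h0 : ENNReal.ofReal ((4 - p) / (p - 2)) = 0 := by
    rw [ENNReal.ofReal_eq_zero]
    exact div_nonpos_of_nonpos_of_nonneg (by linarith) (by linarith)
  rw [h0]
  have h5 := exc_lam (q := 4) (by norm_num) le_rfl hf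
  have h6 : ENNReal.ofReal ((4 - 4) / (4 - 2)) = 0 := by norm_num
  rw [h6] at h5
  refine le_trans (dimH_mono ?_) h5
  rintro lam ⟨hl, hT⟩
  refine ⟨hl, ?_⟩
  have hl2 : lam ^ 2 < 1 := by nlinarith [hl.1, hl.2]
  have h7 := Nq_mono 1 (L := lam ^ 2) (q := 4) (p := p) (by positivity) hl2 (by norm_num) h4.le hf
    univ
  rw [hT, top_le_iff] at h7
  by_contra hcon
  have h8 : ENNReal.ofReal ((volume (cube 2)).toReal * (M / kp (lam ^ 2) ^ 1)) ^ (p - 4) ≠ ⊤ :=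
    ENNReal.rpow_ne_top_of_nonneg (by linarith) ENNReal.ofReal_ne_top
  exact absurd h7 (ENNReal.mul_ne_top h8 hcon)

end Pool.Agent.W777.DL
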