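import Mathlib
import Pool.Agent.W777.DL.Exc
set_option autoImplicit false

/-! The averaged extension estimate. -/

namespace Pool.Agent.W777.DL

open MeasureTheory Set Metric Complex FourierTransform Filter
open scoped ENNReal NNReal RealInnerProductSpace Topology
open Pool.Agent.H153R4 (E BS ST ST_meas ST_vol cube cube_vol)

lemma Nq_meas (m : ℕ) (q : ℝ) {f : E 2 → ℂ} (hf : Measurable f) (S : Set ℝ) :
    Measurable fun L => Nq m L q f S := by
  have h : Measurable fun r : (ℝ × ℝ) × E 2 => ‖𝓕 (gm m r.1.2 r.1.1 f) r.2‖ₑ ^ q :=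
    (Fgm_meas m hf).enorm.pow_const q
  exact (h.lintegral_prod_right').lintegral_prod_right'

lemma kp_anti {L b : ℝ} (h : L ≤ b) : kp b ≤ kp L := by
  unfold kp
  exact Real.sqrt_le_sqrt (by linarith)

lemma bd_mono {L b M : ℝ} (m : ℕ) (hb : b < 1) (h : L ≤ b) (hM : 0 ≤ M) :
    M / kp L ^ m ≤ M / kp b ^ m := by
  have h1 := kp_pos hb
  have h2 := kp_anti h
  gcongr

lemma Nq_small (m : ℕ) {L b M q : ℝ} (hL0 : 0 ≤ L) (hLb : L ≤ b) (hb : b < 1) (hq : 2 ≤ q)
    {f : E 2 → ℂ} (hf : DS M f) (S : Set ℝ) : Nq m L q f S ≤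
      volume S * (ENNReal.ofReal ((volume (cube 2)).toReal * (1 / kp b ^ m)) ^ (q - 2) *
      (volume (cube 2) * ENNReal.ofReal ((1 / kp b ^ m) ^ 2))) * ENNReal.ofReal M ^ q := by
  have hL1 : L < 1 := lt_of_le_of_lt hLb hb
  have hM := hf.M0
  have hkb := kp_pos hb
  have hbm := bd_mono m hb hLb hM
  have hpt : ∀ t, ∫⁻ x, ‖𝓕 (gm m t L f) x‖ₑ ^ q ≤
      (ENNReal.ofReal ((volume (cube 2)).toReal * (1 / kp b ^ m)) ^ (q - 2) *
      (volume (cube 2) * ENNReal.ofReal ((1 / kp b ^ m) ^ 2))) * ENNReal.ofReal M ^ q := by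
    intro t
    have hbs := gm_BS m t hL1 hL0 le_rfl hf
    calc ∫⁻ x, ‖𝓕 (gm m t L f) x‖ₑ ^ q ≤
          ∫⁻ x, ENNReal.ofReal ((volume (cube 2)).toReal * (M / kp b ^ m)) ^ (q - 2) *
            ‖𝓕 (gm m t L f) x‖ₑ ^ 2 := by
          apply lintegral_mono
          intro x
          simp only
          have e1 : ‖𝓕 (gm m t L f) x‖ₑ ^ q =
              ‖𝓕 (gm m t L f) x‖ₑ ^ (q - 2) * ‖𝓕 (gm m t L f) x‖ₑ ^ 2 := by
            rw [← ENNReal.rpow_natCast, ← ENNReal.rpow_add_of_nonneg _ _ (by linarith)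
              (by norm_num)]
            congr 1
            push_cast
            ring
          rw [e1]
          gcongr
          rw [← ofReal_norm]
          apply ENNReal.ofReal_le_ofReal
          refine (hbs.fbd x).trans ?_
          gcongr
      _ ≤ ENNReal.ofReal ((volume (cube 2)).toReal * (M / kp b ^ m)) ^ (q - 2) *
            (volume (cube 2) * ENNReal.ofReal ((M / kp b ^ m) ^ 2)) := by
          rw [lintegral_const_mul' _ _
            (ENNReal.rpow_ne_top_of_nonneg (by linarith) ENNReal.ofReal_ne_top)]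
          gcongr
          refine (two_bd m t hL0 hL1 hf).trans ?_
          have : 0 ≤ M / kp L ^ m := div_nonneg hM (pow_nonneg (kp_pos hL1).le m)
          gcongr
      _ = _ := by
          have e2 : (volume (cube 2)).toReal * (M / kp b ^ m) =
              ((volume (cube 2)).toReal * (1 / kp b ^ m)) * M := by ring
          have e3 : (M / kp b ^ m) ^ 2 = (1 / kp b ^ m) ^ 2 * M ^ 2 := by ring
          have hc : 0 ≤ (volume (cube 2)).toReal * (1 / kp b ^ m) := by positivity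
          have hc2 : 0 ≤ (1 / kp b ^ m) ^ 2 := by positivity
          rw [e2, e3, ENNReal.ofReal_mul hc, ENNReal.ofReal_mul hc2,
            ENNReal.mul_rpow_of_nonneg _ _ (by linarith), ENNReal.ofReal_pow hM]
          have e4 : ENNReal.ofReal M ^ q = ENNReal.ofReal M ^ (q - 2) * ENNReal.ofReal M ^ 2 := by
            rw [← ENNReal.rpow_natCast, ← ENNReal.rpow_add_of_nonneg _ _ (by linarith)
              (by norm_num)]
            congr 1
            push_cast
            ring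
          rw [e4]
          ring
  unfold Nq
  refine (lintegral_mono hpt).trans (le_of_eq ?_)
  rw [lintegral_const, Measure.restrict_apply_univ]
  ring

theorem Nq_avg {a' b' q : ℝ} (ha : 0 < a') (hab : a' ≤ b') (hb : b' < 1) (hq3 : 3 < q)
    (hq4 : q ≤ 4) : ∃ C : ℝ≥0∞, C < ⊤ ∧ ∀ (M : ℝ) (f : E 2 → ℂ), DS M f →
      ∫⁻ L in Icc a' b', Nq 1 L q f univ ≤ C * ENNReal.ofReal M ^ q := by
  set e : ℝ := (q - 3) / (q - 2) with he
  have he0 : 0 < e := div_pos (by linarith) (by linarith)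
  have he1 : e < 1 := by
    rw [he, div_lt_one (by linarith)]
    linarith
  obtain ⟨C, hC, h⟩ := Dm_avg 1 (a := a' / 2) (b := (1 + b') / 2) (by linarith) (by linarith)
      (by linarith : a' / 2 < a') hab (by linarith : b' < (1 + b') / 2) (1 - e / 2) (by linarith)
      (by linarith)
  have e1 : 1 - 2 * (1 - e / 2) = e - 1 := by ring
  rw [e1] at h
  -- constants
  set κ : ℝ≥0∞ := ENNReal.ofReal ((volume (cube 2)).toReal * (1 / kp b' ^ 1)) ^ (q - 2) *
      (volume (cube 2) * ENNReal.ofReal ((1 / kp b' ^ 1) ^ 2)) with hκ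
  have hκt : κ < ⊤ := by
    rw [hκ]
    refine ENNReal.mul_lt_top ?_ (ENNReal.mul_lt_top (cube_vol 2) ENNReal.ofReal_lt_top)
    exact (ENNReal.rpow_ne_top_of_nonneg (by linarith) ENNReal.ofReal_ne_top).lt_top
  set K : ℝ≥0∞ := volume (cube 2) * ENNReal.ofReal ((1 / kp b' ^ 1) ^ 2) with hK
  have hKt : K < ⊤ := ENNReal.mul_lt_top (cube_vol 2) ENNReal.ofReal_lt_top
  set α : ℝ := (4 - q) / 2 with hα
  set β : ℝ := (q - 2) / 2 with hβ
  have hα0 : 0 ≤ α := by rw [hα]; linarith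
  have hβ0 : 0 ≤ β := by rw [hβ]; linarith
  have hαβ : α + β = 1 := by rw [hα, hβ]; ring
  set W : ℝ≥0∞ := volume (Icc a' b') with hW
  have hWt : W < ⊤ := by
    rw [hW, Real.volume_Icc]
    exact ENNReal.ofReal_lt_top
  set A : ℝ≥0∞ := (2 * K * W) ^ α * C ^ β with hA
  have hAt : A < ⊤ := by
    rw [hA]
    refine ENNReal.mul_lt_top ?_ ?_
    · exact (ENNReal.rpow_ne_top_of_nonneg hα0 (ENNReal.mul_ne_top (ENNReal.mul_ne_top
        (by norm_num) hKt.ne) hWt.ne)).lt_top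
    · exact (ENNReal.rpow_ne_top_of_nonneg hβ0 hC.ne).lt_top
  set ρ : ℝ := (2:ℝ) ^ (α + (e - 1) * β) with hρ
  have hexp : α + (e - 1) * β = -((q - 3) / 2) := by
    have : q - 2 ≠ 0 := by linarith
    rw [he, hα, hβ]
    field_simp
    ring
  have hρ1 : ENNReal.ofReal ρ < 1 := by
    rw [← ENNReal.ofReal_one, ENNReal.ofReal_lt_ofReal_iff zero_lt_one, hρ, hexp]
    apply Real.rpow_lt_one_of_one_lt_of_neg (by norm_num)
    linarith
  refine ⟨W * (volume (Icc (-1:ℝ) 1) * κ) + A * (1 - ENNReal.ofReal ρ)⁻¹, ?_, ?_⟩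
  · refine ENNReal.add_lt_top.2 ⟨ENNReal.mul_lt_top hWt (ENNReal.mul_lt_top ?_ hκt),
      ENNReal.mul_lt_top hAt ?_⟩
    · rw [Real.volume_Icc]
      exact ENNReal.ofReal_lt_top
    · rw [ENNReal.inv_lt_top, tsub_pos_iff_lt]
      exact hρ1
  intro M f hf
  have hM := hf.M0
  have hdy : ∀ j : ℕ, ∫⁻ L in Icc a' b', Nq 1 L q f (ST ((2 ^ j : ℕ) : ℝ)) ≤
      A * ENNReal.ofReal ρ ^ j * ENNReal.ofReal M ^ q := by
    intro j
    have hNpos : (0:ℝ) < ((2 ^ j : ℕ) : ℝ) := by positivity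
    have hNj : ((2 ^ j : ℕ) : ℝ) = (2:ℝ) ^ (j : ℝ) := by
      push_cast
      rw [Real.rpow_natCast]
    set N : ℝ := ((2 ^ j : ℕ) : ℝ) with hN
    set c1 : ℝ≥0∞ := ENNReal.ofReal (2 * N) * (K * ENNReal.ofReal M ^ 2) with hc1
    have hp : ∀ L ∈ Icc a' b', Nq 1 L q f (ST N) ≤ c1 ^ α * Dm 1 N L f ^ β := by
      intro L hL
      have hL0 : 0 ≤ L := by linarith [hL.1]
      have hL1 : L < 1 := by linarith [hL.2]
      refine (Nq_interp 1 hL0 hL1 (by linarith) hq4 hNpos.le hf).trans ?_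
      refine mul_le_mul' (ENNReal.rpow_le_rpow ?_ hα0) le_rfl
      rw [hc1]
      refine mul_le_mul' le_rfl ?_
      have h1 := bd_mono 1 hb hL.2 hM
      have h2 : 0 ≤ M / kp L ^ 1 := div_nonneg hM (pow_nonneg (kp_pos hL1).le 1)
      calc volume (cube 2) * ENNReal.ofReal ((M / kp L ^ 1) ^ 2) ≤
            volume (cube 2) * ENNReal.ofReal ((M / kp b' ^ 1) ^ 2) := by gcongr
        _ = K * ENNReal.ofReal M ^ 2 := by
            have e3 : (M / kp b' ^ 1) ^ 2 = (1 / kp b' ^ 1) ^ 2 * M ^ 2 := by ring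
            rw [e3, ENNReal.ofReal_mul (by positivity), ENNReal.ofReal_pow hM, hK]
            ring
    have hH := ENNReal.lintegral_mul_norm_pow_le (μ := volume.restrict (Icc a' b'))
      (f := fun _ => c1) (g := fun L => Dm 1 N L f) aemeasurable_const
      (Dm_meas 1 N hf.meas).aemeasurable hα0 hβ0 hαβ
    have h2 := h N hNpos M f hf
    calc ∫⁻ L in Icc a' b', Nq 1 L q f (ST N) ≤
          ∫⁻ L in Icc a' b', c1 ^ α * Dm 1 N L f ^ β := setLIntegral_mono' measurableSet_Icc hp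
      _ ≤ (∫⁻ _ in Icc a' b', c1) ^ α * (∫⁻ L in Icc a' b', Dm 1 N L f) ^ β := hH
      _ ≤ (c1 * W) ^ α * (C * ENNReal.ofReal (N ^ (e - 1)) * ENNReal.ofReal M ^ 4) ^ β := by
          rw [lintegral_const, Measure.restrict_apply_univ]
          gcongr
      _ = (2 * K * W) ^ α * C ^ β *
          (ENNReal.ofReal N ^ α * ENNReal.ofReal (N ^ (e - 1)) ^ β) *
          ((ENNReal.ofReal M ^ 2) ^ α * (ENNReal.ofReal M ^ 4) ^ β) := by
          have e4 : c1 * W = (2 * K * W) * ENNReal.ofReal N * ENNReal.ofReal M ^ 2 := by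
            rw [hc1, ENNReal.ofReal_mul (by norm_num)]
            have : ENNReal.ofReal 2 = 2 := by norm_num
            rw [this]
            ring
          rw [e4, ENNReal.mul_rpow_of_nonneg _ _ hα0, ENNReal.mul_rpow_of_nonneg _ _ hα0,
            ENNReal.mul_rpow_of_nonneg _ _ hβ0, ENNReal.mul_rpow_of_nonneg _ _ hβ0]
          ring
      _ = A * ENNReal.ofReal ρ ^ j * ENNReal.ofReal M ^ q := by
          have e5 : ENNReal.ofReal N ^ α * ENNReal.ofReal (N ^ (e - 1)) ^ β =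
              ENNReal.ofReal ρ ^ j := by
            rw [ENNReal.ofReal_rpow_of_pos hNpos, ENNReal.ofReal_rpow_of_pos (by positivity),
              ← ENNReal.ofReal_mul (by positivity), ← ENNReal.ofReal_pow (by positivity)]
            congr 1
            rw [hρ, hNj, ← Real.rpow_natCast, ← Real.rpow_mul (by norm_num),
              ← Real.rpow_mul (by norm_num), ← Real.rpow_mul (by norm_num),
              ← Real.rpow_mul (by norm_num), ← Real.rpow_add (by norm_num)]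
            congr 1
            ring
          have e6 : (ENNReal.ofReal M ^ 2) ^ α * (ENNReal.ofReal M ^ 4) ^ β =
              ENNReal.ofReal M ^ q := by
            rw [← ENNReal.rpow_natCast, ← ENNReal.rpow_natCast, ← ENNReal.rpow_mul,
              ← ENNReal.rpow_mul, ← ENNReal.rpow_add_of_nonneg _ _ (by positivity)
              (by positivity)]
            congr 1
            rw [hα, hβ]
            push_cast
            ring
          rw [e5, e6]
  have hcov : ∀ L, Nq 1 L q f univ ≤ Nq 1 L q f (Icc (-1) 1) +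
      ∑' j : ℕ, Nq 1 L q f (ST ((2 ^ j : ℕ) : ℝ)) := by
    intro L
    unfold Nq
    refine (lintegral_mono_set cover_ST).trans ?_
    refine (lintegral_union_le _ _ _).trans ?_
    gcongr
    exact lintegral_iUnion_le _ _
  refine (lintegral_mono hcov).trans ?_
  rw [lintegral_add_left (Nq_meas 1 q hf.meas _), lintegral_tsum fun j =>
    (Nq_meas 1 q hf.meas _).aemeasurable, add_mul]
  refine add_le_add ?_ ?_
  · have h1 : ∀ L ∈ Icc a' b', Nq 1 L q f (Icc (-1) 1) ≤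
        volume (Icc (-1:ℝ) 1) * κ * ENNReal.ofReal M ^ q := fun L hL =>
      Nq_small 1 (by linarith [hL.1]) hL.2 hb (by linarith) hf (Icc (-1) 1)
    refine (setLIntegral_mono' measurableSet_Icc h1).trans (le_of_eq ?_)
    rw [lintegral_const, Measure.restrict_apply_univ]
    ring
  · refine (ENNReal.tsum_le_tsum hdy).trans (le_of_eq ?_)
    rw [ENNReal.tsum_mul_right, ENNReal.tsum_mul_left, ENNReal.tsum_geometric]

theorem Nq_avg_all {a' b' p : ℝ} (ha : 0 < a') (hab : a' ≤ b') (hb : b' < 1) (hp : 3 < p) :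
    ∃ C : ℝ≥0∞, C < ⊤ ∧ ∀ (M : ℝ) (f : E 2 → ℂ), DS M f →
      ∫⁻ L in Icc a' b', Nq 1 L p f univ ≤ C * ENNReal.ofReal M ^ p := by
  rcases le_or_gt p 4 with h4 | h4
  · exact Nq_avg ha hab hb hp h4
  obtain ⟨C, hC, h⟩ := Nq_avg ha hab hb (q := 4) (by norm_num) le_rfl
  set κ : ℝ≥0∞ := ENNReal.ofReal ((volume (cube 2)).toReal * (1 / kp b' ^ 1)) ^ (p - 4) with hκ
  have hκt : κ < ⊤ :=
    (ENNReal.rpow_ne_top_of_nonneg (by linarith) ENNReal.ofReal_ne_top).lt_top
  refine ⟨κ * C, ENNReal.mul_lt_top hκt hC, fun M f hf => ?_⟩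
  have hM := hf.M0
  have h1 : ∀ L ∈ Icc a' b', Nq 1 L p f univ ≤
      κ * ENNReal.ofReal M ^ (p - 4) * Nq 1 L 4 f univ := by
    intro L hL
    have hL0 : 0 ≤ L := by linarith [hL.1]
    have hL1 : L < 1 := by linarith [hL.2]
    refine (Nq_mono 1 hL0 hL1 (by norm_num) h4.le hf univ).trans ?_
    refine mul_le_mul' ?_ le_rfl
    have hk := kp_pos hb
    have hc : 0 ≤ (volume (cube 2)).toReal * (1 / kp b' ^ 1) := by positivity
    rw [hκ, ← ENNReal.mul_rpow_of_nonneg _ _ (by linarith), ← ENNReal.ofReal_mul hc]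
    apply ENNReal.rpow_le_rpow _ (by linarith)
    apply ENNReal.ofReal_le_ofReal
    calc (volume (cube 2)).toReal * (M / kp L ^ 1) ≤ (volume (cube 2)).toReal * (M / kp b' ^ 1) := by
          have := bd_mono 1 hb hL.2 hM
          gcongr
      _ = _ := by ring
  have hct : κ * ENNReal.ofReal M ^ (p - 4) ≠ ⊤ :=
    ENNReal.mul_ne_top hκt.ne (ENNReal.rpow_ne_top_of_nonneg (by linarith) ENNReal.ofReal_ne_top)
  calc ∫⁻ L in Icc a' b', Nq 1 L p f univ ≤
        ∫⁻ L in Icc a' b', κ * ENNReal.ofReal M ^ (p - 4) * Nq 1 L 4 f univ :=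
        setLIntegral_mono' measurableSet_Icc h1
    _ = κ * ENNReal.ofReal M ^ (p - 4) * ∫⁻ L in Icc a' b', Nq 1 L 4 f univ :=
        lintegral_const_mul' _ _ hct
    _ ≤ κ * ENNReal.ofReal M ^ (p - 4) * (C * ENNReal.ofReal M ^ (4:ℝ)) := by
        gcongr
        exact h M f hf
    _ = κ * C * ENNReal.ofReal M ^ p := by
        have e1 : ENNReal.ofReal M ^ p = ENNReal.ofReal M ^ (p - 4) * ENNReal.ofReal M ^ (4:ℝ) := by
          rw [← ENNReal.rpow_add_of_nonneg _ _ (by linarith) (by norm_num)]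
          congr 1
          ring
        rw [e1]
        ring

lemma sq_subst {a b : ℝ} (ha : 0 < a) (G : ℝ → ℝ≥0∞) :
    ENNReal.ofReal (2 * a) * ∫⁻ lam in Icc a b, G (lam ^ 2) ≤
      ∫⁻ L in Icc (a ^ 2) (b ^ 2), G L := by
  have himg : (fun x : ℝ => x ^ 2) '' Icc a b ⊆ Icc (a ^ 2) (b ^ 2) := by
    rintro L ⟨x, hx, rfl⟩
    have h1 := hx.1
    have h2 := hx.2
    exact ⟨by simp only; nlinarith, by simp only; nlinarith⟩
  have hinj : InjOn (fun x : ℝ => x ^ 2) (Icc a b) := by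
    intro x hx y hy hxy
    have hx0 : 0 ≤ x := by linarith [hx.1]
    have hy0 : 0 ≤ y := by linarith [hy.1]
    exact (pow_left_inj₀ hx0 hy0 (by norm_num)).1 hxy
  have h1 := lintegral_image_eq_lintegral_abs_deriv_mul (measurableSet_Icc (a := a) (b := b))
    (fun x _ => (hasDerivAt_pow 2 x).hasDerivWithinAt) hinj G
  refine le_trans ?_ (lintegral_mono_set himg)
  rw [h1, ← lintegral_const_mul' _ _ ENNReal.ofReal_ne_top]
  apply setLIntegral_mono' measurableSet_Icc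
  intro x hx
  refine mul_le_mul' (ENNReal.ofReal_le_ofReal ?_) le_rfl
  have hx1 := hx.1
  rw [abs_of_nonneg (by simp only [Nat.add_one_sub_one, pow_one]; push_cast; nlinarith)]
  simp only [Nat.add_one_sub_one, pow_one]
  push_cast
  linarith

open Pool.Agent.H789R2.FR (sg) in
theorem FD_avg {a b p : ℝ} (ha : 0 < a) (hab : a ≤ b) (hb : b < 1) (hp : 3 < p) :
    ∃ C : ℝ≥0∞, C < ⊤ ∧ ∀ (M : ℝ) (f : E 2 → ℂ), Measurable f → (∀ z, ‖f z‖ ≤ M) →
      ∫⁻ lam in Icc a b, ∫⁻ ξ, ‖FD lam f ξ‖ₑ ^ p ≤ C * ENNReal.ofReal M ^ p := by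
  obtain ⟨C, hC, h⟩ := Nq_avg_all (a' := a ^ 2) (b' := b ^ 2) (by positivity) (by nlinarith)
    (by nlinarith) hp
  refine ⟨ENNReal.ofReal ((a ^ 2)⁻¹) * ((ENNReal.ofReal (2 * a))⁻¹ * C), ?_, fun M f hf hM => ?_⟩
  · refine ENNReal.mul_lt_top ENNReal.ofReal_lt_top (ENNReal.mul_lt_top ?_ hC)
    rw [ENNReal.inv_lt_top]
    exact ENNReal.ofReal_pos.2 (by positivity)
  have hM0 : 0 ≤ M := (norm_nonneg _).trans (hM 0)
  have hDS := fd_DS hM0 hf hM
  have h1 : ∀ lam ∈ Icc a b, ∫⁻ ξ, ‖FD lam f ξ‖ₑ ^ p ≤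
      ENNReal.ofReal ((a ^ 2)⁻¹) * Nq 1 (lam ^ 2) p (fd f) univ := by
    intro lam hl
    have hl0 : 0 < lam := by linarith [hl.1]
    have hl1 : lam < 1 := by linarith [hl.2]
    rw [FD_Lp hl0 hl1 hf p (by linarith)]
    refine mul_le_mul' ?_ le_rfl
    calc ENNReal.ofReal (lam ^ 2) ^ p * ENNReal.ofReal ((lam ^ 2)⁻¹) ≤
          1 * ENNReal.ofReal ((a ^ 2)⁻¹) := by
          refine mul_le_mul' ?_ (ENNReal.ofReal_le_ofReal ?_)
          · apply ENNReal.rpow_le_one _ (by linarith)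
            rw [← ENNReal.ofReal_one]
            apply ENNReal.ofReal_le_ofReal
            nlinarith
          · apply inv_anti₀ (by positivity)
            nlinarith [hl.1]
      _ = _ := one_mul _
  have h2 := sq_subst (b := b) ha fun L => Nq 1 L p (fd f) univ
  have hne : ENNReal.ofReal (2 * a) ≠ 0 := (ENNReal.ofReal_pos.2 (by positivity)).ne'
  calc ∫⁻ lam in Icc a b, ∫⁻ ξ, ‖FD lam f ξ‖ₑ ^ p
      ≤ ∫⁻ lam in Icc a b, ENNReal.ofReal ((a ^ 2)⁻¹) * Nq 1 (lam ^ 2) p (fd f) univ :=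
        setLIntegral_mono' measurableSet_Icc h1
    _ = ENNReal.ofReal ((a ^ 2)⁻¹) * ∫⁻ lam in Icc a b, Nq 1 (lam ^ 2) p (fd f) univ :=
        lintegral_const_mul' _ _ ENNReal.ofReal_ne_top
    _ = ENNReal.ofReal ((a ^ 2)⁻¹) * ((ENNReal.ofReal (2 * a))⁻¹ * (ENNReal.ofReal (2 * a) *
        ∫⁻ lam in Icc a b, Nq 1 (lam ^ 2) p (fd f) univ)) := by
        rw [← mul_assoc (ENNReal.ofReal (2 * a))⁻¹, ENNReal.inv_mul_cancel hne
          ENNReal.ofReal_ne_top, one_mul]
    _ ≤ ENNReal.ofReal ((a ^ 2)⁻¹) * ((ENNReal.ofReal (2 * a))⁻¹ *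
        (C * ENNReal.ofReal M ^ p)) := by
        exact mul_le_mul' le_rfl (mul_le_mul' le_rfl (h2.trans (h M _ hDS)))
    _ = _ := by ring

end Pool.Agent.W777.DL
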